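import Mathlib

/-!
# The alternating sum of products

`altProd a = ∑ σ, sgn σ • a (σ 0) * a (σ 1) * ⋯` and its expansions along the first and the last
factor.
-/

namespace Pool.Agent.H198R3.AltProd

open Equiv

/-- The alternating sum of the products of `a 0, …, a (n - 1)` over all orders of the factors. -/
def altProd {A : Type*} [Ring A] {n : ℕ} (a : Fin n → A) : A :=
  ∑ σ : Equiv.Perm (Fin n), ((Equiv.Perm.sign σ : ℤˣ) : ℤ) • (List.ofFn fun k => a (σ k)).prod

/-- The permutation sending `0` to `j` and `k + 1` to `j.succAbove (σ k)`. -/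
def ins {n : ℕ} (j : Fin (n + 1)) (σ : Perm (Fin n)) : Perm (Fin (n + 1)) :=
  (Perm.decomposeFin.symm (0, σ)).trans j.cycleRange.symm

theorem ins_zero {n : ℕ} (j : Fin (n + 1)) (σ : Perm (Fin n)) : ins j σ 0 = j := by
  simp [ins]

theorem ins_succ {n : ℕ} (j : Fin (n + 1)) (σ : Perm (Fin n)) (k : Fin n) :
    ins j σ k.succ = j.succAbove (σ k) := by
  simp [ins]

theorem sign_ins {n : ℕ} (j : Fin (n + 1)) (σ : Perm (Fin n)) :
    ((Perm.sign (ins j σ) : ℤˣ) : ℤ) = (-1) ^ (j : ℕ) * ((Perm.sign σ : ℤˣ) : ℤ) := by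
  simp [ins, Perm.sign_trans, Equiv.Perm.decomposeFin.symm_sign, Fin.sign_cycleRange]

theorem ins_bijective {n : ℕ} :
    Function.Bijective (fun p : Fin (n + 1) × Perm (Fin n) => ins p.1 p.2) := by
  rw [Fintype.bijective_iff_injective_and_card]
  constructor
  · rintro ⟨j, σ⟩ ⟨j', σ'⟩ h
    have h0 := congrArg (fun τ : Perm (Fin (n + 1)) => τ 0) h
    simp only [ins_zero] at h0
    subst h0
    congr 1
    ext k
    have hk := congrArg (fun τ : Perm (Fin (n + 1)) => τ k.succ) h
    simp only [ins_succ] at hk
    rw [Fin.succAbove_right_injective hk]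
  · simp [Fintype.card_perm, Nat.factorial_succ]

/-- Expansion along the first factor. -/
theorem altProd_first {A : Type*} [Ring A] {n : ℕ} (a : Fin (n + 1) → A) :
    altProd a = ∑ j : Fin (n + 1), ((-1) ^ (j : ℕ) : ℤ) •
      (a j * altProd (fun k => a (j.succAbove k))) := by
  simp only [altProd]
  rw [← Function.Bijective.sum_comp ins_bijective, Fintype.sum_prod_type]
  refine Finset.sum_congr rfl fun j _ => ?_
  rw [Finset.mul_sum, Finset.smul_sum]
  refine Finset.sum_congr rfl fun σ _ => ?_
  rw [List.ofFn_succ, List.prod_cons, sign_ins, mul_smul_comm, smul_smul]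
  simp only [ins_zero, ins_succ]

theorem ins_rot_bijective {n : ℕ} :
    Function.Bijective (fun p : Fin (n + 1) × Perm (Fin n) =>
      (finRotate (n + 1)).trans (ins p.1 p.2)) := by
  have h : (fun p : Fin (n + 1) × Perm (Fin n) => (finRotate (n + 1)).trans (ins p.1 p.2)) =
      (fun τ : Perm (Fin (n + 1)) => (finRotate (n + 1)).trans τ) ∘
      (fun p : Fin (n + 1) × Perm (Fin n) => ins p.1 p.2) := rfl
  rw [h]
  refine Function.Bijective.comp ?_ ins_bijective
  exact (Equiv.mulRight (finRotate (n + 1))).bijective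

/-- Expansion along the last factor. -/
theorem altProd_last {A : Type*} [Ring A] {n : ℕ} (a : Fin (n + 1) → A) :
    altProd a = ∑ j : Fin (n + 1), ((-1) ^ (n + (j : ℕ)) : ℤ) •
      (altProd (fun k => a (j.succAbove k)) * a j) := by
  simp only [altProd]
  rw [← Function.Bijective.sum_comp ins_rot_bijective, Fintype.sum_prod_type]
  refine Finset.sum_congr rfl fun j _ => ?_
  rw [Finset.sum_mul, Finset.smul_sum]
  refine Finset.sum_congr rfl fun σ _ => ?_
  have h1 : (List.ofFn fun k => a (((finRotate (n + 1)).trans (ins j σ)) k)).prod =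
      (List.ofFn fun k => a (j.succAbove (σ k))).prod * a j := by
    rw [List.ofFn_succ', List.concat_eq_append, List.prod_append, List.prod_singleton]
    congr 2
    · congr 1
      ext k
      rw [Equiv.trans_apply, finRotate_apply]
      rw [Fin.coeSucc_eq_succ, ins_succ]
    · rw [Equiv.trans_apply, finRotate_last, ins_zero]
  rw [h1, Perm.sign_trans, smul_mul_assoc, smul_smul]
  congr 1
  push_cast
  rw [sign_ins, sign_finRotate]
  push_cast
  ring

/-- For odd `n` the two expansions differ by a sign. -/
theorem altProd_identity {A : Type*} [Ring A] {n : ℕ} (hn : Odd n) (a : Fin (n + 1) → A) :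
    ∑ j : Fin (n + 1), ((-1) ^ (j : ℕ) : ℤ) •
      (a j * altProd (fun k => a (j.succAbove k)) +
        altProd (fun k => a (j.succAbove k)) * a j) = 0 := by
  have h1 := altProd_first a
  have h2 := altProd_last a
  rw [h1] at h2
  simp only [smul_add, Finset.sum_add_distrib]
  rw [h2, ← Finset.sum_add_distrib]
  apply Finset.sum_eq_zero
  intro j _
  rw [pow_add, hn.neg_one_pow, ← add_smul]
  simp

theorem altProd_eq_alternatization {F A : Type*} [Field F] [Ring A] [Algebra F A] {n : ℕ}
    (a : Fin n → A) :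
    altProd a = MultilinearMap.alternatization (MultilinearMap.mkPiAlgebraFin F n A) a := by
  rw [MultilinearMap.alternatization_apply, altProd]
  refine Finset.sum_congr rfl fun σ _ => ?_
  rw [MultilinearMap.domDomCongr_apply, MultilinearMap.mkPiAlgebraFin_apply]
  rfl

end Pool.Agent.H198R3.AltProd
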