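import Mathlib

/-!
# A 25-dimensional commutative algebra with eight axes

`B` is spanned by `a_0, …, a_3`, the six products `p_ij = a_i a_j`, an element `n = p_01 p_23` and
`m = n n`.  `A = B ⊕ B ⊕ F w` with `m m' = w` for the two copies `m, m'` of `m`.
-/

set_option linter.unusedSimpArgs false
set_option linter.unusedTactic false
set_option linter.unreachableTactic false
set_option linter.unnecessarySeqFocus false

namespace Pool.Agent.H198R3.Axial

universe u

section B

variable {F : Type u} [Field F]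

/-- Product on the span of `p_01, p_23, p_02, p_13, p_03, p_12, n`, without the `m` component. -/
def jmul (x : F) (v w : Fin 7 → F) : Fin 7 → F
  | 0 => x * (2 * x - 1) * (v 0 * w 0) + x * x * ((v 0 * w 2 + v 2 * w 0) + (v 0 * w 5 + v 5 * w
      0) + (v 0 * w 4 + v 4 * w 0) + (v 0 * w 3 + v 3 * w 0) -
      (v 2 * w 5 + v 5 * w 2) - (v 4 * w 3 + v 3 * w 4))
  | 1 => x * (2 * x - 1) * (v 1 * w 1) + x * x * ((v 1 * w 2 + v 2 * w 1) + (v 1 * w 4 + v 4 * w
      1) + (v 1 * w 5 + v 5 * w 1) + (v 1 * w 3 + v 3 * w 1) -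
      (v 2 * w 4 + v 4 * w 2) - (v 5 * w 3 + v 3 * w 5))
  | 2 => x * (2 * x - 1) * (v 2 * w 2) + x * x * ((v 2 * w 0 + v 0 * w 2) + (v 2 * w 5 + v 5 * w
      2) + (v 2 * w 4 + v 4 * w 2) + (v 2 * w 1 + v 1 * w 2) -
      (v 0 * w 5 + v 5 * w 0) - (v 4 * w 1 + v 1 * w 4))
  | 3 => x * (2 * x - 1) * (v 3 * w 3) + x * x * ((v 3 * w 0 + v 0 * w 3) + (v 3 * w 4 + v 4 * w
      3) + (v 3 * w 5 + v 5 * w 3) + (v 3 * w 1 + v 1 * w 3) -
      (v 0 * w 4 + v 4 * w 0) - (v 5 * w 1 + v 1 * w 5))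
  | 4 => x * (2 * x - 1) * (v 4 * w 4) + x * x * ((v 4 * w 0 + v 0 * w 4) + (v 4 * w 3 + v 3 * w
      4) + (v 4 * w 2 + v 2 * w 4) + (v 4 * w 1 + v 1 * w 4) -
      (v 0 * w 3 + v 3 * w 0) - (v 2 * w 1 + v 1 * w 2))
  | 5 => x * (2 * x - 1) * (v 5 * w 5) + x * x * ((v 5 * w 0 + v 0 * w 5) + (v 5 * w 2 + v 2 * w
      5) + (v 5 * w 3 + v 3 * w 5) + (v 5 * w 1 + v 1 * w 5) -
      (v 0 * w 2 + v 2 * w 0) - (v 3 * w 1 + v 1 * w 3))
  | 6 => v 0 * w 1 + v 1 * w 0

/-- The products of the axes. -/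
def pm (s t : Fin 4 → F) : Fin 7 → F
  | 0 => s 0 * t 1 + s 1 * t 0
  | 1 => s 2 * t 3 + s 3 * t 2
  | 2 => s 0 * t 2 + s 2 * t 0
  | 3 => s 1 * t 3 + s 3 * t 1
  | 4 => s 0 * t 3 + s 3 * t 0
  | 5 => s 1 * t 2 + s 2 * t 1
  | 6 => 0

/-- The sum of the coordinates. -/
def tr (s : Fin 4 → F) : F := s 0 + s 1 + s 2 + s 3

/-- Elements of `B`. -/
abbrev BB (F : Type u) : Type u := (Fin 4 → F) × (Fin 7 → F) × F

/-- The product of `B`. -/
def mulB (x : F) (a b : BB F) : BB F :=
  (fun i => a.1 i * b.1 i,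
    fun k => pm a.1 b.1 k + x * tr a.1 * b.2.1 k + x * tr b.1 * a.2.1 k + jmul x a.2.1 b.2.1 k,
    a.2.1 6 * b.2.1 6)

theorem jmul_comm (x : F) (v w : Fin 7 → F) : ∀ k, jmul x v w k = jmul x w v k
  | 0 => by simp only [jmul]; ring
  | 1 => by simp only [jmul]; ring
  | 2 => by simp only [jmul]; ring
  | 3 => by simp only [jmul]; ring
  | 4 => by simp only [jmul]; ring
  | 5 => by simp only [jmul]; ring
  | 6 => by simp only [jmul]; ring

theorem jmul_add (x : F) (v w z : Fin 7 → F) :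
    ∀ k, jmul x v (w + z) k = jmul x v w k + jmul x v z k
  | 0 => by simp only [jmul, Pi.add_apply]; ring
  | 1 => by simp only [jmul, Pi.add_apply]; ring
  | 2 => by simp only [jmul, Pi.add_apply]; ring
  | 3 => by simp only [jmul, Pi.add_apply]; ring
  | 4 => by simp only [jmul, Pi.add_apply]; ring
  | 5 => by simp only [jmul, Pi.add_apply]; ring
  | 6 => by simp only [jmul, Pi.add_apply]; ring

theorem jmul_smul (x r : F) (v w : Fin 7 → F) : ∀ k, jmul x v (r • w) k = r * jmul x v w k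
  | 0 => by simp only [jmul, Pi.smul_apply, smul_eq_mul]; ring
  | 1 => by simp only [jmul, Pi.smul_apply, smul_eq_mul]; ring
  | 2 => by simp only [jmul, Pi.smul_apply, smul_eq_mul]; ring
  | 3 => by simp only [jmul, Pi.smul_apply, smul_eq_mul]; ring
  | 4 => by simp only [jmul, Pi.smul_apply, smul_eq_mul]; ring
  | 5 => by simp only [jmul, Pi.smul_apply, smul_eq_mul]; ring
  | 6 => by simp only [jmul, Pi.smul_apply, smul_eq_mul]; ring

theorem jmul_zero (x : F) (w : Fin 7 → F) : ∀ k, jmul x 0 w k = 0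
  | 0 => by simp only [jmul, Pi.zero_apply]; ring
  | 1 => by simp only [jmul, Pi.zero_apply]; ring
  | 2 => by simp only [jmul, Pi.zero_apply]; ring
  | 3 => by simp only [jmul, Pi.zero_apply]; ring
  | 4 => by simp only [jmul, Pi.zero_apply]; ring
  | 5 => by simp only [jmul, Pi.zero_apply]; ring
  | 6 => by simp only [jmul, Pi.zero_apply]; ring

theorem pm_comm (v w : Fin 4 → F) : ∀ k, pm v w k = pm w v k
  | 0 => by simp only [pm] <;> ring
  | 1 => by simp only [pm] <;> ring
  | 2 => by simp only [pm] <;> ring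
  | 3 => by simp only [pm] <;> ring
  | 4 => by simp only [pm] <;> ring
  | 5 => by simp only [pm] <;> ring
  | 6 => by simp only [pm] <;> ring

theorem pm_add (v w z : Fin 4 → F) :
    ∀ k, pm v (w + z) k = pm v w k + pm v z k
  | 0 => by simp only [pm, Pi.add_apply]; ring
  | 1 => by simp only [pm, Pi.add_apply]; ring
  | 2 => by simp only [pm, Pi.add_apply]; ring
  | 3 => by simp only [pm, Pi.add_apply]; ring
  | 4 => by simp only [pm, Pi.add_apply]; ring
  | 5 => by simp only [pm, Pi.add_apply]; ring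
  | 6 => by simp only [pm, Pi.add_apply]; ring

theorem pm_smul (r : F) (v w : Fin 4 → F) : ∀ k, pm v (r • w) k = r * pm v w k
  | 0 => by simp only [pm, Pi.smul_apply, smul_eq_mul]; ring
  | 1 => by simp only [pm, Pi.smul_apply, smul_eq_mul]; ring
  | 2 => by simp only [pm, Pi.smul_apply, smul_eq_mul]; ring
  | 3 => by simp only [pm, Pi.smul_apply, smul_eq_mul]; ring
  | 4 => by simp only [pm, Pi.smul_apply, smul_eq_mul]; ring
  | 5 => by simp only [pm, Pi.smul_apply, smul_eq_mul]; ring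
  | 6 => by simp only [pm, Pi.smul_apply, smul_eq_mul]; ring

theorem tr_add (v w : Fin 4 → F) : tr (v + w) = tr v + tr w := by
  simp only [tr, Pi.add_apply]; ring

theorem tr_smul (r : F) (v : Fin 4 → F) : tr (r • v) = r * tr v := by
  simp only [tr, Pi.smul_apply, smul_eq_mul]; ring

theorem mulB_comm (x : F) (a b : BB F) : mulB x a b = mulB x b a := by
  refine Prod.ext (funext fun i => mul_comm _ _) (Prod.ext (funext fun k => ?_) (mul_comm _ _))
  simp only [mulB]
  rw [pm_comm, jmul_comm]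
  ring

theorem mulB_add (x : F) (a b c : BB F) : mulB x a (b + c) = mulB x a b + mulB x a c := by
  refine Prod.ext (funext fun i => mul_add _ _ _) (Prod.ext (funext fun k => ?_) (mul_add _ _ _))
  simp only [mulB, Prod.fst_add, Prod.snd_add, Pi.add_apply, pm_add, jmul_add, tr_add]
  ring

theorem mulB_smul (x r : F) (a b : BB F) : mulB x a (r • b) = r • mulB x a b := by
  refine Prod.ext (funext fun i => ?_) (Prod.ext (funext fun k => ?_) ?_)
  · simp only [mulB, Prod.smul_fst, Pi.smul_apply, smul_eq_mul]; ring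
  · simp only [mulB, Prod.smul_fst, Prod.smul_snd, Pi.smul_apply, smul_eq_mul, pm_smul,
      jmul_smul, tr_smul]
    ring
  · simp only [mulB, Prod.smul_fst, Prod.smul_snd, Pi.smul_apply, smul_eq_mul]; ring

/-- The axes of `B`. -/
def axB (F : Type u) [Field F] (i : Fin 4) : BB F := (Pi.single i 1, 0, 0)

theorem tr_single (i : Fin 4) : tr (Pi.single i (1 : F)) = 1 := by
  fin_cases i <;> simp [tr]

/-- Coordinates of `a_i u`. -/
theorem axB_mul (x : F) (i : Fin 4) (u : BB F) :
    mulB x (axB F i) u = (Pi.single i (u.1 i), fun k => pm (Pi.single i 1) u.1 k + x * u.2.1 k,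
      0) := by
  refine Prod.ext (funext fun j => ?_) (Prod.ext (funext fun k => ?_) ?_)
  · by_cases h : j = i
    · subst h
      simp [mulB, axB]
    · simp [mulB, axB, h]
  · simp only [mulB, axB, tr_single, jmul_zero, Pi.zero_apply]
    ring
  · simp [mulB, axB]

/-- The core identity: products of elements annihilated by `a_i`. -/
theorem core (x : F) (hx : x ≠ 0) (i : Fin 4) (s t : Fin 4 → F) (hs : s i = 0) (ht : t i = 0)
    (v z : Fin 7 → F) (hv : ∀ k, v k = - x⁻¹ * pm (Pi.single i 1) s k)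
    (hz : ∀ k, z k = - x⁻¹ * pm (Pi.single i 1) t k) : ∀ k,
    pm (Pi.single i 1) (fun j => s j * t j) k + x * (pm s t k + x * tr s * z k + x * tr t * v k +
      jmul x v z k) = 0 := by
  intro k
  fin_cases i
  · change s 0 = 0 at hs
    change t 0 = 0 at ht
    change ∀ k, v k = - x⁻¹ * pm (Pi.single 0 1) s k at hv
    change ∀ k, z k = - x⁻¹ * pm (Pi.single 0 1) t k at hz
    change pm (Pi.single 0 1) (fun j => s j * t j) k + _ = 0
    have v0 : v 0 = - x⁻¹ * s 1 := by rw [hv]; simp [pm]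
    have z0 : z 0 = - x⁻¹ * t 1 := by rw [hz]; simp [pm]
    have v1 : v 1 = 0 := by rw [hv]; simp [pm]
    have z1 : z 1 = 0 := by rw [hz]; simp [pm]
    have v2 : v 2 = - x⁻¹ * s 2 := by rw [hv]; simp [pm]
    have z2 : z 2 = - x⁻¹ * t 2 := by rw [hz]; simp [pm]
    have v3 : v 3 = 0 := by rw [hv]; simp [pm]
    have z3 : z 3 = 0 := by rw [hz]; simp [pm]
    have v4 : v 4 = - x⁻¹ * s 3 := by rw [hv]; simp [pm]
    have z4 : z 4 = - x⁻¹ * t 3 := by rw [hz]; simp [pm]
    have v5 : v 5 = 0 := by rw [hv]; simp [pm]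
    have z5 : z 5 = 0 := by rw [hz]; simp [pm]
    have v6 : v 6 = 0 := by rw [hv]; simp [pm]
    have z6 : z 6 = 0 := by rw [hz]; simp [pm]
    match k with
    | 0 =>
      have e : pm (Pi.single 0 1) (fun j => s j * t j) 0 = s 1 * t 1 := by simp [pm]
      rw [e]
      simp only [pm, tr, jmul, v0, v1, v2, v3, v4, v5, v6, z0, z1, z2, z3, z4, z5, z6, hs, ht]
      field_simp
      ring
    | 1 =>
      have e : pm (Pi.single 0 1) (fun j => s j * t j) 1 = 0 := by simp [pm]
      rw [e]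
      simp only [pm, tr, jmul, v0, v1, v2, v3, v4, v5, v6, z0, z1, z2, z3, z4, z5, z6, hs, ht]
      field_simp
      ring
    | 2 =>
      have e : pm (Pi.single 0 1) (fun j => s j * t j) 2 = s 2 * t 2 := by simp [pm]
      rw [e]
      simp only [pm, tr, jmul, v0, v1, v2, v3, v4, v5, v6, z0, z1, z2, z3, z4, z5, z6, hs, ht]
      field_simp
      ring
    | 3 =>
      have e : pm (Pi.single 0 1) (fun j => s j * t j) 3 = 0 := by simp [pm]
      rw [e]
      simp only [pm, tr, jmul, v0, v1, v2, v3, v4, v5, v6, z0, z1, z2, z3, z4, z5, z6, hs, ht]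
      field_simp
      ring
    | 4 =>
      have e : pm (Pi.single 0 1) (fun j => s j * t j) 4 = s 3 * t 3 := by simp [pm]
      rw [e]
      simp only [pm, tr, jmul, v0, v1, v2, v3, v4, v5, v6, z0, z1, z2, z3, z4, z5, z6, hs, ht]
      field_simp
      ring
    | 5 =>
      have e : pm (Pi.single 0 1) (fun j => s j * t j) 5 = 0 := by simp [pm]
      rw [e]
      simp only [pm, tr, jmul, v0, v1, v2, v3, v4, v5, v6, z0, z1, z2, z3, z4, z5, z6, hs, ht]
      field_simp
      ring
    | 6 =>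
      have e : pm (Pi.single 0 1) (fun j => s j * t j) 6 = 0 := by simp [pm]
      rw [e]
      simp only [pm, tr, jmul, v0, v1, v2, v3, v4, v5, v6, z0, z1, z2, z3, z4, z5, z6, hs, ht]
      field_simp
      ring
  · change s 1 = 0 at hs
    change t 1 = 0 at ht
    change ∀ k, v k = - x⁻¹ * pm (Pi.single 1 1) s k at hv
    change ∀ k, z k = - x⁻¹ * pm (Pi.single 1 1) t k at hz
    change pm (Pi.single 1 1) (fun j => s j * t j) k + _ = 0
    have v0 : v 0 = - x⁻¹ * s 0 := by rw [hv]; simp [pm]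
    have z0 : z 0 = - x⁻¹ * t 0 := by rw [hz]; simp [pm]
    have v1 : v 1 = 0 := by rw [hv]; simp [pm]
    have z1 : z 1 = 0 := by rw [hz]; simp [pm]
    have v2 : v 2 = 0 := by rw [hv]; simp [pm]
    have z2 : z 2 = 0 := by rw [hz]; simp [pm]
    have v3 : v 3 = - x⁻¹ * s 3 := by rw [hv]; simp [pm]
    have z3 : z 3 = - x⁻¹ * t 3 := by rw [hz]; simp [pm]
    have v4 : v 4 = 0 := by rw [hv]; simp [pm]
    have z4 : z 4 = 0 := by rw [hz]; simp [pm]
    have v5 : v 5 = - x⁻¹ * s 2 := by rw [hv]; simp [pm]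
    have z5 : z 5 = - x⁻¹ * t 2 := by rw [hz]; simp [pm]
    have v6 : v 6 = 0 := by rw [hv]; simp [pm]
    have z6 : z 6 = 0 := by rw [hz]; simp [pm]
    match k with
    | 0 =>
      have e : pm (Pi.single 1 1) (fun j => s j * t j) 0 = s 0 * t 0 := by simp [pm]
      rw [e]
      simp only [pm, tr, jmul, v0, v1, v2, v3, v4, v5, v6, z0, z1, z2, z3, z4, z5, z6, hs, ht]
      field_simp
      ring
    | 1 =>
      have e : pm (Pi.single 1 1) (fun j => s j * t j) 1 = 0 := by simp [pm]
      rw [e]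
      simp only [pm, tr, jmul, v0, v1, v2, v3, v4, v5, v6, z0, z1, z2, z3, z4, z5, z6, hs, ht]
      field_simp
      ring
    | 2 =>
      have e : pm (Pi.single 1 1) (fun j => s j * t j) 2 = 0 := by simp [pm]
      rw [e]
      simp only [pm, tr, jmul, v0, v1, v2, v3, v4, v5, v6, z0, z1, z2, z3, z4, z5, z6, hs, ht]
      field_simp
      ring
    | 3 =>
      have e : pm (Pi.single 1 1) (fun j => s j * t j) 3 = s 3 * t 3 := by simp [pm]
      rw [e]
      simp only [pm, tr, jmul, v0, v1, v2, v3, v4, v5, v6, z0, z1, z2, z3, z4, z5, z6, hs, ht]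
      field_simp
      ring
    | 4 =>
      have e : pm (Pi.single 1 1) (fun j => s j * t j) 4 = 0 := by simp [pm]
      rw [e]
      simp only [pm, tr, jmul, v0, v1, v2, v3, v4, v5, v6, z0, z1, z2, z3, z4, z5, z6, hs, ht]
      field_simp
      ring
    | 5 =>
      have e : pm (Pi.single 1 1) (fun j => s j * t j) 5 = s 2 * t 2 := by simp [pm]
      rw [e]
      simp only [pm, tr, jmul, v0, v1, v2, v3, v4, v5, v6, z0, z1, z2, z3, z4, z5, z6, hs, ht]
      field_simp
      ring
    | 6 =>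
      have e : pm (Pi.single 1 1) (fun j => s j * t j) 6 = 0 := by simp [pm]
      rw [e]
      simp only [pm, tr, jmul, v0, v1, v2, v3, v4, v5, v6, z0, z1, z2, z3, z4, z5, z6, hs, ht]
      field_simp
      ring
  · change s 2 = 0 at hs
    change t 2 = 0 at ht
    change ∀ k, v k = - x⁻¹ * pm (Pi.single 2 1) s k at hv
    change ∀ k, z k = - x⁻¹ * pm (Pi.single 2 1) t k at hz
    change pm (Pi.single 2 1) (fun j => s j * t j) k + _ = 0
    have v0 : v 0 = 0 := by rw [hv]; simp [pm]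
    have z0 : z 0 = 0 := by rw [hz]; simp [pm]
    have v1 : v 1 = - x⁻¹ * s 3 := by rw [hv]; simp [pm]
    have z1 : z 1 = - x⁻¹ * t 3 := by rw [hz]; simp [pm]
    have v2 : v 2 = - x⁻¹ * s 0 := by rw [hv]; simp [pm]
    have z2 : z 2 = - x⁻¹ * t 0 := by rw [hz]; simp [pm]
    have v3 : v 3 = 0 := by rw [hv]; simp [pm]
    have z3 : z 3 = 0 := by rw [hz]; simp [pm]
    have v4 : v 4 = 0 := by rw [hv]; simp [pm]
    have z4 : z 4 = 0 := by rw [hz]; simp [pm]
    have v5 : v 5 = - x⁻¹ * s 1 := by rw [hv]; simp [pm]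
    have z5 : z 5 = - x⁻¹ * t 1 := by rw [hz]; simp [pm]
    have v6 : v 6 = 0 := by rw [hv]; simp [pm]
    have z6 : z 6 = 0 := by rw [hz]; simp [pm]
    match k with
    | 0 =>
      have e : pm (Pi.single 2 1) (fun j => s j * t j) 0 = 0 := by simp [pm]
      rw [e]
      simp only [pm, tr, jmul, v0, v1, v2, v3, v4, v5, v6, z0, z1, z2, z3, z4, z5, z6, hs, ht]
      field_simp
      ring
    | 1 =>
      have e : pm (Pi.single 2 1) (fun j => s j * t j) 1 = s 3 * t 3 := by simp [pm]
      rw [e]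
      simp only [pm, tr, jmul, v0, v1, v2, v3, v4, v5, v6, z0, z1, z2, z3, z4, z5, z6, hs, ht]
      field_simp
      ring
    | 2 =>
      have e : pm (Pi.single 2 1) (fun j => s j * t j) 2 = s 0 * t 0 := by simp [pm]
      rw [e]
      simp only [pm, tr, jmul, v0, v1, v2, v3, v4, v5, v6, z0, z1, z2, z3, z4, z5, z6, hs, ht]
      field_simp
      ring
    | 3 =>
      have e : pm (Pi.single 2 1) (fun j => s j * t j) 3 = 0 := by simp [pm]
      rw [e]
      simp only [pm, tr, jmul, v0, v1, v2, v3, v4, v5, v6, z0, z1, z2, z3, z4, z5, z6, hs, ht]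
      field_simp
      ring
    | 4 =>
      have e : pm (Pi.single 2 1) (fun j => s j * t j) 4 = 0 := by simp [pm]
      rw [e]
      simp only [pm, tr, jmul, v0, v1, v2, v3, v4, v5, v6, z0, z1, z2, z3, z4, z5, z6, hs, ht]
      field_simp
      ring
    | 5 =>
      have e : pm (Pi.single 2 1) (fun j => s j * t j) 5 = s 1 * t 1 := by simp [pm]
      rw [e]
      simp only [pm, tr, jmul, v0, v1, v2, v3, v4, v5, v6, z0, z1, z2, z3, z4, z5, z6, hs, ht]
      field_simp
      ring
    | 6 =>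
      have e : pm (Pi.single 2 1) (fun j => s j * t j) 6 = 0 := by simp [pm]
      rw [e]
      simp only [pm, tr, jmul, v0, v1, v2, v3, v4, v5, v6, z0, z1, z2, z3, z4, z5, z6, hs, ht]
      field_simp
      ring
  · change s 3 = 0 at hs
    change t 3 = 0 at ht
    change ∀ k, v k = - x⁻¹ * pm (Pi.single 3 1) s k at hv
    change ∀ k, z k = - x⁻¹ * pm (Pi.single 3 1) t k at hz
    change pm (Pi.single 3 1) (fun j => s j * t j) k + _ = 0
    have v0 : v 0 = 0 := by rw [hv]; simp [pm]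
    have z0 : z 0 = 0 := by rw [hz]; simp [pm]
    have v1 : v 1 = - x⁻¹ * s 2 := by rw [hv]; simp [pm]
    have z1 : z 1 = - x⁻¹ * t 2 := by rw [hz]; simp [pm]
    have v2 : v 2 = 0 := by rw [hv]; simp [pm]
    have z2 : z 2 = 0 := by rw [hz]; simp [pm]
    have v3 : v 3 = - x⁻¹ * s 1 := by rw [hv]; simp [pm]
    have z3 : z 3 = - x⁻¹ * t 1 := by rw [hz]; simp [pm]
    have v4 : v 4 = - x⁻¹ * s 0 := by rw [hv]; simp [pm]
    have z4 : z 4 = - x⁻¹ * t 0 := by rw [hz]; simp [pm]
    have v5 : v 5 = 0 := by rw [hv]; simp [pm]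
    have z5 : z 5 = 0 := by rw [hz]; simp [pm]
    have v6 : v 6 = 0 := by rw [hv]; simp [pm]
    have z6 : z 6 = 0 := by rw [hz]; simp [pm]
    match k with
    | 0 =>
      have e : pm (Pi.single 3 1) (fun j => s j * t j) 0 = 0 := by simp [pm]
      rw [e]
      simp only [pm, tr, jmul, v0, v1, v2, v3, v4, v5, v6, z0, z1, z2, z3, z4, z5, z6, hs, ht]
      field_simp
      ring
    | 1 =>
      have e : pm (Pi.single 3 1) (fun j => s j * t j) 1 = s 2 * t 2 := by simp [pm]
      rw [e]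
      simp only [pm, tr, jmul, v0, v1, v2, v3, v4, v5, v6, z0, z1, z2, z3, z4, z5, z6, hs, ht]
      field_simp
      ring
    | 2 =>
      have e : pm (Pi.single 3 1) (fun j => s j * t j) 2 = 0 := by simp [pm]
      rw [e]
      simp only [pm, tr, jmul, v0, v1, v2, v3, v4, v5, v6, z0, z1, z2, z3, z4, z5, z6, hs, ht]
      field_simp
      ring
    | 3 =>
      have e : pm (Pi.single 3 1) (fun j => s j * t j) 3 = s 1 * t 1 := by simp [pm]
      rw [e]
      simp only [pm, tr, jmul, v0, v1, v2, v3, v4, v5, v6, z0, z1, z2, z3, z4, z5, z6, hs, ht]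
      field_simp
      ring
    | 4 =>
      have e : pm (Pi.single 3 1) (fun j => s j * t j) 4 = s 0 * t 0 := by simp [pm]
      rw [e]
      simp only [pm, tr, jmul, v0, v1, v2, v3, v4, v5, v6, z0, z1, z2, z3, z4, z5, z6, hs, ht]
      field_simp
      ring
    | 5 =>
      have e : pm (Pi.single 3 1) (fun j => s j * t j) 5 = 0 := by simp [pm]
      rw [e]
      simp only [pm, tr, jmul, v0, v1, v2, v3, v4, v5, v6, z0, z1, z2, z3, z4, z5, z6, hs, ht]
      field_simp
      ring
    | 6 =>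
      have e : pm (Pi.single 3 1) (fun j => s j * t j) 6 = 0 := by simp [pm]
      rw [e]
      simp only [pm, tr, jmul, v0, v1, v2, v3, v4, v5, v6, z0, z1, z2, z3, z4, z5, z6, hs, ht]
      field_simp
      ring

/-- The product of two elements annihilated by `a_i` is annihilated by `a_i`. -/
theorem zero_zero (x : F) (hx : x ≠ 0) (i : Fin 4) (u w : BB F) (hu : mulB x (axB F i) u = 0)
    (hw : mulB x (axB F i) w = 0) : mulB x (axB F i) (mulB x u w) = 0 := by
  obtain ⟨s, v, c⟩ := u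
  obtain ⟨t, z, d⟩ := w
  rw [axB_mul] at *
  simp only [Prod.mk_eq_zero, Pi.single_eq_zero_iff, and_true] at hu hw ⊢
  obtain ⟨hs, hv⟩ := hu
  obtain ⟨ht, hz⟩ := hw
  have e : ∀ k, v k = - x⁻¹ * pm (Pi.single i 1) s k := by
    intro k
    have := congrFun hv k
    simp only [Pi.zero_apply] at this
    field_simp
    linear_combination this
  have e' : ∀ k, z k = - x⁻¹ * pm (Pi.single i 1) t k := by
    intro k
    have := congrFun hz k
    simp only [Pi.zero_apply] at this
    field_simp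
    linear_combination this
  refine ⟨by simp [mulB, hs], ?_⟩
  funext k
  exact core x hx i s t hs ht v z e e' k

end B

end Pool.Agent.H198R3.Axial
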