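import Pool.Agent.H198R3.AxialMain

/-!
# Generation, indecomposability and the graph
-/

namespace Pool.Agent.H198R3.Axial

universe u

variable {F : Type u} [Field F] (x : F)

/-- The set of axes. -/
def XX : Set (AA F x) := Set.range (ax x)

theorem inj_mul (i : Bool) (b c : BB F) : inj x i b * inj x i c = inj x i (mulB x b c) := by
  refine Prod.ext (funext fun j => ?_) ?_
  · change mulB x ((Pi.single i b : Bool → BB F) j) ((Pi.single i c : Bool → BB F) j) =
      (Pi.single i (mulB x b c) : Bool → BB F) j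
    by_cases h : j = i
    · subst h; simp
    · rw [Pi.single_eq_of_ne h, Pi.single_eq_of_ne h, Pi.single_eq_of_ne h, mulB_zero]
  · change ((Pi.single i b : Bool → BB F) false).2.2 * ((Pi.single i c : Bool → BB F) true).2.2 +
      ((Pi.single i b : Bool → BB F) true).2.2 * ((Pi.single i c : Bool → BB F) false).2.2 = 0
    cases i <;> simp

/-- The elements `p_k` and `n`. -/
def pe (F : Type u) [Field F] (k : Fin 7) : BB F := (0, Pi.single k 1, 0)

/-- The element `m`. -/
def me (F : Type u) [Field F] : BB F := (0, 0, 1)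

theorem pm_zero_left (s : Fin 4 → F) (k : Fin 7) : pm 0 s k = 0 := by
  rw [pm_comm]
  have := pm_smul 0 s (0 : Fin 4 → F) k
  rwa [zero_smul, zero_mul] at this

theorem tr_zero : tr (0 : Fin 4 → F) = 0 := by simp [tr]

theorem ax_prod (i j : Fin 4) (k : Fin 7) (h1 : (Pi.single i (1 : F) : Fin 4 → F) j = 0)
    (h2 : ∀ l, pm (Pi.single i (1 : F)) (Pi.single j 1) l = (Pi.single k 1 : Fin 7 → F) l) :
    mulB x (axB F i) (axB F j) = pe F k := by
  have hij : i ≠ j := by
    rintro rfl
    rw [Pi.single_eq_same] at h1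
    exact one_ne_zero h1
  rw [axB_mul]
  refine Prod.ext ?_ (Prod.ext (funext fun l => ?_) rfl)
  · change (Pi.single i ((Pi.single j 1 : Fin 4 → F) i) : Fin 4 → F) = 0
    rw [Pi.single_eq_of_ne hij, Pi.single_zero]
  · change pm (Pi.single i 1) (Pi.single j 1) l + x * 0 = (Pi.single k 1 : Fin 7 → F) l
    rw [h2, mul_zero, add_zero]

theorem p_prod : mulB x (pe F 0) (pe F 1) = pe F 6 := by
  refine Prod.ext (funext fun i => by simp [mulB, pe]) (Prod.ext (funext fun l => ?_) ?_)
  · change pm 0 0 l + x * tr 0 * _ + x * tr 0 * _ + jmul x (Pi.single 0 1) (Pi.single 1 1) l =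
      (Pi.single 6 1 : Fin 7 → F) l
    rw [pm_zero_left, tr_zero]
    match l with
    | 0 => simp [jmul]
    | 1 => simp [jmul]
    | 2 => simp [jmul]
    | 3 => simp [jmul]
    | 4 => simp [jmul]
    | 5 => simp [jmul]
    | 6 => simp [jmul]
  · simp [mulB, pe]

theorem n_prod : mulB x (pe F 6) (pe F 6) = me F := by
  refine Prod.ext (funext fun i => by simp [mulB, pe, me]) (Prod.ext (funext fun l => ?_) ?_)
  · change pm 0 0 l + x * tr 0 * _ + x * tr 0 * _ + jmul x (Pi.single 6 1) (Pi.single 6 1) l = 0
    rw [pm_zero_left, tr_zero]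
    match l with
    | 0 => simp [jmul]
    | 1 => simp [jmul]
    | 2 => simp [jmul]
    | 3 => simp [jmul]
    | 4 => simp [jmul]
    | 5 => simp [jmul]
    | 6 => simp [jmul]
  · simp [mulB, pe, me]

/-- The element `w`. -/
def ww (x : F) : AA F x := ((0, 1) : (Bool → BB F) × F)

theorem m_prod : inj x false (me F) * inj x true (me F) = ww x := by
  refine Prod.ext (funext fun j => ?_) ?_
  · change mulB x ((Pi.single false (me F) : Bool → BB F) j)
      ((Pi.single true (me F) : Bool → BB F) j) = 0
    cases j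
    · rw [Pi.single_eq_of_ne (by decide : (false : Bool) ≠ true), mulB_zero]
    · rw [Pi.single_eq_of_ne (by decide : (true : Bool) ≠ false), zero_mulB]
  · change ((Pi.single false (me F) : Bool → BB F) false).2.2 *
      ((Pi.single true (me F) : Bool → BB F) true).2.2 +
      ((Pi.single false (me F) : Bool → BB F) true).2.2 *
      ((Pi.single true (me F) : Bool → BB F) false).2.2 = 1
    simp [me]

theorem BB_decomp (b : BB F) : b = (∑ i : Fin 4, b.1 i • axB F i) +
    (∑ k : Fin 7, b.2.1 k • pe F k) + b.2.2 • me F := by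
  refine Prod.ext (funext fun j => ?_) (Prod.ext (funext fun j => ?_) ?_)
  · simp only [Prod.fst_add, Prod.fst_sum, Prod.smul_fst, Pi.add_apply, Finset.sum_apply,
      Pi.smul_apply, axB, pe, me, smul_eq_mul, Pi.zero_apply, mul_zero, Finset.sum_const_zero,
      add_zero]
    rw [Finset.sum_eq_single j]
    · simp
    · intro k _ hk
      rw [Pi.single_eq_of_ne hk.symm, mul_zero]
    · intro h; exact absurd (Finset.mem_univ j) h
  · simp only [Prod.snd_add, Prod.snd_sum, Prod.fst_add, Prod.fst_sum, Prod.smul_fst,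
      Prod.smul_snd, Pi.add_apply, Finset.sum_apply, Pi.smul_apply, axB, pe, me, smul_eq_mul,
      Pi.zero_apply, mul_zero, Finset.sum_const_zero, add_zero, zero_add]
    rw [Finset.sum_eq_single j]
    · simp
    · intro k _ hk
      rw [Pi.single_eq_of_ne hk.symm, mul_zero]
    · intro h; exact absurd (Finset.mem_univ j) h
  · simp only [Prod.snd_add, Prod.snd_sum, Prod.smul_snd, axB, pe, me, smul_eq_mul,
      mul_zero, Finset.sum_const_zero, add_zero, zero_add, mul_one]

theorem AA_decomp (u : AA F x) : u = inj x false (u.1 false) + inj x true (u.1 true) +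
    u.2 • ww x := by
  refine Prod.ext (funext fun j => ?_) ?_
  · change u.1 j = (Pi.single false (u.1 false) : Bool → BB F) j +
      (Pi.single true (u.1 true) : Bool → BB F) j + u.2 • (0 : Bool → BB F) j
    cases j <;> simp
  · change u.2 = 0 + 0 + u.2 * 1
    ring

theorem generate (N : Submodule F (AA F x)) (hX : XX x ⊆ N)
    (hN : ∀ u ∈ N, ∀ v ∈ N, u * v ∈ N) : N = ⊤ := by
  have ha : ∀ s i, inj x s (axB F i) ∈ N := fun s i => hX ⟨(s, i), rfl⟩
  have hmul : ∀ s b c, inj x s b ∈ N → inj x s c ∈ N → inj x s (mulB x b c) ∈ N := by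
    intro s b c hb hc
    rw [← inj_mul]
    exact hN _ hb _ hc
  have hp : ∀ (s : Bool) (k : Fin 7), inj x s (pe F k) ∈ N := by
    intro s
    have h0 : inj x s (pe F 0) ∈ N := by
      rw [← ax_prod x 0 1 0 (by simp) (fun l => by fin_cases l <;> simp [pm])]
      exact hmul _ _ _ (ha s 0) (ha s 1)
    have h1 : inj x s (pe F 1) ∈ N := by
      rw [← ax_prod x 2 3 1 (by simp) (fun l => by fin_cases l <;> simp [pm])]
      exact hmul _ _ _ (ha s 2) (ha s 3)
    have h2 : inj x s (pe F 2) ∈ N := by
      rw [← ax_prod x 0 2 2 (by simp) (fun l => by fin_cases l <;> simp [pm])]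
      exact hmul _ _ _ (ha s 0) (ha s 2)
    have h3 : inj x s (pe F 3) ∈ N := by
      rw [← ax_prod x 1 3 3 (by simp) (fun l => by fin_cases l <;> simp [pm])]
      exact hmul _ _ _ (ha s 1) (ha s 3)
    have h4 : inj x s (pe F 4) ∈ N := by
      rw [← ax_prod x 0 3 4 (by simp) (fun l => by fin_cases l <;> simp [pm])]
      exact hmul _ _ _ (ha s 0) (ha s 3)
    have h5 : inj x s (pe F 5) ∈ N := by
      rw [← ax_prod x 1 2 5 (by simp) (fun l => by fin_cases l <;> simp [pm])]
      exact hmul _ _ _ (ha s 1) (ha s 2)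
    have h6 : inj x s (pe F 6) ∈ N := by
      rw [← p_prod x]
      exact hmul _ _ _ h0 h1
    intro k
    match k with
    | 0 => exact h0
    | 1 => exact h1
    | 2 => exact h2
    | 3 => exact h3
    | 4 => exact h4
    | 5 => exact h5
    | 6 => exact h6
  have hm : ∀ s, inj x s (me F) ∈ N := by
    intro s
    rw [← n_prod x]
    exact hmul _ _ _ (hp s 6) (hp s 6)
  have hw : ww x ∈ N := by
    rw [← m_prod x]
    exact hN _ (hm false) _ (hm true)
  have hb : ∀ s b, inj x s b ∈ N := by
    intro s b
    let f : BB F →ₗ[F] AA F x :=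
      { toFun := inj x s, map_add' := inj_add x s, map_smul' := inj_smul x s }
    have : b ∈ N.comap f := by
      rw [BB_decomp b]
      refine add_mem (add_mem (sum_mem fun i _ => Submodule.smul_mem _ _ (ha s i))
        (sum_mem fun k _ => Submodule.smul_mem _ _ (hp s k))) (Submodule.smul_mem _ _ (hm s))
    exact this
  rw [eq_top_iff]
  intro u _
  rw [AA_decomp x u]
  exact add_mem (add_mem (hb _ _) (hb _ _)) (Submodule.smul_mem _ _ hw)

theorem ax_ax_of_ne {p q : Bool × Fin 4} (h : p.1 ≠ q.1) : ax x p * ax x q = 0 := by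
  rw [ax_mul]
  have h1 : (ax x q).1 p.1 = 0 := by
    change (Pi.single q.1 (axB F q.2) : Bool → BB F) p.1 = 0
    rw [Pi.single_eq_of_ne h]
  rw [h1, mulB_zero]
  refine Prod.ext (funext fun j => ?_) rfl
  change (Pi.single p.1 (0 : BB F) : Bool → BB F) j = 0
  simp

theorem ax_ax_ne_zero (s : Bool) (i j : Fin 4) : ax x (s, i) * ax x (s, j) ≠ 0 := by
  by_cases h : i = j
  · subst h
    rw [ax_idem]
    exact ax_ne_zero x _
  · rw [ax, ax, inj_mul]
    intro h0
    have h1 : (mulB x (axB F i) (axB F j)) = 0 := by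
      apply inj_injective x s
      rw [h0]
      refine Prod.ext (funext fun l => ?_) rfl
      change (0 : BB F) = (Pi.single s (0 : BB F) : Bool → BB F) l
      simp
    rw [axB_mul] at h1
    have h2 : ∀ k, pm (Pi.single i (1 : F)) (Pi.single j 1) k + x * 0 = 0 := fun k =>
      congrArg (fun w : BB F => w.2.1 k) h1
    have h3 : ∀ k, pm (Pi.single i (1 : F)) (Pi.single j 1) k = 0 := by
      intro k
      have := h2 k
      rwa [mul_zero, add_zero] at this
    fin_cases i <;> fin_cases j <;> first
      | exact h rfl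
      | (have := h3 0; simp [pm] at this; done)
      | (have := h3 1; simp [pm] at this; done)
      | (have := h3 2; simp [pm] at this; done)
      | (have := h3 3; simp [pm] at this; done)
      | (have := h3 4; simp [pm] at this; done)
      | (have := h3 5; simp [pm] at this; done)

/-- A submodule that contains the axes and is closed under multiplication by `A`. -/
theorem indecomposable (hx1 : x ≠ 1) : Indecomposable F (AA F x) := by
  refine ⟨⟨⟨ax x (false, 0), 0, ax_ne_zero x _⟩⟩, ?_⟩
  intro k I hk hne hideal hann hind htop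
  let i0 : Fin k := ⟨0, by omega⟩
  let i1 : Fin k := ⟨1, by omega⟩
  have hi : i0 ≠ i1 := by
    intro h
    have := congrArg Fin.val h
    simp [i0, i1] at this
  let P := I i0
  let Q : Submodule F (AA F x) := ⨆ j, ⨆ (_ : j ≠ i0), I j
  have hPQ : Disjoint P Q := hind i0
  have hsup : P ⊔ Q = ⊤ := by
    rw [eq_top_iff, ← htop]
    apply iSup_le
    intro j
    by_cases hj : j = i0
    · subst hj; exact le_sup_left
    · exact le_sup_of_le_right (le_iSup_of_le j (le_iSup_of_le hj le_rfl))
  have hPi : ∀ u ∈ P, ∀ v, u * v ∈ P := hideal i0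
  have hQi : ∀ u ∈ Q, ∀ v, u * v ∈ Q := by
    intro u hu v
    have : Q ≤ Q.comap (LinearMap.mulRight F v) := by
      apply iSup_le
      intro j
      apply iSup_le
      intro hj w hw
      exact Submodule.mem_iSup_of_mem j (Submodule.mem_iSup_of_mem hj (hideal j w hw v))
    exact this hu
  have hPQ0 : ∀ u ∈ P, ∀ v ∈ Q, u * v = 0 := by
    intro u hu v hv
    have : Q ≤ LinearMap.ker (LinearMap.mulLeft F u) := by
      apply iSup_le
      intro j
      apply iSup_le
      intro hj w hw
      exact hann i0 j hj.symm u hu w hw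
    exact this hv
  -- every axis lies in one of the two parts
  have hax : ∀ p, ax x p ∈ P ∨ ax x p ∈ Q := by
    intro p
    have h1 : ax x p ∈ P ⊔ Q := by rw [hsup]; trivial
    obtain ⟨u, hu, v, hv, huv⟩ := Submodule.mem_sup.mp h1
    have h2 : ax x p * u = u * u := by
      rw [← huv, add_mul, mul_comm v u, hPQ0 u hu v hv, add_zero]
    have h3 : u * u - u = v - v * v := by
      have h4 : ax x p * ax x p = ax x p := ax_idem x p
      rw [← huv, add_mul, mul_add, mul_add, hPQ0 u hu v hv, mul_comm v u, hPQ0 u hu v hv,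
        add_zero, zero_add] at h4
      rw [sub_eq_sub_iff_add_eq_add]
      rw [h4]
      abel
    have h5 : u * u - u = 0 := by
      have h6 : u * u - u ∈ P := sub_mem (hPi u hu u) hu
      have h7 : u * u - u ∈ Q := by rw [h3]; exact sub_mem hv (hQi v hv v)
      exact Submodule.disjoint_def.mp hPQ _ h6 h7
    have h8 : u ∈ eig F (ax x p) 1 := by
      change ax x p * u = (1 : F) • u
      rw [h2, one_smul, ← sub_eq_zero, h5]
    rw [eig_one x hx1, Submodule.mem_span_singleton] at h8
    obtain ⟨c, hc⟩ := h8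
    by_cases hc0 : c = 0
    · right
      rw [hc0, zero_smul] at hc
      rw [← huv, ← hc, zero_add]
      exact hv
    · left
      have : ax x p = c⁻¹ • u := by rw [← hc, inv_smul_smul₀ hc0]
      rw [this]
      exact Submodule.smul_mem _ _ hu
  -- the axes of one side lie in the same part
  have hside : ∀ s, (∀ i, ax x (s, i) ∈ P) ∨ (∀ i, ax x (s, i) ∈ Q) := by
    intro s
    rcases hax (s, 0) with h0 | h0
    · left
      intro i
      rcases hax (s, i) with h | h
      · exact h
      · exact absurd (hPQ0 _ h0 _ h) (ax_ax_ne_zero x s 0 i)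
    · right
      intro i
      rcases hax (s, i) with h | h
      · exact absurd (hPQ0 _ h _ h0) (ax_ax_ne_zero x s i 0)
      · exact h
  -- the element `m` of one side
  have hm : ∀ (M : Submodule F (AA F x)) (_ : ∀ u ∈ M, ∀ v, u * v ∈ M) (s : Bool)
      (_ : ∀ i, ax x (s, i) ∈ M), inj x s (me F) ∈ M := by
    intro M hM s hs
    have e0 : inj x s (pe F 0) ∈ M := by
      rw [← ax_prod x 0 1 0 (by simp) (fun l => by fin_cases l <;> simp [pm]), ← inj_mul]
      exact hM _ (hs 0) _
    have e6 : inj x s (pe F 6) ∈ M := by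
      rw [← p_prod x, ← inj_mul]
      exact hM _ e0 _
    rw [← n_prod x, ← inj_mul]
    exact hM _ e6 _
  have hw0 : ww x ≠ 0 := by
    intro h
    have : (1 : F) = 0 := congrArg (fun u : AA F x => u.2) h
    exact one_ne_zero this
  have htopP : P ≠ ⊤ := by
    intro h
    apply hne i1
    rw [eq_bot_iff]
    intro v hv
    have h1 : v ∈ Q := Submodule.mem_iSup_of_mem i1 (Submodule.mem_iSup_of_mem hi.symm hv)
    have h2 : v ∈ P := by rw [h]; trivial
    exact Submodule.disjoint_def.mp hPQ _ h2 h1
  have htopQ : Q ≠ ⊤ := by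
    intro h
    apply hne i0
    rw [eq_bot_iff]
    intro v hv
    have h1 : v ∈ Q := by rw [h]; trivial
    exact Submodule.disjoint_def.mp hPQ _ hv h1
  have hcl : ∀ M : Submodule F (AA F x), (∀ u ∈ M, ∀ v, u * v ∈ M) → (∀ s i, ax x (s, i) ∈ M) →
      M = ⊤ := by
    intro M hM hs
    apply generate x M
    · rintro _ ⟨⟨s, i⟩, rfl⟩
      exact hs s i
    · intro u hu v _
      exact hM u hu v
  rcases hside false with hf | hf <;> rcases hside true with ht | ht
  · exact htopP (hcl P hPi (fun s i => by cases s; exacts [hf i, ht i]))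
  · apply hw0
    rw [← m_prod x]
    exact hPQ0 _ (hm P hPi false hf) _ (hm Q hQi true ht)
  · apply hw0
    rw [← m_prod x, mul_comm]
    exact hPQ0 _ (hm P hPi true ht) _ (hm Q hQi false hf)
  · exact htopQ (hcl Q hQi (fun s i => by cases s; exacts [hf i, ht i]))

theorem not_connected : ¬ (graph (XX x)).Connected := by
  intro h
  let a : XX x := ⟨ax x (false, 0), (false, 0), rfl⟩
  let b : XX x := ⟨ax x (true, 0), (true, 0), rfl⟩
  have hr := h.preconnected a b
  have key : ∀ c d : XX x, (graph (XX x)).Reachable c d → (∃ i, (c : AA F x) = ax x (false, i)) →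
      ∃ i, (d : AA F x) = ax x (false, i) := by
    intro c d hcd
    obtain ⟨w⟩ := hcd
    induction w with
    | nil => exact id
    | cons hadj _ ih =>
      intro hc
      apply ih
      rename_i c' e' d' _
      obtain ⟨i, hi⟩ := hc
      obtain ⟨⟨s, j⟩, hj⟩ := e'.2
      have h2 := hadj.2
      rw [hi, ← hj] at h2
      cases s with
      | false => exact ⟨j, hj.symm⟩
      | true => exact absurd (ax_ax_of_ne x (by simp)) h2
  obtain ⟨i, hi⟩ := key a b hr ⟨0, rfl⟩
  have h1 : ((ax x (true, 0)).1 true).1 0 = ((ax x (false, i)).1 true).1 0 :=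
    congrArg (fun u : AA F x => (u.1 true).1 0) hi
  have h2 : ((ax x (true, 0)).1 true).1 0 = 1 := by simp [ax, inj, axB]
  have h3 : ((ax x (false, i)).1 true).1 0 = 0 := by simp [ax, inj]
  rw [h2, h3] at h1
  exact one_ne_zero h1

theorem finite_dim : Module.Finite F (AA F x) :=
  inferInstanceAs (Module.Finite F ((Bool → BB F) × F))

end Pool.Agent.H198R3.Axial
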