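import Pool.Agent.H198R3.AxialAlg

/-!
# Axial algebras: definitions and the counterexample
-/

namespace Pool.Agent.H198R3.Axial

universe u v

/-- A fusion law: a set `carrier` of eigenvalues containing `1` and a map
`star : carrier × carrier → 2^carrier`. -/
structure FusionLaw (F : Type u) [Field F] where
  /-- the eigenvalues -/
  carrier : Set F
  /-- the fusion rules (only the values at elements of `carrier` matter) -/
  star : F → F → Set F
  one_mem : (1 : F) ∈ carrier
  star_subset : ∀ l ∈ carrier, ∀ m ∈ carrier, star l m ⊆ carrier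

/-- The fusion law is Seress: `0` is an eigenvalue and `0 ⋆ l, l ⋆ 0, 1 ⋆ l, l ⋆ 1 ⊆ {l}` for all
eigenvalues `l`. -/
def FusionLaw.IsSeress {F : Type u} [Field F] (L : FusionLaw F) : Prop :=
  (0 : F) ∈ L.carrier ∧ ∀ l ∈ L.carrier,
    L.star 0 l ⊆ {l} ∧ L.star l 0 ⊆ {l} ∧ L.star 1 l ⊆ {l} ∧ L.star l 1 ⊆ {l}

section defs

variable {F : Type u} [Field F] {A : Type v} [NonUnitalNonAssocCommRing A] [Module F A]
  [IsScalarTower F A A] [SMulCommClass F A A]

/-- The space `A_l(a) = {v : a v = l v}`. -/
def eig (F : Type u) [Field F] {A : Type v} [NonUnitalNonAssocCommRing A] [Module F A]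
    [IsScalarTower F A A] [SMulCommClass F A A] (a : A) (l : F) : Submodule F A where
  carrier := {v | a * v = l • v}
  add_mem' := by
    intro u v hu hv
    change a * (u + v) = l • (u + v)
    rw [mul_add, smul_add, hu, hv]
  zero_mem' := by
    change a * 0 = l • 0
    rw [mul_zero, smul_zero]
  smul_mem' := by
    intro c v hv
    change a * (c • v) = l • (c • v)
    rw [mul_smul_comm, hv, smul_comm]

/-- `a` is an axis: a nonzero idempotent such that `A` is the direct sum of the `A_l(a)`,
`l ∈ L.carrier`, and `A_l(a) A_m(a) ⊆ ⨁_{n ∈ l ⋆ m} A_n(a)`. -/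
def IsAxis (L : FusionLaw F) (a : A) : Prop :=
  a ≠ 0 ∧ a * a = a ∧
    iSupIndep (fun l : L.carrier => eig F a (l : F)) ∧
    (⨆ l : L.carrier, eig F a (l : F)) = ⊤ ∧
    ∀ l ∈ L.carrier, ∀ m ∈ L.carrier, ∀ u ∈ eig F a l, ∀ v ∈ eig F a m,
      u * v ∈ ⨆ n ∈ L.star l m, eig F a n

/-- `(A, X)` is a primitive axial algebra for the fusion law `L`: `X` consists of primitive axes
and generates the algebra `A`. -/
def IsPrimitiveAxial (L : FusionLaw F) (X : Set A) : Prop :=
  (∀ a ∈ X, IsAxis L a ∧ eig F a 1 = Submodule.span F {a}) ∧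
    ∀ N : Submodule F A, X ⊆ N → (∀ u ∈ N, ∀ v ∈ N, u * v ∈ N) → N = ⊤

/-- The algebra `A` is nonzero and is not a direct sum of at least two nonzero ideals (which
annihilate each other). -/
def Indecomposable (F : Type u) [Field F] (A : Type v) [NonUnitalNonAssocCommRing A]
    [Module F A] : Prop :=
  Nontrivial A ∧ ∀ (k : ℕ) (I : Fin k → Submodule F A), 2 ≤ k → (∀ i, I i ≠ ⊥) →
    (∀ i, ∀ u ∈ I i, ∀ v, u * v ∈ I i) →
    (∀ i j, i ≠ j → ∀ u ∈ I i, ∀ v ∈ I j, u * v = 0) →
    iSupIndep I → (⨆ i, I i) ≠ ⊤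

/-- The non-annihilation graph on the set `X`: distinct `a, b` are joined when `a b ≠ 0`. -/
def graph {A : Type v} [NonUnitalNonAssocCommRing A] (X : Set A) : SimpleGraph X where
  Adj a b := a ≠ b ∧ (a : A) * (b : A) ≠ 0
  symm := ⟨fun a b h => ⟨h.1.symm, by rw [mul_comm]; exact h.2⟩⟩
  loopless := ⟨fun a h => h.1 rfl⟩

end defs

/-! ### The algebra -/

section alg

variable {F : Type u} [Field F]

/-- The underlying space of the algebra. -/
def AA (F : Type u) [Field F] (_x : F) : Type u := (Bool → BB F) × F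

variable (x : F)

instance : AddCommGroup (AA F x) := inferInstanceAs (AddCommGroup ((Bool → BB F) × F))
instance : Module F (AA F x) := inferInstanceAs (Module F ((Bool → BB F) × F))

/-- The product. -/
def mulA (a b : AA F x) : AA F x :=
  (fun i => mulB x (a.1 i) (b.1 i),
    (a.1 false).2.2 * (b.1 true).2.2 + (a.1 true).2.2 * (b.1 false).2.2)

theorem mulA_comm (a b : AA F x) : mulA x a b = mulA x b a := by
  refine Prod.ext (funext fun i => mulB_comm _ _ _) ?_
  simp only [mulA]
  ring

theorem mulA_add (a b c : AA F x) : mulA x a (b + c) = mulA x a b + mulA x a c := by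
  refine Prod.ext (funext fun i => mulB_add _ _ _ _) ?_
  change (a.1 false).2.2 * ((b.1 true).2.2 + (c.1 true).2.2) +
    (a.1 true).2.2 * ((b.1 false).2.2 + (c.1 false).2.2) =
    ((a.1 false).2.2 * (b.1 true).2.2 + (a.1 true).2.2 * (b.1 false).2.2) +
    ((a.1 false).2.2 * (c.1 true).2.2 + (a.1 true).2.2 * (c.1 false).2.2)
  ring

theorem mulA_smul (r : F) (a b : AA F x) : mulA x a (r • b) = r • mulA x a b := by
  refine Prod.ext (funext fun i => mulB_smul _ _ _ _) ?_
  change (a.1 false).2.2 * (r * (b.1 true).2.2) + (a.1 true).2.2 * (r * (b.1 false).2.2) =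
    r * ((a.1 false).2.2 * (b.1 true).2.2 + (a.1 true).2.2 * (b.1 false).2.2)
  ring

theorem mulA_zero (a : AA F x) : mulA x a 0 = 0 := by
  have := mulA_smul x 0 a 0
  rwa [zero_smul, zero_smul] at this

instance : NonUnitalNonAssocCommRing (AA F x) :=
  { (inferInstance : AddCommGroup (AA F x)) with
    mul := mulA x
    left_distrib := mulA_add x
    right_distrib := fun a b c => by
      change mulA x (a + b) c = mulA x a c + mulA x b c
      rw [mulA_comm, mulA_add, mulA_comm x c, mulA_comm x c]
    zero_mul := fun a => by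
      change mulA x 0 a = 0
      rw [mulA_comm, mulA_zero]
    mul_zero := mulA_zero x
    mul_comm := mulA_comm x }

instance : SMulCommClass F (AA F x) (AA F x) := ⟨fun r a b => (mulA_smul x r a b).symm⟩

instance : IsScalarTower F (AA F x) (AA F x) := ⟨fun r a b => by
  change mulA x (r • a) b = r • mulA x a b
  rw [mulA_comm, mulA_smul, mulA_comm]⟩

theorem mul_def (a b : AA F x) : a * b = mulA x a b := rfl

/-- An element of one of the two copies of `B`. -/
def inj (i : Bool) (b : BB F) : AA F x := (Pi.single i b, 0)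

/-- The axes. -/
def ax (p : Bool × Fin 4) : AA F x := inj x p.1 (axB F p.2)

theorem mulB_zero (a : BB F) : mulB x a 0 = 0 := by
  have := mulB_smul x 0 a 0
  rwa [zero_smul, zero_smul] at this

theorem zero_mulB (a : BB F) : mulB x 0 a = 0 := by rw [mulB_comm, mulB_zero]

theorem ax_mul (p : Bool × Fin 4) (u : AA F x) :
    ax x p * u = inj x p.1 (mulB x (axB F p.2) (u.1 p.1)) := by
  refine Prod.ext (funext fun i => ?_) ?_
  · change mulB x ((Pi.single p.1 (axB F p.2) : Bool → BB F) i) (u.1 i) =
      (Pi.single p.1 (mulB x (axB F p.2) (u.1 p.1)) : Bool → BB F) i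
    by_cases h : i = p.1
    · subst h
      simp
    · rw [Pi.single_eq_of_ne h, Pi.single_eq_of_ne h, zero_mulB]
  · change ((Pi.single p.1 (axB F p.2) : Bool → BB F) false).2.2 * (u.1 true).2.2 +
      ((Pi.single p.1 (axB F p.2) : Bool → BB F) true).2.2 * (u.1 false).2.2 = 0
    obtain ⟨s, i⟩ := p
    cases s <;> simp [axB]

theorem pm_single_single (i : Fin 4) (c : F) : ∀ k, pm (Pi.single i 1) (Pi.single i c) k = 0 := by
  intro k
  fin_cases i <;> fin_cases k <;> simp [pm]

theorem ax_idem (p : Bool × Fin 4) : ax x p * ax x p = ax x p := by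
  rw [ax_mul]
  change inj x p.1 (mulB x (axB F p.2) ((Pi.single p.1 (axB F p.2) : Bool → BB F) p.1)) = _
  rw [Pi.single_eq_same, axB_mul]
  change inj x p.1 (Pi.single p.2 ((Pi.single p.2 1 : Fin 4 → F) p.2), fun k =>
    pm (Pi.single p.2 1) (Pi.single p.2 1) k + x * (0 : Fin 7 → F) k, 0) = inj x p.1 (axB F p.2)
  congr 1
  refine Prod.ext ?_ (Prod.ext (funext fun k => ?_) rfl)
  · simp [axB]
  · change pm (Pi.single p.2 1) (Pi.single p.2 1) k + x * 0 = 0
    rw [pm_single_single]
    ring

theorem inj_injective (i : Bool) : Function.Injective (inj (F := F) x i) := by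
  intro a b h
  have h1 := congrArg (fun u : AA F x => u.1 i) h
  simpa [inj] using h1

theorem inj_smul (i : Bool) (r : F) (b : BB F) : inj x i (r • b) = r • inj x i b := by
  refine Prod.ext (funext fun j => ?_) (smul_zero r).symm
  change (Pi.single i (r • b) : Bool → BB F) j = r • (Pi.single i b : Bool → BB F) j
  by_cases h : j = i
  · subst h; simp
  · rw [Pi.single_eq_of_ne h, Pi.single_eq_of_ne h, smul_zero]

theorem inj_add (i : Bool) (b c : BB F) : inj x i (b + c) = inj x i b + inj x i c := by
  refine Prod.ext (funext fun j => ?_) (add_zero 0).symm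
  change (Pi.single i (b + c) : Bool → BB F) j = (Pi.single i b : Bool → BB F) j +
    (Pi.single i c : Bool → BB F) j
  by_cases h : j = i
  · subst h; simp
  · rw [Pi.single_eq_of_ne h, Pi.single_eq_of_ne h, Pi.single_eq_of_ne h, add_zero]

theorem ax_ne_zero (p : Bool × Fin 4) : ax x p ≠ 0 := by
  intro h
  have h1 := congrArg (fun u : AA F x => (u.1 p.1).1 p.2) h
  have h2 : ((ax x p).1 p.1).1 p.2 = 1 := by simp [ax, inj, axB]
  rw [h2] at h1
  exact one_ne_zero h1

/-- `a (a u) = φ a + x (a u - φ a)`. -/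
theorem ax_ax_mul (p : Bool × Fin 4) (u : AA F x) :
    ax x p * (ax x p * u) = ((u.1 p.1).1 p.2) • ax x p +
      x • (ax x p * u - ((u.1 p.1).1 p.2) • ax x p) := by
  rw [ax_mul x p u, ax_mul]
  have h1 : (inj x p.1 (mulB x (axB F p.2) (u.1 p.1))).1 p.1 = mulB x (axB F p.2) (u.1 p.1) := by
    simp [inj]
  rw [h1, ax, ← inj_smul, sub_eq_add_neg, ← neg_one_smul F (inj x p.1 _), ← inj_smul, ← inj_add,
    ← inj_smul, ← inj_add]
  congr 1
  rw [axB_mul x p.2 (mulB x (axB F p.2) (u.1 p.1)), axB_mul]
  refine Prod.ext ?_ (Prod.ext (funext fun k => ?_) ?_)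
  · funext j
    by_cases h : j = p.2
    · subst h; simp [axB]
    · simp [axB, h]
  · simp only [pm_single_single, Pi.single_eq_same, axB, Prod.smul_mk, Prod.mk_add_mk,
      Pi.add_apply, Pi.smul_apply, Pi.zero_apply, smul_eq_mul]
    ring
  · simp [axB]

/-- Elements with eigenvalue `x`. -/
theorem eig_x (hx0 : x ≠ 0) (hx1 : x ≠ 1) (p : Bool × Fin 4) (u : AA F x) :
    u ∈ eig F (ax x p) x ↔ ∃ v : Fin 7 → F, u = inj x p.1 (0, v, 0) := by
  change ax x p * u = x • u ↔ _
  rw [ax_mul]
  constructor
  · intro h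
    refine ⟨(u.1 p.1).2.1, ?_⟩
    have h1 : ∀ j, (inj x p.1 (mulB x (axB F p.2) (u.1 p.1))).1 j = x • u.1 j := fun j =>
      congrArg (fun w : AA F x => w.1 j) h
    have h2 : (0 : F) = x * u.2 := congrArg (fun w : AA F x => w.2) h
    refine Prod.ext (funext fun j => ?_) ?_
    · by_cases hj : j = p.1
      · subst hj
        have h3 := h1 p.1
        have h4 : (inj x p.1 (mulB x (axB F p.2) (u.1 p.1))).1 p.1 =
          mulB x (axB F p.2) (u.1 p.1) := by simp [inj]
        rw [h4, axB_mul] at h3
        change u.1 p.1 = (Pi.single p.1 ((0, (u.1 p.1).2.1, 0) : BB F) : Bool → BB F) p.1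
        rw [Pi.single_eq_same]
        refine Prod.ext (funext fun i => ?_) (Prod.ext rfl ?_)
        · have h5 := congrArg (fun w : BB F => w.1 i) h3
          simp only [Prod.smul_fst, Pi.smul_apply, smul_eq_mul] at h5
          by_cases hi : i = p.2
          · subst hi
            rw [Pi.single_eq_same] at h5
            have : (1 - x) * (u.1 p.1).1 p.2 = 0 := by linear_combination h5
            rcases mul_eq_zero.mp this with h | h
            · exact absurd (sub_eq_zero.mp h).symm hx1
            · exact h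
          · rw [Pi.single_eq_of_ne hi] at h5
            rcases mul_eq_zero.mp h5.symm with h | h
            · exact absurd h hx0
            · exact h
        · have h5 := congrArg (fun w : BB F => w.2.2) h3
          simp only [Prod.smul_snd, smul_eq_mul] at h5
          rcases mul_eq_zero.mp h5.symm with h | h
          · exact absurd h hx0
          · exact h
      · have h3 := h1 j
        have h4 : (inj x p.1 (mulB x (axB F p.2) (u.1 p.1))).1 j = 0 := by
          simp [inj, hj]
        rw [h4] at h3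
        change u.1 j = (Pi.single p.1 ((0, (u.1 p.1).2.1, 0) : BB F) : Bool → BB F) j
        rw [Pi.single_eq_of_ne hj]
        exact (smul_eq_zero.mp h3.symm).resolve_left hx0
    · rcases mul_eq_zero.mp h2.symm with h | h
      · exact absurd h hx0
      · exact h
  · rintro ⟨v, rfl⟩
    rw [← inj_smul]
    congr 1
    have h4 : (inj x p.1 ((0, v, 0) : BB F)).1 p.1 = (0, v, 0) := by simp [inj]
    rw [h4, axB_mul]
    refine Prod.ext ?_ (Prod.ext (funext fun k => ?_) ?_)
    · simp
    · have : pm (Pi.single p.2 1) (0 : Fin 4 → F) k = 0 := by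
        have := pm_smul 0 (Pi.single p.2 (1 : F)) (0 : Fin 4 → F) k
        rwa [zero_smul, zero_mul] at this
      simp only [this, Prod.smul_snd, Prod.smul_fst, Pi.smul_apply, smul_eq_mul]
      ring
    · simp

theorem eig_one (hx1 : x ≠ 1) (p : Bool × Fin 4) :
    eig F (ax x p) 1 = Submodule.span F {ax x p} := by
  apply le_antisymm
  · intro u hu
    change ax x p * u = (1 : F) • u at hu
    rw [one_smul] at hu
    rw [Submodule.mem_span_singleton]
    refine ⟨(u.1 p.1).1 p.2, ?_⟩
    have h1 := ax_ax_mul x p u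
    rw [hu, hu] at h1
    have h2 : (1 - x) • (u - ((u.1 p.1).1 p.2) • ax x p) = 0 := by
      rw [sub_smul, one_smul]
      nth_rewrite 1 [h1]
      abel
    rcases smul_eq_zero.mp h2 with h | h
    · exact absurd (sub_eq_zero.mp h).symm hx1
    · exact (sub_eq_zero.mp h).symm
  · rw [Submodule.span_le]
    intro u hu
    rw [Set.mem_singleton_iff] at hu
    subst hu
    change ax x p * ax x p = (1 : F) • ax x p
    rw [ax_idem, one_smul]

/-- The fusion law `1 ⋆ 1 = 1, 1 ⋆ 0 = ∅, 1 ⋆ x = x, 0 ⋆ 0 = 0, 0 ⋆ x = x, x ⋆ x = {0, x}`. -/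
def law : FusionLaw F where
  carrier := {1, 0, x}
  star l m := {n | (l = 1 ∧ m = 1 ∧ n = 1) ∨ (l = 0 ∧ m = 0 ∧ n = 0) ∨ (l = 0 ∧ m = x ∧ n = x) ∨
    (l = x ∧ m = 0 ∧ n = x) ∨ (l = 1 ∧ m = x ∧ n = x) ∨ (l = x ∧ m = 1 ∧ n = x) ∨
    (l = x ∧ m = x ∧ (n = 0 ∨ n = x))}
  one_mem := by simp
  star_subset := by
    intro l _ m _ n hn
    simp only [Set.mem_ofPred_eq] at hn
    rcases hn with h | h | h | h | h | h | h
    · simp [h.2.2]
    · simp [h.2.2]
    · simp [h.2.2]
    · simp [h.2.2]
    · simp [h.2.2]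
    · simp [h.2.2]
    · rcases h.2.2 with h | h <;> simp [h]

theorem law_seress (hx0 : x ≠ 0) (hx1 : x ≠ 1) : (law x).IsSeress := by
  refine ⟨by simp [law], ?_⟩
  intro l hl
  have h01 : (0 : F) ≠ 1 := zero_ne_one
  simp only [law, Set.mem_insert_iff, Set.mem_singleton_iff] at hl
  simp only [law, Set.subset_def, Set.mem_ofPred_eq, Set.mem_singleton_iff]
  rcases hl with rfl | rfl | rfl <;> simp_all [Ne.symm]

theorem indep (p : Bool × Fin 4) :
    iSupIndep (fun l : (law x).carrier => eig F (ax x p) (l : F)) := by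
  have h := Module.End.eigenspaces_iSupIndep (LinearMap.mulLeft F (ax x p))
  have h2 : (fun l : (law x).carrier => eig F (ax x p) (l : F)) =
      (fun l : (law x).carrier =>
        Module.End.eigenspace (LinearMap.mulLeft F (ax x p)) (l : F)) := by
    funext l
    ext v
    rw [Module.End.mem_eigenspace_iff]
    rfl
  rw [h2]
  exact h.comp Subtype.val_injective

theorem isAxis (hx0 : x ≠ 0) (hx1 : x ≠ 1) (p : Bool × Fin 4) : IsAxis (law x) (ax x p) := by
  have m1 : (1 : F) ∈ (law x).carrier := by simp [law]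
  have m0 : (0 : F) ∈ (law x).carrier := by simp [law]
  have mx : x ∈ (law x).carrier := by simp [law]
  refine ⟨ax_ne_zero x p, ax_idem x p, indep x p, ?_, ?_⟩
  · rw [eq_top_iff]
    intro u _
    set φ := (u.1 p.1).1 p.2 with hφ
    have haa := ax_ax_mul x p u
    rw [← hφ] at haa
    have e1 : φ • ax x p ∈ eig F (ax x p) 1 := by
      change ax x p * (φ • ax x p) = (1 : F) • (φ • ax x p)
      rw [mul_smul_comm, ax_idem, one_smul]
    have e2 : x⁻¹ • (ax x p * u - φ • ax x p) ∈ eig F (ax x p) x := by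
      change ax x p * (x⁻¹ • (ax x p * u - φ • ax x p)) = x • (x⁻¹ • (ax x p * u - φ • ax x p))
      rw [mul_smul_comm, mul_sub, mul_smul_comm, ax_idem, haa, smul_comm x x⁻¹]
      congr 1
      abel
    have e3 : u - φ • ax x p - x⁻¹ • (ax x p * u - φ • ax x p) ∈ eig F (ax x p) 0 := by
      change ax x p * (u - φ • ax x p - x⁻¹ • (ax x p * u - φ • ax x p)) =
        (0 : F) • (u - φ • ax x p - x⁻¹ • (ax x p * u - φ • ax x p))
      rw [zero_smul, mul_sub, mul_sub, mul_smul_comm, mul_smul_comm, ax_idem, mul_sub,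
        mul_smul_comm, ax_idem, haa, add_sub_cancel_left, inv_smul_smul₀ hx0, sub_self]
    have e4 : u = φ • ax x p + x⁻¹ • (ax x p * u - φ • ax x p) +
        (u - φ • ax x p - x⁻¹ • (ax x p * u - φ • ax x p)) := by abel
    rw [e4]
    exact add_mem (add_mem (Submodule.mem_iSup_of_mem ⟨1, m1⟩ e1)
      (Submodule.mem_iSup_of_mem ⟨x, mx⟩ e2)) (Submodule.mem_iSup_of_mem ⟨0, m0⟩ e3)
  · have h01 : (0 : F) ≠ 1 := zero_ne_one
    have c1 : ∀ u ∈ eig F (ax x p) 1, ∃ c : F, u = c • ax x p := by
      intro u hu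
      rw [eig_one x hx1, Submodule.mem_span_singleton] at hu
      obtain ⟨c, rfl⟩ := hu
      exact ⟨c, rfl⟩
    -- the cases with a `1`
    have k1 : ∀ (m : F) u v, u ∈ eig F (ax x p) 1 → v ∈ eig F (ax x p) m →
        u * v ∈ eig F (ax x p) m := by
      intro m u v hu hv
      obtain ⟨c, rfl⟩ := c1 u hu
      rw [smul_mul_assoc]
      apply Submodule.smul_mem
      have hv' : ax x p * v = m • v := hv
      rw [hv']
      exact Submodule.smul_mem _ _ hv
    have k10 : ∀ u v, u ∈ eig F (ax x p) 1 → v ∈ eig F (ax x p) 0 → u * v = 0 := by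
      intro u v hu hv
      obtain ⟨c, rfl⟩ := c1 u hu
      have hv' : ax x p * v = (0 : F) • v := hv
      rw [smul_mul_assoc, hv', zero_smul, smul_zero]
    have k00 : ∀ u v, u ∈ eig F (ax x p) 0 → v ∈ eig F (ax x p) 0 →
        u * v ∈ eig F (ax x p) 0 := by
      intro u v hu hv
      change ax x p * u = (0 : F) • u at hu
      change ax x p * v = (0 : F) • v at hv
      change ax x p * (u * v) = (0 : F) • (u * v)
      rw [zero_smul] at *
      rw [ax_mul] at *
      have hz : (0 : AA F x) = inj x p.1 0 := by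
        refine Prod.ext (funext fun j => ?_) rfl
        change (0 : BB F) = (Pi.single p.1 (0 : BB F) : Bool → BB F) j
        simp
      rw [hz] at hu hv ⊢
      have hu' := inj_injective x p.1 hu
      have hv' := inj_injective x p.1 hv
      congr 1
      exact zero_zero x hx0 p.2 _ _ hu' hv'
    have k0x : ∀ u v, u ∈ eig F (ax x p) 0 → v ∈ eig F (ax x p) x →
        u * v ∈ eig F (ax x p) x := by
      intro u v hu hv
      rw [eig_x x hx0 hx1] at hv ⊢
      obtain ⟨w, rfl⟩ := hv
      change ax x p * u = (0 : F) • u at hu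
      rw [zero_smul, ax_mul] at hu
      have h6 : (u.1 p.1).2.1 6 = 0 := by
        have := congrArg (fun z : AA F x => (z.1 p.1).2.1 6) hu
        simp only [inj, Pi.single_eq_same, axB_mul] at this
        have h7 : pm (Pi.single p.2 1) (u.1 p.1).1 6 = 0 := rfl
        rw [h7, zero_add] at this
        exact (mul_eq_zero.mp this).resolve_left hx0
      refine ⟨(mulB x (u.1 p.1) ((0, w, 0) : BB F)).2.1, ?_⟩
      refine Prod.ext (funext fun j => ?_) ?_
      · change mulB x (u.1 j) ((Pi.single p.1 ((0, w, 0) : BB F) : Bool → BB F) j) =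
          (Pi.single p.1 ((0, (mulB x (u.1 p.1) ((0, w, 0) : BB F)).2.1, 0) : BB F) :
            Bool → BB F) j
        by_cases hj : j = p.1
        · subst hj
          rw [Pi.single_eq_same, Pi.single_eq_same]
          refine Prod.ext ?_ (Prod.ext rfl ?_)
          · funext i
            simp [mulB]
          · simp [mulB, h6]
        · rw [Pi.single_eq_of_ne hj, Pi.single_eq_of_ne hj, mulB_zero]
      · change (u.1 false).2.2 * ((Pi.single p.1 ((0, w, 0) : BB F) : Bool → BB F) true).2.2 +
          (u.1 true).2.2 * ((Pi.single p.1 ((0, w, 0) : BB F) : Bool → BB F) false).2.2 = 0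
        obtain ⟨s, i⟩ := p
        cases s <;> simp
    have kxx : ∀ u v, u ∈ eig F (ax x p) x → v ∈ eig F (ax x p) x →
        u * v ∈ eig F (ax x p) 0 ⊔ eig F (ax x p) x := by
      intro u v hu hv
      rw [eig_x x hx0 hx1] at hu hv
      obtain ⟨w, rfl⟩ := hu
      obtain ⟨z, rfl⟩ := hv
      have e : inj x p.1 ((0, w, 0) : BB F) * inj x p.1 ((0, z, 0) : BB F) =
          inj x p.1 ((0, 0, w 6 * z 6) : BB F) +
          inj x p.1 ((0, fun k => jmul x w z k, 0) : BB F) := by
        rw [← inj_add]
        refine Prod.ext (funext fun j => ?_) ?_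
        · change mulB x ((Pi.single p.1 ((0, w, 0) : BB F) : Bool → BB F) j)
            ((Pi.single p.1 ((0, z, 0) : BB F) : Bool → BB F) j) = (Pi.single p.1
            (((0, 0, w 6 * z 6) : BB F) + ((0, fun k => jmul x w z k, 0) : BB F)) :
              Bool → BB F) j
          by_cases hj : j = p.1
          · subst hj
            rw [Pi.single_eq_same, Pi.single_eq_same, Pi.single_eq_same]
            refine Prod.ext ?_ (Prod.ext (funext fun k => ?_) ?_)
            · funext i
              simp [mulB]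
            · have h1 : tr (0 : Fin 4 → F) = 0 := by simp [tr]
              have h2 : pm (0 : Fin 4 → F) 0 k = 0 := by
                have := pm_smul 0 (0 : Fin 4 → F) (0 : Fin 4 → F) k
                rwa [zero_smul, zero_mul] at this
              simp [mulB, h1, h2]
            · simp [mulB]
          · rw [Pi.single_eq_of_ne hj, Pi.single_eq_of_ne hj, Pi.single_eq_of_ne hj, mulB_zero]
        · change ((Pi.single p.1 ((0, w, 0) : BB F) : Bool → BB F) false).2.2 *
            ((Pi.single p.1 ((0, z, 0) : BB F) : Bool → BB F) true).2.2 +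
            ((Pi.single p.1 ((0, w, 0) : BB F) : Bool → BB F) true).2.2 *
            ((Pi.single p.1 ((0, z, 0) : BB F) : Bool → BB F) false).2.2 = 0
          obtain ⟨s, i⟩ := p
          cases s <;> simp
      rw [e]
      refine Submodule.add_mem_sup ?_ ?_
      · change ax x p * _ = (0 : F) • _
        rw [ax_mul, zero_smul]
        have h4 : (inj x p.1 ((0, 0, w 6 * z 6) : BB F)).1 p.1 = (0, 0, w 6 * z 6) := by
          simp [inj]
        rw [h4, axB_mul]
        refine Prod.ext (funext fun j => ?_) rfl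
        change (Pi.single p.1 _ : Bool → BB F) j = 0
        by_cases hj : j = p.1
        · subst hj
          rw [Pi.single_eq_same]
          refine Prod.ext ?_ (Prod.ext (funext fun k => ?_) rfl)
          · simp
          · have : pm (Pi.single p.2 1) (0 : Fin 4 → F) k = 0 := by
              have := pm_smul 0 (Pi.single p.2 (1 : F)) (0 : Fin 4 → F) k
              rwa [zero_smul, zero_mul] at this
            simp [this]
        · rw [Pi.single_eq_of_ne hj]
      · rw [eig_x x hx0 hx1]
        exact ⟨_, rfl⟩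
    intro l hl m hm u hu v hv
    have hsup : ∀ n, n ∈ (law x).star l m → ∀ w ∈ eig F (ax x p) n,
        w ∈ ⨆ n ∈ (law x).star l m, eig F (ax x p) n := fun n hn w hw =>
      Submodule.mem_iSup_of_mem n (Submodule.mem_iSup_of_mem hn hw)
    simp only [law, Set.mem_insert_iff, Set.mem_singleton_iff] at hl hm
    rcases hl with rfl | rfl | rfl
    · rcases hm with rfl | rfl | rfl
      · exact hsup 1 (by simp [law]) _ (k1 1 u v hu hv)
      · rw [k10 u v hu hv]; exact zero_mem _
      · exact hsup _ (by simp [law]) _ (k1 _ u v hu hv)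
    · rcases hm with rfl | rfl | rfl
      · rw [mul_comm, k10 v u hv hu]; exact zero_mem _
      · exact hsup 0 (by simp [law]) _ (k00 u v hu hv)
      · exact hsup _ (by simp [law]) _ (k0x u v hu hv)
    · rcases hm with rfl | rfl | rfl
      · rw [mul_comm]
        exact hsup _ (by simp [law]) _ (k1 _ v u hv hu)
      · rw [mul_comm]
        exact hsup _ (by simp [law]) _ (k0x v u hv hu)
      · have h := kxx u v hu hv
        rw [Submodule.mem_sup] at h
        obtain ⟨y, hy, z, hz, hyz⟩ := h
        rw [← hyz]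
        exact add_mem (hsup 0 (by simp [law]) _ hy) (hsup _ (by simp [law]) _ hz)

end alg

end Pool.Agent.H198R3.Axial
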