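import Mathlib

/-!
# A leading word criterion for ideals of algebras with a basis of words

`W : M →* R` lists the words, `cf w x` is the coefficient of the word `w` in `x`, `enc` is an
injective weight compatible with multiplication.  The relations `g i` have leading word `lw i`.
If any two elements `a * g i * b` with the same leading word are congruent modulo the span of
such elements with smaller leading word, then every nonzero element of the ideal spanned by the
`a * g i * b` involves some word `a * lw i * b`.
-/

namespace Pool.Agent.H198R3.Diamond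

open Submodule

variable {F R M ι : Type*} [Field F] [Ring R] [Algebra F R] [Monoid M] [DecidableEq M]

/-- The element `a g_i b`. -/
def E (W : M →* R) (g : ι → R) (a : M) (i : ι) (b : M) : R := W a * g i * W b

/-- The span of the words of weight smaller than `N`. -/
def wlt (F : Type*) {R M : Type*} [Field F] [Ring R] [Algebra F R] [Monoid M]
    (W : M →* R) (enc : M → ℕ) (N : ℕ) : Submodule F R :=
  span F {x | ∃ u, enc u < N ∧ x = W u}

/-- The span of the elements `a g_i b` whose leading word has weight smaller than `N`. -/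
def elt (F : Type*) {R M ι : Type*} [Field F] [Ring R] [Algebra F R] [Monoid M]
    (W : M →* R) (enc : M → ℕ) (lw : ι → M) (g : ι → R) (N : ℕ) : Submodule F R :=
  span F {x | ∃ a i b, enc (a * lw i * b) < N ∧ x = E W g a i b}

variable (W : M →* R) (cf : M → R →ₗ[F] F) (enc : M → ℕ) (lw : ι → M) (g : ι → R)

theorem wlt_mono {N N' : ℕ} (h : N ≤ N') : wlt F W enc N ≤ wlt F W enc N' := by
  apply span_mono
  rintro x ⟨u, hu, rfl⟩
  exact ⟨u, by omega, rfl⟩

theorem elt_mono {N N' : ℕ} (h : N ≤ N') : elt F W enc lw g N ≤ elt F W enc lw g N' := by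
  apply span_mono
  rintro x ⟨a, i, b, hu, rfl⟩
  exact ⟨a, i, b, by omega, rfl⟩

theorem mul_wlt (hmul : ∀ a b u v : M, enc u < enc v → enc (a * u * b) < enc (a * v * b))
    (a b v : M) {x : R} (hx : x ∈ wlt F W enc (enc v)) :
    W a * x * W b ∈ wlt F W enc (enc (a * v * b)) := by
  induction hx using span_induction with
  | mem x hx =>
    obtain ⟨u, hu, rfl⟩ := hx
    exact subset_span ⟨a * u * b, hmul _ _ _ _ hu, by simp [mul_assoc]⟩
  | zero => simp
  | add x y _ _ hx hy => rw [mul_add, add_mul]; exact add_mem hx hy
  | smul c x _ hx =>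
    rw [mul_smul_comm, smul_mul_assoc]
    exact smul_mem _ _ hx

theorem cf_wlt (hcf : ∀ u v, cf u (W v) = if u = v then 1 else 0) (w : M) {x : R}
    (hx : x ∈ wlt F W enc (enc w)) : cf w x = 0 := by
  induction hx using span_induction with
  | mem x hx =>
    obtain ⟨u, hu, rfl⟩ := hx
    rw [hcf, if_neg]
    rintro rfl
    omega
  | zero => simp
  | add x y _ _ hx hy => rw [map_add, hx, hy, add_zero]
  | smul c x _ hx => rw [map_smul, hx, smul_zero]

theorem E_sub (hmul : ∀ a b u v : M, enc u < enc v → enc (a * u * b) < enc (a * v * b))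
    (hg : ∀ i, g i - W (lw i) ∈ wlt F W enc (enc (lw i))) (a : M) (i : ι) (b : M) :
    E W g a i b - W (a * lw i * b) ∈ wlt F W enc (enc (a * lw i * b)) := by
  have := mul_wlt (F := F) W enc hmul a b (lw i) (hg i)
  convert this using 1
  simp [E, mul_sub, sub_mul, mul_assoc]

theorem elt_le_wlt (hmul : ∀ a b u v : M, enc u < enc v → enc (a * u * b) < enc (a * v * b))
    (hg : ∀ i, g i - W (lw i) ∈ wlt F W enc (enc (lw i))) (N : ℕ) :
    elt F W enc lw g N ≤ wlt F W enc N := by
  apply span_le.mpr
  rintro x ⟨a, i, b, h, rfl⟩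
  have h1 := wlt_mono (F := F) W enc h.le (E_sub (F := F) W enc lw g hmul hg a i b)
  have h2 : W (a * lw i * b) ∈ wlt F W enc N := subset_span ⟨_, h, rfl⟩
  have := add_mem h1 h2
  simpa using this

/-- The leading word criterion. -/
theorem main (hcf : ∀ u v, cf u (W v) = if u = v then 1 else 0)
    (hinj : Function.Injective enc)
    (hmul : ∀ a b u v : M, enc u < enc v → enc (a * u * b) < enc (a * v * b))
    (hg : ∀ i, g i - W (lw i) ∈ wlt F W enc (enc (lw i)))
    (hP : ∀ a i b a' j b', a * lw i * b = a' * lw j * b' →
      E W g a i b - E W g a' j b' ∈ elt F W enc lw g (enc (a * lw i * b)))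
    (N : ℕ) : ∀ x ∈ elt F W enc lw g N, x ≠ 0 → ∃ a i b, cf (a * lw i * b) x ≠ 0 := by
  induction N with
  | zero =>
    intro x hx h0
    exfalso
    apply h0
    have : elt F W enc lw g 0 = ⊥ := by
      rw [elt, span_eq_bot]
      rintro x ⟨a, i, b, h, -⟩
      omega
    rw [this] at hx
    exact (mem_bot F).mp hx
  | succ N ih =>
    intro x hx h0
    by_cases hN : ∃ a i b, enc (a * lw i * b) = N
    · obtain ⟨a0, i0, b0, h1⟩ := hN
      have key : ∃ c : F, ∃ z ∈ elt F W enc lw g N, x = c • E W g a0 i0 b0 + z := by
        clear h0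
        induction hx using span_induction with
        | mem x hx =>
          obtain ⟨a, i, b, h, rfl⟩ := hx
          rcases Nat.lt_succ_iff_lt_or_eq.mp h with h | h
          · exact ⟨0, _, subset_span ⟨a, i, b, h, rfl⟩, by simp⟩
          · refine ⟨1, E W g a i b - E W g a0 i0 b0, ?_, by simp⟩
            have h2 := hP a i b a0 i0 b0 (hinj (h.trans h1.symm))
            rw [h] at h2
            exact h2
        | zero => exact ⟨0, 0, zero_mem _, by simp⟩
        | add x y _ _ hx hy =>
          obtain ⟨c, z, hz, rfl⟩ := hx
          obtain ⟨c', z', hz', rfl⟩ := hy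
          exact ⟨c + c', z + z', add_mem hz hz', by rw [add_smul]; abel⟩
        | smul d x _ hx =>
          obtain ⟨c, z, hz, rfl⟩ := hx
          exact ⟨d * c, d • z, smul_mem _ _ hz, by rw [smul_add, smul_smul]⟩
      obtain ⟨c, z, hz, rfl⟩ := key
      have hz0 : cf (a0 * lw i0 * b0) z = 0 := by
        apply cf_wlt W cf enc hcf
        rw [h1]
        exact elt_le_wlt W enc lw g hmul hg N hz
      have hE : cf (a0 * lw i0 * b0) (E W g a0 i0 b0) = 1 := by
        have h3 := cf_wlt W cf enc hcf _ (E_sub (F := F) W enc lw g hmul hg a0 i0 b0)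
        rw [map_sub, hcf, if_pos rfl, sub_eq_zero] at h3
        exact h3
      by_cases hc : c = 0
      · subst hc
        rw [zero_smul, zero_add] at h0 ⊢
        exact ih z hz h0
      · refine ⟨a0, i0, b0, ?_⟩
        rw [map_add, map_smul, hz0, hE]
        simpa using hc
    · have : elt F W enc lw g (N + 1) ≤ elt F W enc lw g N := by
        apply span_mono
        rintro x ⟨a, i, b, h, rfl⟩
        refine ⟨a, i, b, ?_, rfl⟩
        have : enc (a * lw i * b) ≠ N := fun h' => hN ⟨a, i, b, h'⟩
        omega
      exact ih x (this hx) h0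

/-- Disjoint occurrences. -/
theorem disjoint_case
    (hmul : ∀ a b u v : M, enc u < enc v → enc (a * u * b) < enc (a * v * b))
    (hg : ∀ i, g i - W (lw i) ∈ wlt F W enc (enc (lw i))) (a c b : M) (i j : ι) :
    E W g a i (c * lw j * b) - E W g (a * lw i * c) j b ∈
      elt F W enc lw g (enc (a * lw i * c * lw j * b)) := by
  have h1 : W a * (g i - W (lw i)) * W c * g j * W b ∈
      elt F W enc lw g (enc (a * lw i * c * lw j * b)) := by
    generalize hp : g i - W (lw i) = p
    have hp' := hg i
    rw [hp] at hp'
    clear hp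
    induction hp' using span_induction with
    | mem x hx =>
      obtain ⟨u, hu, rfl⟩ := hx
      refine subset_span ⟨a * u * c, j, b, ?_, ?_⟩
      · have := hmul a (c * lw j * b) _ _ hu
        simpa [mul_assoc] using this
      · simp [E, mul_assoc]
    | zero => simp
    | add x y _ _ hx hy =>
      simp only [mul_add, add_mul]
      exact add_mem hx hy
    | smul c x _ hx =>
      simp only [mul_smul_comm, smul_mul_assoc]
      exact smul_mem _ _ hx
  have h2 : W a * g i * W c * (g j - W (lw j)) * W b ∈
      elt F W enc lw g (enc (a * lw i * c * lw j * b)) := by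
    generalize hp : g j - W (lw j) = p
    have hp' := hg j
    rw [hp] at hp'
    clear hp
    induction hp' using span_induction with
    | mem x hx =>
      obtain ⟨u, hu, rfl⟩ := hx
      refine subset_span ⟨a, i, c * u * b, ?_, ?_⟩
      · have := hmul (a * lw i * c) b _ _ hu
        simpa [mul_assoc] using this
      · simp [E, mul_assoc]
    | zero => simp
    | add x y _ _ hx hy =>
      simp only [mul_add, add_mul]
      exact add_mem hx hy
    | smul c x _ hx =>
      simp only [mul_smul_comm, smul_mul_assoc]
      exact smul_mem _ _ hx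
  have := sub_mem h1 h2
  convert this using 1
  simp only [E, map_mul]
  noncomm_ring

/-- Multiplication of `elt` by words. -/
theorem mul_elt (hmul : ∀ a b u v : M, enc u < enc v → enc (a * u * b) < enc (a * v * b))
    (a b v : M) {x : R} (hx : x ∈ elt F W enc lw g (enc v)) :
    W a * x * W b ∈ elt F W enc lw g (enc (a * v * b)) := by
  induction hx using span_induction with
  | mem x hx =>
    obtain ⟨c, i, d, hu, rfl⟩ := hx
    refine subset_span ⟨a * c, i, d * b, ?_, by simp [E, mul_assoc]⟩
    have := hmul a b _ _ hu
    simpa [mul_assoc] using this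
  | zero => simp
  | add x y _ _ hx hy => rw [mul_add, add_mul]; exact add_mem hx hy
  | smul c x _ hx =>
    rw [mul_smul_comm, smul_mul_assoc]
    exact smul_mem _ _ hx

end Pool.Agent.H198R3.Diamond
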