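import Mathlib

set_option autoImplicit false

namespace Pool.Agent.H198R3.Engel3

variable {F : Type*} [Field F]

/-- derivative of a sequence of divided power coefficients -/
def dd (a : ℕ → F) : ℕ → F := fun n => a (n + 1)

/-- Hurwitz product, by the Leibniz rule. -/
def hm : ℕ → (ℕ → F) → (ℕ → F) → F
  | 0, a, b => a 0 * b 0
  | n + 1, a, b => hm n (dd a) b + hm n a (dd b)

theorem hm_comm (n : ℕ) : ∀ a b : ℕ → F, hm n a b = hm n b a := by
  induction n with
  | zero => intro a b; simp [hm, mul_comm]
  | succ n ih => intro a b; simp only [hm]; rw [ih (dd a) b, ih a (dd b), add_comm]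

theorem hm_add (n : ℕ) : ∀ a b c : ℕ → F, hm n a (b + c) = hm n a b + hm n a c := by
  induction n with
  | zero => intro a b c; simp [hm, mul_add]
  | succ n ih =>
    intro a b c
    have h : dd (b + c) = dd b + dd c := rfl
    simp only [hm, h, ih]; ring

theorem hm_smul (n : ℕ) : ∀ (r : F) (a b : ℕ → F), hm n (r • a) b = r * hm n a b := by
  induction n with
  | zero => intro r a b; simp [hm, mul_assoc]
  | succ n ih =>
    intro r a b
    have h : dd (r • a) = r • dd a := rfl
    simp only [hm, h, ih]; ring

/-- product as sequence -/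
def hp (a b : ℕ → F) : ℕ → F := fun n => hm n a b

theorem dd_hp (a b : ℕ → F) : dd (hp a b) = hp (dd a) b + hp a (dd b) := rfl

theorem hp_comm (a b : ℕ → F) : hp a b = hp b a := funext fun n => hm_comm n a b

theorem hp_add (a b c : ℕ → F) : hp a (b + c) = hp a b + hp a c :=
  funext fun n => hm_add n a b c

theorem add_hp (a b c : ℕ → F) : hp (a + b) c = hp a c + hp b c := by
  rw [hp_comm, hp_add, hp_comm c a, hp_comm c b]

theorem hp_assoc_aux (n : ℕ) : ∀ a b c : ℕ → F, hp (hp a b) c n = hp a (hp b c) n := by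
  induction n with
  | zero => intro a b c; simp [hp, hm, mul_assoc]
  | succ n ih =>
    intro a b c
    have h1 : hp (hp a b) c (n + 1) = dd (hp (hp a b) c) n := rfl
    have h2 : hp a (hp b c) (n + 1) = dd (hp a (hp b c)) n := rfl
    rw [h1, h2, dd_hp, dd_hp, dd_hp, dd_hp, add_hp, hp_add]
    simp only [Pi.add_apply, ih]
    ring

theorem hp_assoc (a b c : ℕ → F) : hp (hp a b) c = hp a (hp b c) :=
  funext fun n => hp_assoc_aux n a b c

/-- the unit sequence -/
def e0 : ℕ → F := fun n => if n = 0 then 1 else 0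

theorem dd_e0 : dd (e0 : ℕ → F) = 0 := by
  funext n; simp [dd, e0]

theorem zero_hp (a : ℕ → F) : hp 0 a = 0 := by
  have h := hp_add a 0 0
  rw [add_zero] at h
  have h2 : hp a 0 = 0 := by simpa using h
  rw [hp_comm, h2]

theorem e0_hp (a : ℕ → F) : hp e0 a = a := by
  funext n
  induction n generalizing a with
  | zero => simp [hp, hm, e0]
  | succ n ih =>
    have h1 : hp e0 a (n + 1) = dd (hp e0 a) n := rfl
    rw [h1, dd_hp, dd_e0, zero_hp, zero_add]
    exact ih (dd a)

/-- integration -/
def ii (a : ℕ → F) : ℕ → F := fun n => match n with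
  | 0 => 0
  | n + 1 => a n

theorem dd_ii (a : ℕ → F) : dd (ii a) = a := rfl

theorem ext_dd {a b : ℕ → F} (h0 : a 0 = b 0) (h : dd a = dd b) : a = b := by
  funext n
  cases n with
  | zero => exact h0
  | succ n => exact congrFun h n

/-- The commutative ring of divided power series in one variable over `F`:
sequences with the Hurwitz product. -/
def Hur (F : Type*) : Type _ := ℕ → F

instance : AddCommGroup (Hur F) := inferInstanceAs (AddCommGroup (ℕ → F))

instance : Module F (Hur F) := inferInstanceAs (Module F (ℕ → F))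

instance : Mul (Hur F) := ⟨fun a b => hp a b⟩

instance : One (Hur F) := ⟨e0⟩

instance : CommRing (Hur F) :=
  { (inferInstance : AddCommGroup (Hur F)) with
    mul := (· * ·)
    one := 1
    left_distrib := fun a b c => hp_add a b c
    right_distrib := fun a b c => add_hp a b c
    zero_mul := fun a => zero_hp a
    mul_zero := fun a => (hp_comm a 0).trans (zero_hp a)
    mul_assoc := fun a b c => hp_assoc a b c
    mul_comm := fun a b => hp_comm a b
    one_mul := fun a => e0_hp a
    mul_one := fun a => (hp_comm a e0).trans (e0_hp a) }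

theorem Hur.smul_mul (r : F) (a b : Hur F) : (r • a) * b = r • (a * b) :=
  funext fun n => hm_smul n r a b

theorem Hur.mul_smul (r : F) (a b : Hur F) : a * (r • b) = r • (a * b) := by
  rw [mul_comm, Hur.smul_mul, mul_comm]

/-- Derivative. -/
def D (a : Hur F) : Hur F := dd a

/-- Integration. -/
def I (a : Hur F) : Hur F := ii a

/-- Constant term. -/
def ev (a : Hur F) : F := (a : ℕ → F) 0

theorem D_add (a b : Hur F) : D (a + b) = D a + D b := rfl
theorem D_sub (a b : Hur F) : D (a - b) = D a - D b := rfl
theorem D_neg (a : Hur F) : D (-a) = -D a := rfl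
theorem D_mul (a b : Hur F) : D (a * b) = D a * b + a * D b := rfl
theorem D_I (a : Hur F) : D (I a) = a := rfl
theorem D_zero : D (0 : Hur F) = 0 := rfl
theorem ev_add (a b : Hur F) : ev (a + b) = ev a + ev b := rfl
theorem ev_sub (a b : Hur F) : ev (a - b) = ev a - ev b := rfl
theorem ev_mul (a b : Hur F) : ev (a * b) = ev a * ev b := rfl
theorem ev_I (a : Hur F) : ev (I a) = 0 := rfl
theorem ev_zero : ev (0 : Hur F) = 0 := rfl

theorem Hur.ext' {a b : Hur F} (h0 : ev a = ev b) (h : D a = D b) : a = b := ext_dd h0 h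

theorem I_add (a b : Hur F) : I (a + b) = I a + I b :=
  Hur.ext' (by simp [ev_add, ev_I]) (by simp [D_add, D_I])

theorem I_zero : I (0 : Hur F) = 0 := Hur.ext' (by simp [ev_I, ev_zero]) (by simp [D_I, D_zero])

theorem I_smul (r : F) (a : Hur F) : I (r • a) = r • I a := by
  refine Hur.ext' ?_ ?_
  · change (0 : F) = r * 0
    simp
  · rfl

theorem three (h3 : (3 : F) = 0) (a : Hur F) : 3 * a = 0 := by
  have h : (3 : Hur F) * a = (3 : F) • a := by
    have : (3 : Hur F) = 1 + 1 + 1 := by norm_num
    rw [this, add_mul, add_mul, one_mul]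
    have h2 : (3 : F) = 1 + 1 + 1 := by norm_num
    rw [h2, add_smul, add_smul, one_smul]
  rw [h, h3, zero_smul]

/-- cubes of integrals vanish in characteristic three -/
theorem I_cube (h3 : (3 : F) = 0) (w : Hur F) : I w ^ 3 = 0 := by
  refine Hur.ext' ?_ ?_
  · rw [pow_succ, ev_mul, ev_I, mul_zero, ev_zero]
  · have : D (I w ^ 3) = 3 * (w * I w ^ 2) := by
      have e : I w ^ 3 = I w * I w * I w := by ring
      rw [e, D_mul, D_mul, D_I]; ring
    rw [this, three h3, D_zero]

end Pool.Agent.H198R3.Engel3
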