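import Pool.Agent.H198R3.Engel3

set_option autoImplicit false

namespace Pool.Agent.H198R3.Engel3

/-- The algebra: triples `(x, y, z)` of divided power series, read as `x_f + y_g + z_u`. -/
@[ext] structure Bal (F : Type*) where
  /-- first component -/
  x : Hur F
  /-- second component -/
  y : Hur F
  /-- third component -/
  z : Hur F

variable {F : Type*} [Field F]

/-- identification with a product, used to define the additive structure -/
def eqv (F : Type*) : Bal F ≃ Hur F × Hur F × Hur F where
  toFun a := (a.x, a.y, a.z)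
  invFun a := ⟨a.1, a.2.1, a.2.2⟩
  left_inv _ := rfl
  right_inv _ := rfl

instance : AddCommGroup (Bal F) := (eqv F).addCommGroup

instance : Module F (Bal F) := (eqv F).module F

theorem add_x (a b : Bal F) : (a + b).x = a.x + b.x := rfl
theorem add_y (a b : Bal F) : (a + b).y = a.y + b.y := rfl
theorem add_z (a b : Bal F) : (a + b).z = a.z + b.z := rfl
theorem zero_x : (0 : Bal F).x = 0 := rfl
theorem zero_y : (0 : Bal F).y = 0 := rfl
theorem zero_z : (0 : Bal F).z = 0 := rfl
theorem smul_x (r : F) (a : Bal F) : (r • a).x = r • a.x := rfl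
theorem smul_y (r : F) (a : Bal F) : (r • a).y = r • a.y := rfl
theorem smul_z (r : F) (a : Bal F) : (r • a).z = r • a.z := rfl

/-- product: `x_f y_h = z_(fh)`, `z_u x_f = x_(I(u) f)`, `z_u y_f = y_(I(u) f)`,
`z_u z_w = z_(w I(u) - u I(w))` -/
instance : Mul (Bal F) := ⟨fun a b =>
  ⟨I a.z * b.x - I b.z * a.x, I a.z * b.y - I b.z * a.y,
    a.x * b.y - a.y * b.x + (b.z * I a.z - a.z * I b.z)⟩⟩

theorem mul_x (a b : Bal F) : (a * b).x = I a.z * b.x - I b.z * a.x := rfl
theorem mul_y (a b : Bal F) : (a * b).y = I a.z * b.y - I b.z * a.y := rfl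
theorem mul_z (a b : Bal F) : (a * b).z =
    a.x * b.y - a.y * b.x + (b.z * I a.z - a.z * I b.z) := rfl

instance : NonUnitalNonAssocRing (Bal F) :=
  { (inferInstance : AddCommGroup (Bal F)) with
    mul := (· * ·)
    left_distrib := fun a b c => by
      ext1 <;> simp only [add_x, add_y, add_z, mul_x, mul_y, mul_z, I_add] <;> ring
    right_distrib := fun a b c => by
      ext1 <;> simp only [add_x, add_y, add_z, mul_x, mul_y, mul_z, I_add] <;> ring
    zero_mul := fun a => by
      ext1 <;> simp only [zero_x, zero_y, zero_z, mul_x, mul_y, mul_z, I_zero] <;> ring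
    mul_zero := fun a => by
      ext1 <;> simp only [zero_x, zero_y, zero_z, mul_x, mul_y, mul_z, I_zero] <;> ring }

instance : IsScalarTower F (Bal F) (Bal F) := ⟨fun r a b => by
  change (r • a) * b = r • (a * b)
  ext1 <;> simp only [mul_x, mul_y, mul_z, smul_x, smul_y, smul_z, I_smul, Hur.smul_mul,
    Hur.mul_smul, smul_sub, smul_add]⟩

instance : SMulCommClass F (Bal F) (Bal F) := ⟨fun r a b => by
  change r • (a * b) = a * (r • b)
  ext1 <;> simp only [mul_x, mul_y, mul_z, smul_x, smul_y, smul_z, I_smul, Hur.smul_mul,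
    Hur.mul_smul, smul_sub, smul_add]⟩

theorem bmul_self (a : Bal F) : a * a = 0 := by
  ext1 <;> simp only [zero_x, zero_y, zero_z, mul_x, mul_y, mul_z] <;> ring

/-- the key relation: with `U = I u`, `W = I w` and `U1`, `U2` the next iterates -/
theorem key (h3 : (3 : F) = 0) (h u w : Hur F) :
    I (-(I w * h) + (w * I (h + (w * I u - u * I w)) - (h + (w * I u - u * I w)) * I w))
      = I w * I (h + (w * I u - u * I w)) - I w ^ 2 * I u := by
  refine Hur.ext' ?_ ?_
  · simp only [ev_I, ev_sub, ev_mul, pow_two]; ring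
  · have e : I w ^ 2 = I w * I w := pow_two _
    simp only [D_I, D_sub, D_mul, e]
    have t := three h3 (u * I w * I w - h * I w)
    linear_combination t

/-- The algebra is 3-Engel in characteristic three. -/
theorem engel (h3 : (3 : F) = 0) (a b : Bal F) : ((a * b) * b) * b = 0 := by
  have hc := I_cube h3 b.z
  have k := key h3 (a.x * b.y - a.y * b.x) a.z b.z
  have e1 : ((a * b) * b).z =
    -(I b.z * (a.x * b.y - a.y * b.x)) +
      (b.z * I ((a.x * b.y - a.y * b.x) + (b.z * I a.z - a.z * I b.z)) -
        ((a.x * b.y - a.y * b.x) + (b.z * I a.z - a.z * I b.z)) * I b.z) := by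
    simp only [mul_x, mul_y, mul_z]; ring
  have e2 : I ((a * b) * b).z =
      I b.z * I ((a.x * b.y - a.y * b.x) + (b.z * I a.z - a.z * I b.z)) -
        I b.z ^ 2 * I a.z := by rw [e1]; exact k
  ext1
  · rw [mul_x, e2]
    simp only [mul_x, mul_z, zero_x]
    linear_combination (-a.x) * hc
  · rw [mul_y, e2]
    simp only [mul_y, mul_z, zero_y]
    linear_combination (-a.y) * hc
  · rw [mul_z, e2, e1]
    simp only [mul_x, mul_y, mul_z, zero_z]
    have t := three h3 (a.x * b.y * I b.z ^ 2 - a.y * b.x * I b.z ^ 2)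
    linear_combination (-a.z) * hc + t

end Pool.Agent.H198R3.Engel3
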