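import Mathlib

set_option autoImplicit false

namespace Pool.Agent.H198R3.Form

open Subgroup

/-- A class of groups (all groups live in `Type`). -/
abbrev GroupClass : Type 1 := ∀ (G : Type) [Group G], Prop

/-- A formation of finite groups: a class of finite groups, closed under isomorphism, under
quotients, and such that `G ⧸ N₁, G ⧸ N₂ ∈ F` implies `G ⧸ (N₁ ⊓ N₂) ∈ F` (`G` finite). -/
structure IsFormation (F : GroupClass) : Prop where
  finite : ∀ (G : Type) [Group G], F G → Finite G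
  iso : ∀ (G H : Type) [Group G] [Group H], (G ≃* H) → F G → F H
  quot : ∀ (G : Type) [Group G] (N : Subgroup G) [N.Normal], F G → F (G ⧸ N)
  subdirect : ∀ (G : Type) [Group G] [Finite G] (N₁ N₂ : Subgroup G) [N₁.Normal] [N₂.Normal],
    F (G ⧸ N₁) → F (G ⧸ N₂) → F (G ⧸ (N₁ ⊓ N₂))

/-- `S_n`-closed: closed under taking normal subgroups. -/
def SnClosed (F : GroupClass) : Prop :=
  ∀ (G : Type) [Group G] (N : Subgroup G), N.Normal → F G → F N

/-- Every subformation of `F` is `S_n`-closed. -/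
def AllSubSnClosed (F : GroupClass) : Prop :=
  ∀ H : GroupClass, IsFormation H → (∀ (G : Type) [Group G], H G → F G) → SnClosed H

variable {F : GroupClass}

theorem IsFormation.of_surj (hF : IsFormation F) {G H : Type} [Group G] [Group H] (f : G →* H)
    (hf : Function.Surjective f) (hG : F G) : F H :=
  hF.iso _ _ (QuotientGroup.quotientKerEquivOfSurjective f hf) (hF.quot G f.ker hG)

theorem IsFormation.to_quot (hF : IsFormation F) {G H : Type} [Group G] [Group H] (f : G →* H)
    (hf : Function.Surjective f) (hH : F H) : F (G ⧸ f.ker) :=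
  hF.iso _ _ (QuotientGroup.quotientKerEquivOfSurjective f hf).symm hH

theorem IsFormation.of_subdirect (hF : IsFormation F) {D G H : Type} [Group D] [Finite D]
    [Group G] [Group H] (f : D →* G) (g : D →* H) (hf : Function.Surjective f)
    (hg : Function.Surjective g) (hG : F G) (hH : F H) (hk : f.ker ⊓ g.ker = ⊥) : F D := by
  have h := hF.subdirect D f.ker g.ker (hF.to_quot f hf hG) (hF.to_quot g hg hH)
  have e : D ⧸ (f.ker ⊓ g.ker) ≃* D :=
    (QuotientGroup.quotientMulEquivOfEq hk).trans QuotientGroup.quotientBot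
  exact hF.iso _ _ e h

/-! ### The formation of groups of `F` without central chief factor of order `p` -/

/-- no quotient of `H` has a central element of order `p`. -/
def NoCentral (F : GroupClass) (p : ℕ) : GroupClass := fun H _ =>
  F H ∧ ∀ (N : Subgroup H), N.Normal → ∀ z : H, z ^ p ∈ N → (∀ h : H, z * h * z⁻¹ * h⁻¹ ∈ N) → z ∈ N

theorem noCentral_isFormation (hF : IsFormation F) (p : ℕ) : IsFormation (NoCentral F p) := by
  refine ⟨fun G _ h => hF.finite G h.1, ?_, ?_, ?_⟩
  · intro G H _ _ e h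
    refine ⟨hF.iso G H e h.1, fun N hN z hz hc => ?_⟩
    have := h.2 (N.comap e.toMonoidHom) (hN.comap _) (e.symm z) (by
      show e (e.symm z ^ p) ∈ N
      rw [map_pow, MulEquiv.apply_symm_apply]; exact hz) (by
      intro h'
      show e (e.symm z * h' * (e.symm z)⁻¹ * h'⁻¹) ∈ N
      simp only [map_mul, map_inv, MulEquiv.apply_symm_apply]; exact hc _)
    have h2 : e (e.symm z) ∈ N := this
    rwa [MulEquiv.apply_symm_apply] at h2
  · intro G _ N hN h
    refine ⟨hF.quot G N h.1, fun M hM z hz hc => ?_⟩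
    obtain ⟨z, rfl⟩ := QuotientGroup.mk'_surjective N z
    have := h.2 (M.comap (QuotientGroup.mk' N)) (hM.comap _) z (by
      show QuotientGroup.mk' N (z ^ p) ∈ M
      rw [map_pow]; exact hz) (by
      intro h'
      show QuotientGroup.mk' N (z * h' * z⁻¹ * h'⁻¹) ∈ M
      simp only [map_mul, map_inv]; exact hc _)
    exact this
  · intro G _ _ N₁ N₂ hN₁ hN₂ h₁ h₂
    refine ⟨hF.subdirect G N₁ N₂ h₁.1 h₂.1, fun M' hM' z hz hc => ?_⟩
    obtain ⟨z, rfl⟩ := QuotientGroup.mk'_surjective (N₁ ⊓ N₂) z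
    set M : Subgroup G := M'.comap (QuotientGroup.mk' (N₁ ⊓ N₂)) with hMdef
    have hM : M.Normal := hM'.comap _
    have hle : N₁ ⊓ N₂ ≤ M := by
      intro x hx
      show QuotientGroup.mk' (N₁ ⊓ N₂) x ∈ M'
      have h1 : QuotientGroup.mk' (N₁ ⊓ N₂) x = 1 := (QuotientGroup.eq_one_iff x).2 hx
      rw [h1]
      exact M'.one_mem
    have hz' : z ^ p ∈ M := by
      show QuotientGroup.mk' (N₁ ⊓ N₂) (z ^ p) ∈ M'
      rw [map_pow]; exact hz
    have hc' : ∀ h : G, z * h * z⁻¹ * h⁻¹ ∈ M := by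
      intro h
      show QuotientGroup.mk' (N₁ ⊓ N₂) (z * h * z⁻¹ * h⁻¹) ∈ M'
      simp only [map_mul, map_inv]; exact hc _
    show z ∈ M
    -- a general statement for quotient groups
    have key : ∀ (N : Subgroup G) [N.Normal], NoCentral F p (G ⧸ N) → ∀ (K : Subgroup G),
        K.Normal → ∀ w : G, w ^ p ∈ K ⊔ N → (∀ h : G, w * h * w⁻¹ * h⁻¹ ∈ K ⊔ N) → w ∈ K ⊔ N := by
      intro N _ hN K hK w hw hwc
      have hm : ∀ x : G, QuotientGroup.mk' N x ∈ K.map (QuotientGroup.mk' N) ↔ x ∈ K ⊔ N := by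
        intro x
        have : (K.map (QuotientGroup.mk' N)).comap (QuotientGroup.mk' N) = K ⊔ N := by
          rw [Subgroup.comap_map_eq, QuotientGroup.ker_mk']
        rw [← this]; rfl
      have := hN.2 (K.map (QuotientGroup.mk' N)) (hK.map _ (QuotientGroup.mk'_surjective N))
        (QuotientGroup.mk' N w) (by rw [← map_pow, hm]; exact hw) (by
          intro h
          obtain ⟨h, rfl⟩ := QuotientGroup.mk'_surjective N h
          rw [← map_mul, ← map_inv, ← map_mul, ← map_inv, ← map_mul, hm]; exact hwc h)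
      exact (hm w).1 this
    have h1 : z ∈ M ⊔ N₁ := key N₁ h₁ M hM z (le_sup_left (a := M) hz')
      (fun h => le_sup_left (a := M) (hc' h))
    obtain ⟨m, hm, n, hn, rfl⟩ := Subgroup.mem_sup_of_normal_right.1 h1
    have hm1 : QuotientGroup.mk' M m = 1 := (QuotientGroup.eq_one_iff m).2 hm
    -- n satisfies the same
    have hnp : n ^ p ∈ M := by
      have : QuotientGroup.mk' M ((m * n) ^ p) = QuotientGroup.mk' M (n ^ p) := by
        simp only [map_pow, map_mul, hm1, one_mul]
      rw [← QuotientGroup.eq_one_iff] at hz' ⊢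
      exact this.symm.trans hz'
    have hnc : ∀ h : G, (n * h * n⁻¹ * h⁻¹) ∈ M := by
      intro h
      have : QuotientGroup.mk' M ((m * n) * h * (m * n)⁻¹ * h⁻¹) = QuotientGroup.mk' M (n * h * n⁻¹ * h⁻¹) := by
        simp only [map_mul, map_inv, hm1, one_mul]
      have h3 := hc' h
      rw [← QuotientGroup.eq_one_iff] at h3 ⊢
      exact this.symm.trans h3
    have h2 : n ∈ (M ⊓ N₁) ⊔ N₂ := by
      have hnorm : (M ⊓ N₁).Normal := inferInstance
      refine key N₂ h₂ (M ⊓ N₁) hnorm n (le_sup_left (a := M ⊓ N₁) ⟨hnp, N₁.pow_mem hn p⟩) ?_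
      intro h
      refine le_sup_left (a := M ⊓ N₁) ⟨hnc h, ?_⟩
      have : n * h * n⁻¹ * h⁻¹ = n * (h * n⁻¹ * h⁻¹) := by group
      rw [this]
      exact N₁.mul_mem hn (hN₁.conj_mem _ (N₁.inv_mem hn) h)
    obtain ⟨a, ha, b, hb, hab⟩ := Subgroup.mem_sup_of_normal_right.1 h2
    have hb1 : b ∈ N₁ := by
      have : b = a⁻¹ * n := by rw [← hab]; group
      rw [this]; exact N₁.mul_mem (N₁.inv_mem ha.2) hn
    have hbM : b ∈ M := hle ⟨hb1, hb⟩
    have hnM : n ∈ M := by rw [← hab]; exact M.mul_mem ha.1 hbM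
    exact M.mul_mem hm hnM

end Pool.Agent.H198R3.Form
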