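import Pool.Agent.H198R3.Form9

set_option autoImplicit false

namespace Pool.Agent.H198R3.Form

open Subgroup

variable {F : GroupClass}

theorem NoAb.perfect {X : Type} [Group X] (h : NoAb X) : commutator X = ⊤ := by
  rw [eq_top_iff]
  exact h (commutator X) ⊤ inferInstance inferInstance (fun a _ b _ =>
    Subgroup.commutator_mem_commutator (Subgroup.mem_top a) (Subgroup.mem_top b))

theorem subsingleton_of {X : Type} [Group X] (h : NoAb X) (hs : Group.IsSolvable X) :
    Subsingleton X := by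
  by_contra hnt
  rw [not_subsingleton_iff_nontrivial] at hnt
  exact (Group.IsSolvable.commutator_lt_top_of_nontrivial X).ne h.perfect

open scoped commutatorElement in
theorem perfect_iff_comm {G : Type} [Group G] (E : Subgroup G) :
    commutator E = ⊤ ↔ ⁅E, E⁆ = E := by
  rw [← Subgroup.map_subtype_commutator]
  constructor
  · intro h
    rw [h, ← MonoidHom.range_eq_map, Subgroup.range_subtype]
  · intro h
    rw [eq_top_iff]
    intro x _
    have h2 : (x : G) ∈ (commutator E).map E.subtype := by rw [h]; exact x.2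
    obtain ⟨y, hy, hxy⟩ := h2
    have : y = x := Subtype.ext hxy
    rw [← this]; exact hy

/-- the soluble residual -/
theorem exists_solres (G : Type) [Group G] [Finite G] : ∃ E : Subgroup G, E.Characteristic ∧
    (∃ _ : E.Normal, Group.IsSolvable (G ⧸ E)) ∧ commutator E = ⊤ ∧
    ∀ P : Subgroup G, commutator P = ⊤ → P ≤ E := by
  obtain ⟨n, hn⟩ := WellFoundedLT.antitone_chain_condition (derivedSeries_antitone G)
  have hEn : (derivedSeries G n).Normal := derivedSeries_normal G n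
  refine ⟨derivedSeries G n, inferInstance, ⟨hEn, ⟨n, ?_⟩⟩, ?_, ?_⟩
  · rw [← map_derivedSeries_eq (QuotientGroup.mk'_surjective (derivedSeries G n)),
      Subgroup.map_eq_bot_iff, QuotientGroup.ker_mk']
  · rw [perfect_iff_comm]
    exact (hn (n + 1) (Nat.le_succ n)).symm
  · intro P hP
    rw [perfect_iff_comm] at hP
    clear hn hEn
    induction n with
    | zero => exact le_top
    | succ n ih =>
      rw [← hP, derivedSeries_succ]
      exact Subgroup.commutator_mono ih ih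

open scoped commutatorElement in
/-- perfect subgroups centralise the upper central series -/
theorem perfect_comm_ucs {G : Type} [Group G] (E : Subgroup G) (hE : commutator E = ⊤) (m : ℕ) :
    ⁅E, Subgroup.upperCentralSeries G m⁆ = ⊥ := by
  rw [perfect_iff_comm] at hE
  induction m with
  | zero =>
    rw [Subgroup.upperCentralSeries_zero, Subgroup.commutator_bot_right]
  | succ m ih =>
    have h1 : ⁅E, Subgroup.upperCentralSeries G (m + 1)⁆ ≤ Subgroup.upperCentralSeries G m := by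
      rw [Subgroup.commutator_comm]
      exact (Subgroup.commutator_mono le_rfl le_top).trans
        (Subgroup.commutator_upperCentralSeries_top_le G m)
    have h2 : ⁅⁅E, Subgroup.upperCentralSeries G (m + 1)⁆, E⁆ = ⊥ := by
      rw [eq_bot_iff]
      refine (Subgroup.commutator_mono h1 (le_refl E)).trans ?_
      rw [Subgroup.commutator_comm, ih]
    have h3 : ⁅⁅Subgroup.upperCentralSeries G (m + 1), E⁆, E⁆ = ⊥ := by
      rw [Subgroup.commutator_comm (Subgroup.upperCentralSeries G (m + 1))]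
      exact h2
    have h4 := Subgroup.commutator_commutator_eq_bot_of_rotate
      (H₁ := E) (H₂ := E) (H₃ := Subgroup.upperCentralSeries G (m + 1)) h2 h3
    rwa [hE] at h4

open scoped commutatorElement in
theorem ucs_nilpotent {G : Type} [Group G] (m : ℕ) :
    Group.IsNilpotent (Subgroup.upperCentralSeries G m) := by
  rw [Subgroup.isNilpotent_iff_lowerCentralSeries]
  refine ⟨m, ?_⟩
  have key : ∀ i j, i + j = m →
      (Subgroup.upperCentralSeries G m).lowerCentralSeries i ≤ Subgroup.upperCentralSeries G j := by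
    intro i
    induction i with
    | zero =>
      intro j hj
      rw [zero_add] at hj
      rw [hj]; exact le_rfl
    | succ i ih =>
      intro j hj
      rw [Subgroup.lowerCentralSeries_succ]
      exact (Subgroup.commutator_mono (ih (j + 1) (by omega)) le_top).trans
        (Subgroup.commutator_upperCentralSeries_top_le G j)
  have := key m 0 (by omega)
  rwa [Subgroup.upperCentralSeries_zero, le_bot_iff] at this

/-- If `G ∈ H` is a product of commuting normal subgroups `E`, `Z` with `Z` nilpotent, then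
`Z ∈ H`. -/
theorem mem_Z {H : GroupClass} (hH : IsFormation H) {G : Type} [Group G] (hG : H G)
    (E Z : Subgroup G) (hE : E.Normal) (hZ : Z.Normal)
    (hc : ∀ e ∈ E, ∀ z ∈ Z, e * z = z * e) (hEZ : ∀ g : G, ∃ e ∈ E, ∃ z ∈ Z, e * z = g)
    (hnil : Group.IsNilpotent Z) : H Z := by
  have hfin : Finite G := hH.finite G hG
  set Δ : Subgroup (DD Z) := E.map (dg Z) with hΔ
  have hmemΔ : ∀ x : DD Z, x ∈ Δ ↔ x.1.1 = x.1.2 ∧ x.1.1 ∈ E := by
    intro x
    constructor
    · rintro ⟨c, hc, rfl⟩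
      exact ⟨rfl, hc⟩
    · rintro ⟨h1, h2⟩
      exact ⟨x.1.1, h2, Subtype.ext (Prod.ext rfl h1)⟩
  have hΔn : Δ.Normal := by
    constructor
    intro x hx d
    rw [hmemΔ] at hx ⊢
    obtain ⟨h1, h2⟩ := hx
    have hd := (mem_DD Z _).1 d.2
    show d.1.1 * x.1.1 * d.1.1⁻¹ = d.1.2 * x.1.2 * d.1.2⁻¹ ∧ d.1.1 * x.1.1 * d.1.1⁻¹ ∈ E
    refine ⟨?_, hE.conj_mem _ h2 _⟩
    rw [← h1]
    have h3 : d.1.2 * x.1.1 * d.1.2⁻¹ ∈ E := hE.conj_mem _ h2 _
    have h4 := (hc _ h3 _ hd).symm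
    calc d.1.1 * x.1.1 * d.1.1⁻¹
        = (d.1.1 * d.1.2⁻¹) * (d.1.2 * x.1.1 * d.1.2⁻¹) * (d.1.1 * d.1.2⁻¹)⁻¹ := by group
      _ = d.1.2 * x.1.1 * d.1.2⁻¹ := by rw [h4]; group
  have hY : H (DD Z ⧸ Δ) := hH.quot _ Δ (DD_mem Z hH hG)
  let ψ₀ : Z × Z →* DD Z :=
    { toFun := fun x => ⟨(x.1, x.2), by
        rw [mem_DD]; exact Z.mul_mem x.1.2 (Z.inv_mem x.2.2)⟩
      map_one' := rfl
      map_mul' := fun _ _ => rfl }
  let ψ : Z × Z →* (DD Z ⧸ Δ) := (QuotientGroup.mk' Δ).comp ψ₀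
  have hψ : Function.Surjective ψ := by
    intro y
    obtain ⟨d, rfl⟩ := QuotientGroup.mk'_surjective Δ y
    obtain ⟨e, he, z, hz, hez⟩ := hEZ d.1.2
    have hd := (mem_DD Z _).1 d.2
    refine ⟨(⟨(d.1.1 * d.1.2⁻¹) * z, Z.mul_mem hd hz⟩, ⟨z, hz⟩), ?_⟩
    show QuotientGroup.mk' Δ (ψ₀ _) = QuotientGroup.mk' Δ d
    have hde : d = dg Z e * ψ₀ (⟨(d.1.1 * d.1.2⁻¹) * z, Z.mul_mem hd hz⟩, ⟨z, hz⟩) := by
      apply Subtype.ext
      apply Prod.ext
      · show d.1.1 = e * ((d.1.1 * d.1.2⁻¹) * z)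
        have h1 := hc e he _ hd
        calc d.1.1 = (d.1.1 * d.1.2⁻¹) * d.1.2 := by group
          _ = (d.1.1 * d.1.2⁻¹) * (e * z) := by rw [hez]
          _ = ((d.1.1 * d.1.2⁻¹) * e) * z := by group
          _ = (e * (d.1.1 * d.1.2⁻¹)) * z := by rw [h1]
          _ = e * ((d.1.1 * d.1.2⁻¹) * z) := by group
      · show d.1.2 = e * z
        exact hez.symm
    have h2 : QuotientGroup.mk' Δ (dg Z e) = 1 :=
      (QuotientGroup.eq_one_iff _).2 (Subgroup.mem_map_of_mem _ he)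
    conv_rhs => rw [hde, map_mul, h2, one_mul]
  have hYn : Group.IsNilpotent (DD Z ⧸ Δ) := Group.nilpotent_of_surjective ψ hψ
  let j : Z →* (DD Z ⧸ Δ) := (QuotientGroup.mk' Δ).comp (lft Z)
  have hj : Function.Injective j := by
    rw [← MonoidHom.ker_eq_bot_iff, eq_bot_iff]
    intro z hz
    have h1 : (lft Z z) ∈ Δ := (QuotientGroup.eq_one_iff _).1 hz
    rw [hmemΔ] at h1
    exact Subgroup.mem_bot.2 (Subtype.ext h1.1)
  exact hH.iso _ _ (MonoidHom.ofInjective hj).symm (neumann hH _ hY hYn j.range)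

/-- ... and `E ∈ H`. -/
theorem mem_E {H : GroupClass} (hH : IsFormation H) {G : Type} [Group G] (hG : H G)
    (E Z : Subgroup G) (hE : E.Normal)
    (hc : ∀ e ∈ E, ∀ z ∈ Z, e * z = z * e) (hEZ : ∀ g : G, ∃ e ∈ E, ∃ z ∈ Z, e * z = g)
    (hHZ : H Z) : H E := by
  haveI hfin : Finite G := hH.finite G hG
  let D : Subgroup (G × Z) :=
    MonoidHom.eqLocus ((QuotientGroup.mk' E).comp (MonoidHom.fst G Z))
      ((QuotientGroup.mk' E).comp (Z.subtype.comp (MonoidHom.snd G Z)))
  have hmD : ∀ x : G × Z, x ∈ D ↔ x.1 * (x.2 : G)⁻¹ ∈ E := by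
    intro x
    show QuotientGroup.mk' E x.1 = QuotientGroup.mk' E (x.2 : G) ↔ _
    rw [← mul_inv_eq_one, ← map_inv, ← map_mul]
    exact QuotientGroup.eq_one_iff _
  have hD : H D := by
    refine hH.of_subdirect ((MonoidHom.fst G Z).comp D.subtype)
      ((MonoidHom.snd G Z).comp D.subtype) ?_ ?_ hG hHZ ?_
    · intro g
      obtain ⟨e, he, z, hz, rfl⟩ := hEZ g
      exact ⟨⟨(e * z, ⟨z, hz⟩), by rw [hmD]; simpa using he⟩, rfl⟩
    · intro z
      exact ⟨⟨((z : G), z), by rw [hmD]; simp⟩, rfl⟩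
    · rw [eq_bot_iff]
      rintro ⟨⟨a, b⟩, hx⟩ ⟨h1, h2⟩
      have h1 : a = 1 := h1
      have h2 : b = 1 := h2
      subst h1; subst h2
      exact Subgroup.mem_bot.2 rfl
  let f : D →* E :=
    { toFun := fun x => ⟨x.1.1 * (x.1.2 : G)⁻¹, (hmD _).1 x.2⟩
      map_one' := by apply Subtype.ext; simp
      map_mul' := by
        intro x y
        apply Subtype.ext
        have h1 := hc _ ((hmD _).1 y.2) _ (Z.inv_mem x.1.2.2)
        show x.1.1 * y.1.1 * ((x.1.2 : G) * (y.1.2 : G))⁻¹ =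
          (x.1.1 * (x.1.2 : G)⁻¹) * (y.1.1 * (y.1.2 : G)⁻¹)
        calc x.1.1 * y.1.1 * ((x.1.2 : G) * (y.1.2 : G))⁻¹
            = x.1.1 * ((y.1.1 * (y.1.2 : G)⁻¹) * (x.1.2 : G)⁻¹) := by group
          _ = x.1.1 * ((x.1.2 : G)⁻¹ * (y.1.1 * (y.1.2 : G)⁻¹)) := by rw [h1]
          _ = (x.1.1 * (x.1.2 : G)⁻¹) * (y.1.1 * (y.1.2 : G)⁻¹) := by group }
  refine hH.of_surj f ?_ hD
  intro e
  exact ⟨⟨((e : G), 1), by rw [hmD]; simp⟩, by apply Subtype.ext; simp [f]⟩

/-- products -/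
theorem mem_prod {H : GroupClass} (hH : IsFormation H) {A B : Type} [Group A] [Group B]
    (hA : H A) (hB : H B) : H (A × B) := by
  haveI := hH.finite A hA
  haveI := hH.finite B hB
  refine hH.of_subdirect (MonoidHom.fst A B) (MonoidHom.snd A B) Prod.fst_surjective
    Prod.snd_surjective hA hB ?_
  rw [eq_bot_iff]
  rintro ⟨a, b⟩ ⟨h1, h2⟩
  have h1 : a = 1 := h1
  have h2 : b = 1 := h2
  subst h1; subst h2
  exact Subgroup.mem_bot.2 rfl

end Pool.Agent.H198R3.Form
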