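import Pool.Agent.H198R3.Form10

set_option autoImplicit false

namespace Pool.Agent.H198R3.Form

open Subgroup

variable {F : GroupClass}

/-- For every `G ∈ F` some `G / Z_m(G)` has no abelian chief factors. -/
def StructCond (F : GroupClass) : Prop :=
  ∀ (G : Type) [Group G], F G → ∃ m : ℕ, NoAb (G ⧸ Subgroup.upperCentralSeries G m)

/-- `R` has a unique minimal normal subgroup, and it is abelian. -/
def AbelianMonolith (R : Type) [Group R] : Prop :=
  ∃ W : Subgroup R, W.Normal ∧ W ≠ ⊥ ∧ (∀ a ∈ W, ∀ b ∈ W, a * b = b * a) ∧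
    ∀ U : Subgroup R, U.Normal → U ≠ ⊥ → W ≤ U

/-- For every subformation `H` of `F`, every perfect `E ∈ H` and every perfect normal subgroup
`N` of `E`, the quotients of `N` with abelian monolith are in `H`. -/
def CentralCond (F : GroupClass) : Prop :=
  ∀ H : GroupClass, IsFormation H → (∀ (G : Type) [Group G], H G → F G) →
    ∀ (E : Type) [Group E], H E → commutator E = ⊤ → ∀ N : Subgroup E, N.Normal →
      commutator N = ⊤ → ∀ (R : Type) [Group R], AbelianMonolith R →
        (∃ f : N →* R, Function.Surjective f) → H R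

theorem quot_noAb {X : Type} [Group X] (A T : Subgroup X) [A.Normal] [T.Normal] (h : A ≤ T)
    (hA : NoAb (X ⧸ A)) : NoAb (X ⧸ T) := by
  refine NoAb.of_surj (QuotientGroup.lift A (QuotientGroup.mk' T) ?_) ?_ hA
  · rw [QuotientGroup.ker_mk']; exact h
  · intro y
    obtain ⟨x, rfl⟩ := QuotientGroup.mk'_surjective T y
    exact ⟨QuotientGroup.mk' A x, rfl⟩

theorem quot_sol {X : Type} [Group X] (A T : Subgroup X) [A.Normal] [T.Normal] (h : A ≤ T)
    (hA : Group.IsSolvable (X ⧸ A)) : Group.IsSolvable (X ⧸ T) := by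
  refine Group.isSolvable_of_surjective (f := QuotientGroup.lift A (QuotientGroup.mk' T) ?_) ?_
  · rw [QuotientGroup.ker_mk']; exact h
  · intro y
    obtain ⟨x, rfl⟩ := QuotientGroup.mk'_surjective T y
    exact ⟨QuotientGroup.mk' A x, rfl⟩

theorem sup_top {X : Type} [Group X] (A B : Subgroup X) [A.Normal] [B.Normal]
    (hA : NoAb (X ⧸ A)) (hB : Group.IsSolvable (X ⧸ B)) : A ⊔ B = ⊤ := by
  have h1 := quot_noAb A (A ⊔ B) le_sup_left hA
  have h2 := quot_sol B (A ⊔ B) le_sup_right hB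
  have h3 := subsingleton_of h1 h2
  rw [eq_top_iff]
  intro x _
  exact (QuotientGroup.eq_one_iff x).1 (Subsingleton.elim _ _)

theorem perfect_of_surj {A B : Type} [Group A] [Group B] (f : A →* B)
    (hf : Function.Surjective f) (h : commutator A = ⊤) : commutator B = ⊤ := by
  have h1 : (commutator A).map f = commutator B := by
    rw [commutator_def, commutator_def, Subgroup.map_commutator,
      Subgroup.map_top_of_surjective f hf]
  rw [← h1, h, Subgroup.map_top_of_surjective f hf]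

theorem reduction (hF : IsFormation F) :
    AllSubSnClosed F ↔ StructCond F ∧ QuotCond F ∧ CentralCond F := by
  constructor
  · intro hP
    refine ⟨fun G _ hG => structure_thm hF hP G hG, quotCond_of hF hP, ?_⟩
    rintro H hH hHF E _ hE _ N hN _ R _ _ ⟨f, hf⟩
    exact hH.of_surj f hf (hP H hH hHF E N hN hE)
  rintro ⟨hS, hQ, hC⟩ H hH hHF G _ N hN hG
  haveI hfin : Finite G := hH.finite G hG
  obtain ⟨m, hm⟩ := hS G (hHF G hG)
  set Z := Subgroup.upperCentralSeries G m with hZ
  have hnil : Group.IsNilpotent Z := ucs_nilpotent m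
  obtain ⟨E, hEc, ⟨hEn, hEs⟩, hEp, hEmax⟩ := exists_solres G
  have hc : ∀ e ∈ E, ∀ z ∈ Z, e * z = z * e := by
    intro e he z hz
    have h1 := perfect_comm_ucs E hEp m
    rw [Subgroup.commutator_eq_bot_iff_le_centralizer] at h1
    exact (mem_centralizer_iff.1 (h1 he) z hz).symm
  have hEZ : ∀ g : G, ∃ e ∈ E, ∃ z ∈ Z, e * z = g := by
    intro g
    have h1 : g ∈ Z ⊔ E := by rw [sup_top Z E hm hEs]; exact Subgroup.mem_top g
    rw [sup_comm] at h1
    obtain ⟨e, he, z, hz, h2⟩ := Subgroup.mem_sup_of_normal_right.1 h1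
    exact ⟨e, he, z, hz, h2⟩
  have hHZ : H Z := mem_Z hH hG E Z hEn inferInstance hc hEZ hnil
  have hHE : H E := mem_E hH hG E Z hEn hc hEZ hHZ
  -- the soluble residual of `N`
  obtain ⟨P, hPc, ⟨hPn, hPs⟩, hPp, -⟩ := exists_solres N
  set Q : Subgroup G := P.map N.subtype with hQdef
  have hQn : Q.Normal := inferInstance
  have hQp : commutator Q = ⊤ :=
    perfect_of_surj (P.equivMapOfInjective _ N.subtype_injective).toMonoidHom
      (P.equivMapOfInjective _ N.subtype_injective).surjective hPp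
  have hQE : Q ≤ E := hEmax Q hQp
  have hQ'n : (Q.subgroupOf E).Normal := hQn.subgroupOf E
  have hQ'p : commutator (Q.subgroupOf E) = ⊤ :=
    perfect_of_surj (Subgroup.subgroupOfEquivOfLe hQE).symm.toMonoidHom
      (Subgroup.subgroupOfEquivOfLe hQE).symm.surjective hQp
  have hHQ' : H (Q.subgroupOf E) := by
    refine mem_of_monolithic hH _ (top_quot hH hG) ?_
    rintro K _ ⟨W, hWn, hWb, hWm⟩
    by_cases hab : ∀ a ∈ W, ∀ b ∈ W, a * b = b * a
    · exact hC H hH hHF E hHE hEp _ hQ'n hQ'p _ ⟨W, hWn, hWb, hab, hWm⟩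
        ⟨QuotientGroup.mk' K, QuotientGroup.mk'_surjective K⟩
    · obtain ⟨g, hg⟩ := hQ E (hHF E hHE) _ hQ'n _ ⟨W, hWn, hab, hWm⟩
        ⟨QuotientGroup.mk' K, QuotientGroup.mk'_surjective K⟩
      exact hH.of_surj g hg hHE
  have hHQ : H Q := hH.iso _ _ (Subgroup.subgroupOfEquivOfLe hQE) hHQ'
  have hHNZ : H (N ⊓ Z : Subgroup G) :=
    hH.iso _ _ (Subgroup.subgroupOfEquivOfLe (inf_le_right : N ⊓ Z ≤ Z))
      (neumann hH Z hHZ hnil ((N ⊓ Z).subgroupOf Z))
  -- `N = Q (N ∩ Z)`
  let f : N →* N.map (QuotientGroup.mk' Z) := (QuotientGroup.mk' Z).subgroupMap N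
  have hf : Function.Surjective f := (QuotientGroup.mk' Z).subgroupMap_surjective N
  have hNno : NoAb (N.map (QuotientGroup.mk' Z)) :=
    noAb_normal hm _ (hN.map _ (QuotientGroup.mk'_surjective Z))
  have hNk : NoAb (N ⧸ f.ker) :=
    NoAb.of_surj (QuotientGroup.quotientKerEquivOfSurjective f hf).symm.toMonoidHom
      (QuotientGroup.quotientKerEquivOfSurjective f hf).symm.surjective hNno
  have hsup := sup_top f.ker P hNk hPs
  have hfk : ∀ x : N, x ∈ f.ker → (x : G) ∈ Z := by
    intro x hx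
    have h1 : f x = 1 := hx
    have h2 : QuotientGroup.mk' Z (x : G) = 1 := congrArg Subtype.val h1
    exact (QuotientGroup.eq_one_iff _).1 h2
  let φ : Q × (N ⊓ Z : Subgroup G) →* N :=
    { toFun := fun x => ⟨x.1 * x.2, N.mul_mem (by
        obtain ⟨y, -, hy⟩ := x.1.2
        rw [← hy]; exact y.2) x.2.2.1⟩
      map_one' := by apply Subtype.ext; simp
      map_mul' := by
        intro x y
        apply Subtype.ext
        have h1 := hc y.1 (hQE y.1.2) x.2 x.2.2.2
        show ((x.1 : G) * y.1) * ((x.2 : G) * y.2) = (x.1 * x.2) * (y.1 * y.2)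
        calc ((x.1 : G) * y.1) * ((x.2 : G) * y.2) = x.1 * (y.1 * x.2) * y.2 := by group
          _ = x.1 * (x.2 * y.1) * y.2 := by rw [h1]
          _ = (x.1 * x.2) * (y.1 * y.2) := by group }
  refine hH.of_surj φ ?_ (mem_prod hH hHQ hHNZ)
  intro n
  have h1 : n ∈ f.ker ⊔ P := by rw [hsup]; exact Subgroup.mem_top n
  obtain ⟨k, hk, e, he, hke⟩ := Subgroup.mem_sup_of_normal_right.1 h1
  have hQe : (e : G) ∈ Q := Subgroup.mem_map_of_mem N.subtype he
  refine ⟨(⟨(e : G), hQe⟩, ⟨(k : G), k.2, hfk k hk⟩), ?_⟩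
  apply Subtype.ext
  show (e : G) * k = n
  rw [hc e (hQE hQe) k (hfk k hk), ← hke]
  rfl

/-- Formations all of whose perfect groups are centreless. -/
theorem centreless_iff (hF : IsFormation F)
    (hcl : ∀ (G : Type) [Group G], F G → commutator G = ⊤ → center G = ⊥) :
    AllSubSnClosed F ↔ StructCond F ∧ QuotCond F := by
  rw [reduction hF]
  refine ⟨fun h => ⟨h.1, h.2.1⟩, fun h => ⟨h.1, h.2, ?_⟩⟩
  rintro H hH hHF E _ hE hEp N hN _ R _ ⟨W, hWn, hWb, hWab, -⟩ ⟨f, hf⟩
  exfalso
  haveI : Finite E := hH.finite E hE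
  obtain ⟨m, hm⟩ := h.1 E (hHF E hE)
  have hcen := hcl E (hHF E hE) hEp
  have hu : ∀ k, Subgroup.upperCentralSeries E k = ⊥ := by
    intro k
    induction k with
    | zero => exact Subgroup.upperCentralSeries_zero E
    | succ k ih =>
      rw [eq_bot_iff, ← hcen]
      intro x hx
      rw [Subgroup.mem_upperCentralSeries_succ_iff] at hx
      rw [Subgroup.mem_center_iff]
      intro y
      have h1 := hx y
      rw [ih, Subgroup.mem_bot] at h1
      have h2 : x * y * x⁻¹ * y⁻¹ = 1 := h1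
      calc y * x = (x * y * x⁻¹ * y⁻¹)⁻¹ * (x * y) := by group
        _ = x * y := by rw [h2]; group
  have hE2 : NoAb E := by
    have e : E ⧸ Subgroup.upperCentralSeries E m ≃* E :=
      (QuotientGroup.quotientMulEquivOfEq (hu m)).trans QuotientGroup.quotientBot
    exact NoAb.of_surj e.toMonoidHom e.surjective hm
  have hR : NoAb R := NoAb.of_surj f hf (noAb_normal hE2 N hN)
  apply hWb
  rw [← le_bot_iff]
  refine hR ⊥ W inferInstance hWn ?_
  intro a ha b hb
  rw [Subgroup.mem_bot, hWab a ha b hb]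
  group

end Pool.Agent.H198R3.Form
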