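import Pool.Agent.H198R3.Form1

set_option autoImplicit false

namespace Pool.Agent.H198R3.Form

open Subgroup

variable {F : GroupClass}

/-- minimal normal subgroup -/
def IsMinNormal {G : Type} [Group G] (V : Subgroup G) : Prop :=
  V.Normal ∧ V ≠ ⊥ ∧ ∀ W : Subgroup G, W.Normal → W ≤ V → W = ⊥ ∨ W = V

theorem exists_minNormal {G : Type} [Group G] [Finite G] (V : Subgroup G) (hV : V.Normal)
    (h : V ≠ ⊥) : ∃ W ≤ V, IsMinNormal W := by
  obtain ⟨W, ⟨h1, h2, h3⟩, hmin⟩ := WellFounded.has_min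
    (wellFounded_lt : WellFounded (fun a b : Subgroup G => a < b))
    {W : Subgroup G | W.Normal ∧ W ≠ ⊥ ∧ W ≤ V} ⟨V, hV, h, le_rfl⟩
  refine ⟨W, h3, h1, h2, fun U hU hUW => ?_⟩
  by_contra hcon
  push Not at hcon
  exact hmin U ⟨hU, hcon.1, hUW.trans h3⟩ (lt_of_le_of_ne hUW hcon.2)

theorem exists_prime_exp {G : Type} [Group G] [Finite G] (V : Subgroup G) (hV : IsMinNormal V)
    (hab : ∀ a ∈ V, ∀ b ∈ V, a * b = b * a) : ∃ p : ℕ, p.Prime ∧ ∀ v ∈ V, v ^ p = 1 := by
  obtain ⟨hVn, hVb, hVm⟩ := hV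
  have hc : Nat.card V ≠ 1 := by
    intro h
    exact hVb (Subgroup.eq_bot_of_card_eq V h)
  obtain ⟨p, hp, hpd⟩ := Nat.exists_prime_and_dvd hc
  haveI : Fact p.Prime := ⟨hp⟩
  obtain ⟨x, hx⟩ := exists_prime_orderOf_dvd_card' p hpd
  refine ⟨p, hp, ?_⟩
  let W : Subgroup G :=
    { carrier := {v | v ∈ V ∧ v ^ p = 1}
      one_mem' := ⟨V.one_mem, one_pow p⟩
      mul_mem' := by
        rintro a b ⟨ha, ha'⟩ ⟨hb, hb'⟩
        refine ⟨V.mul_mem ha hb, ?_⟩
        have hc : Commute a b := hab a ha b hb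
        rw [hc.mul_pow, ha', hb', one_mul]
      inv_mem' := by
        rintro a ⟨ha, ha'⟩
        exact ⟨V.inv_mem ha, by rw [inv_pow, ha', inv_one]⟩ }
  have hWn : W.Normal := by
    constructor
    rintro v ⟨hv, hv'⟩ g
    exact ⟨hVn.conj_mem v hv g, by rw [conj_pow, hv', mul_one, mul_inv_cancel]⟩
  have hWV : W ≤ V := fun v hv => hv.1
  have hxW : (x : G) ∈ W := by
    refine ⟨x.2, ?_⟩
    have : x ^ p = 1 := by rw [← hx]; exact pow_orderOf_eq_one x
    have := congrArg (Subtype.val) this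
    simpa using this
  rcases hVm W hWn hWV with h | h
  · exfalso
    rw [h, Subgroup.mem_bot] at hxW
    have : x = 1 := Subtype.ext hxW
    rw [this, orderOf_one] at hx
    exact hp.one_lt.ne hx
  · intro v hv
    rw [← h] at hv
    exact hv.2

section Dtrick

variable {G : Type} [Group G] (V : Subgroup G) [V.Normal]

/-- the fibre product `G ×_{G/V} G`. -/
def DD : Subgroup (G × G) :=
  MonoidHom.eqLocus ((QuotientGroup.mk' V).comp (MonoidHom.fst G G))
    ((QuotientGroup.mk' V).comp (MonoidHom.snd G G))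

theorem mem_DD (x : G × G) : x ∈ DD V ↔ x.1 * x.2⁻¹ ∈ V := by
  show QuotientGroup.mk' V x.1 = QuotientGroup.mk' V x.2 ↔ _
  rw [← mul_inv_eq_one, ← map_inv, ← map_mul]
  exact QuotientGroup.eq_one_iff _

/-- diagonal -/
def dg : G →* DD V where
  toFun g := ⟨(g, g), by rw [mem_DD]; simp⟩
  map_one' := rfl
  map_mul' _ _ := rfl

/-- left embedding of `V` -/
def lft : V →* DD V where
  toFun v := ⟨(v, 1), by rw [mem_DD]; simp⟩
  map_one' := rfl
  map_mul' a b := by
    apply Subtype.ext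
    apply Prod.ext
    · rfl
    · simp

theorem DD_mem (hF : IsFormation F) [Finite G] (hG : F G) : F (DD V) := by
  refine hF.of_subdirect ((MonoidHom.fst G G).comp (DD V).subtype)
    ((MonoidHom.snd G G).comp (DD V).subtype) ?_ ?_ hG hG ?_
  · intro g; exact ⟨dg V g, rfl⟩
  · intro g; exact ⟨dg V g, rfl⟩
  · rw [eq_bot_iff]
    rintro ⟨⟨a, b⟩, hx⟩ ⟨h1, h2⟩
    have h1 : a = 1 := h1
    have h2 : b = 1 := h2
    subst h1; subst h2
    exact Subgroup.mem_bot.2 rfl

/-- `DD V ≃ G × V` as sets. -/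
def ddEquiv : DD V ≃ G × V where
  toFun x := (x.1.2, ⟨x.1.1 * x.1.2⁻¹, (mem_DD V _).1 x.2⟩)
  invFun y := ⟨((y.2 : G) * y.1, y.1), by rw [mem_DD]; simp⟩
  left_inv x := by
    apply Subtype.ext
    apply Prod.ext
    · simp
    · rfl
  right_inv y := by
    apply Prod.ext
    · rfl
    · apply Subtype.ext; simp

end Dtrick

end Pool.Agent.H198R3.Form
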