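import Pool.Agent.H198R3.Form2

set_option autoImplicit false

namespace Pool.Agent.H198R3.Form

open Subgroup

variable {F : GroupClass}

/-- If `V` is a noncentral abelian minimal normal subgroup of `G ∈ F`, with centraliser `C`,
then `V ⋊ G/C ∈ F` (as a quotient of the fibre product) has the same property. -/
theorem dstep (hF : IsFormation F) {G : Type} [Group G] [Finite G] (hG : F G) (V : Subgroup G)
    (hV : IsMinNormal V) (hab : ∀ a ∈ V, ∀ b ∈ V, a * b = b * a) (hcen : ¬ V ≤ center G)
    (hC : ¬ centralizer (V : Set G) ≤ V) :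
    ∃ (X : Type) (_ : Group X) (W : Subgroup X), F X ∧ Nat.card X < Nat.card G ∧ IsMinNormal W ∧
      (∀ a ∈ W, ∀ b ∈ W, a * b = b * a) ∧ ¬ W ≤ center X := by
  obtain ⟨hVn, hVb, hVm⟩ := hV
  set C : Subgroup G := centralizer (V : Set G) with hCdef
  have hCn : C.Normal := inferInstance
  have hmemC : ∀ g, g ∈ C ↔ ∀ v ∈ V, v * g = g * v := fun g => mem_centralizer_iff
  have hVC : V ≤ C := fun a ha => (hmemC a).2 (fun b hb => hab b hb a ha)
  -- the normal subgroup
  set Δ : Subgroup (DD V) := C.map (dg V) with hΔ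
  have hmemΔ : ∀ x : DD V, x ∈ Δ ↔ x.1.1 = x.1.2 ∧ x.1.1 ∈ C := by
    intro x
    constructor
    · rintro ⟨c, hc, rfl⟩
      exact ⟨rfl, hc⟩
    · rintro ⟨h1, h2⟩
      exact ⟨x.1.1, h2, Subtype.ext (Prod.ext rfl h1)⟩
  have hΔn : Δ.Normal := by
    constructor
    intro x hx d
    rw [hmemΔ] at hx ⊢
    obtain ⟨h1, h2⟩ := hx
    have hd := (mem_DD V _).1 d.2
    show d.1.1 * x.1.1 * d.1.1⁻¹ = d.1.2 * x.1.2 * d.1.2⁻¹ ∧ d.1.1 * x.1.1 * d.1.1⁻¹ ∈ C
    refine ⟨?_, hCn.conj_mem _ h2 _⟩
    rw [← h1]
    have h3 : d.1.2 * x.1.1 * d.1.2⁻¹ ∈ C := hCn.conj_mem _ h2 _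
    have h4 := (hmemC _).1 h3 _ hd
    calc d.1.1 * x.1.1 * d.1.1⁻¹
        = (d.1.1 * d.1.2⁻¹) * (d.1.2 * x.1.1 * d.1.2⁻¹) * (d.1.1 * d.1.2⁻¹)⁻¹ := by group
      _ = d.1.2 * x.1.1 * d.1.2⁻¹ := by rw [h4]; group
  have hDF : F (DD V) := DD_mem V hF hG
  have hX : F (DD V ⧸ Δ) := hF.quot _ Δ hDF
  let j : V →* (DD V ⧸ Δ) := (QuotientGroup.mk' Δ).comp (lft V)
  have hj : ∀ v : V, j v = 1 ↔ (v : G) = 1 := by
    intro v
    show QuotientGroup.mk' Δ (lft V v) = 1 ↔ _
    rw [show (QuotientGroup.mk' Δ (lft V v) = 1) = (((lft V v : DD V) : DD V ⧸ Δ) = 1) from rfl,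
      QuotientGroup.eq_one_iff, hmemΔ]
    constructor
    · rintro ⟨h, -⟩
      exact h
    · intro h
      exact ⟨h, by rw [show (lft V v).1.1 = (v : G) from rfl, h]; exact C.one_mem⟩
  have hjc : ∀ (v : V) (d : DD V), QuotientGroup.mk' Δ d * j v * (QuotientGroup.mk' Δ d)⁻¹ =
      j ⟨d.1.1 * v * d.1.1⁻¹, hVn.conj_mem v v.2 _⟩ := by
    intro v d
    show QuotientGroup.mk' Δ d * QuotientGroup.mk' Δ (lft V v) * (QuotientGroup.mk' Δ d)⁻¹ =
      QuotientGroup.mk' Δ (lft V _)
    rw [← map_mul, ← map_inv, ← map_mul]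
    congr 1
    apply Subtype.ext
    apply Prod.ext
    · rfl
    · show d.1.2 * 1 * d.1.2⁻¹ = 1
      group
  refine ⟨DD V ⧸ Δ, inferInstance, j.range, hX, ?_, ⟨?_, ?_, ?_⟩, ?_, ?_⟩
  · -- cardinality
    have h1 : Nat.card (DD V) = Nat.card G * Nat.card V := by
      rw [Nat.card_congr (ddEquiv V), Nat.card_prod]
    have hinj : Function.Injective (dg V) := fun a b h => congrArg (fun x : DD V => x.1.1) h
    have h2 : Nat.card Δ = Nat.card C := (Nat.card_congr (C.equivMapOfInjective _ hinj).toEquiv).symm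
    have h3 := Subgroup.card_eq_card_quotient_mul_card_subgroup Δ
    have h4 : Nat.card V < Nat.card C := by
      have hle := Subgroup.card_le_of_le hVC
      refine lt_of_le_of_ne hle (fun h => hC ?_)
      exact (Subgroup.eq_of_le_of_card_ge hVC h.ge).ge
    rw [h1, h2] at h3
    have hGp : 0 < Nat.card G := Nat.card_pos
    by_contra hcon
    push Not at hcon
    have : Nat.card G * Nat.card V < Nat.card G * Nat.card C := (Nat.mul_lt_mul_left hGp).2 h4
    have h5 : Nat.card G * Nat.card C ≤ Nat.card (DD V ⧸ Δ) * Nat.card C :=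
      Nat.mul_le_mul_right _ hcon
    omega
  · constructor
    rintro _ ⟨v, rfl⟩ x
    obtain ⟨d, rfl⟩ := QuotientGroup.mk'_surjective Δ x
    rw [hjc]
    exact ⟨_, rfl⟩
  · intro h
    apply hVb
    rw [eq_bot_iff]
    intro v hv
    have : j ⟨v, hv⟩ ∈ j.range := ⟨_, rfl⟩
    rw [h, Subgroup.mem_bot, hj] at this
    exact Subgroup.mem_bot.2 this
  · intro W hW hWj
    have hW0n : ((W.comap j).map V.subtype).Normal := by
      constructor
      rintro _ ⟨v, hv, rfl⟩ g
      refine ⟨⟨g * v * g⁻¹, hVn.conj_mem v v.2 g⟩, ?_, rfl⟩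
      show j _ ∈ W
      have := hjc v (dg V g)
      rw [show j ⟨g * v * g⁻¹, hVn.conj_mem v v.2 g⟩ =
        QuotientGroup.mk' Δ (dg V g) * j v * (QuotientGroup.mk' Δ (dg V g))⁻¹ from this.symm]
      exact hW.conj_mem _ hv _
    have hle : (W.comap j).map V.subtype ≤ V := by
      rintro _ ⟨v, -, rfl⟩
      exact v.2
    rcases hVm _ hW0n hle with h | h
    · left
      rw [eq_bot_iff]
      intro w hw
      obtain ⟨v, rfl⟩ := hWj hw
      have : (v : G) ∈ (W.comap j).map V.subtype := ⟨v, hw, rfl⟩
      rw [h, Subgroup.mem_bot] at this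
      exact Subgroup.mem_bot.2 ((hj v).2 this)
    · right
      refine le_antisymm hWj ?_
      rintro _ ⟨v, rfl⟩
      have : (v : G) ∈ (W.comap j).map V.subtype := by rw [h]; exact v.2
      obtain ⟨v', hv', hvv⟩ := this
      have : v' = v := Subtype.ext hvv
      rw [← this]
      exact hv'
  · rintro _ ⟨a, rfl⟩ _ ⟨b, rfl⟩
    rw [← map_mul, ← map_mul]
    congr 1
    exact Subtype.ext (hab a a.2 b b.2)
  · intro h
    apply hcen
    intro v hv
    rw [Subgroup.mem_center_iff]
    intro g
    have h1 : j ⟨v, hv⟩ ∈ center (DD V ⧸ Δ) := h ⟨_, rfl⟩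
    rw [Subgroup.mem_center_iff] at h1
    have h2 := h1 (QuotientGroup.mk' Δ (dg V g))
    have h3 : QuotientGroup.mk' Δ (dg V g) * j ⟨v, hv⟩ * (QuotientGroup.mk' Δ (dg V g))⁻¹ =
        j ⟨v, hv⟩ := by rw [h2]; group
    rw [hjc] at h3
    have h4 : j (⟨g * v * g⁻¹, hVn.conj_mem v hv g⟩ * ⟨v, hv⟩⁻¹) = 1 := by
      rw [map_mul, map_inv]
      rw [show j ⟨g * v * g⁻¹, hVn.conj_mem v hv g⟩ = j ⟨v, hv⟩ from h3]
      group
    rw [hj] at h4
    have h5 : g * v * g⁻¹ * v⁻¹ = 1 := h4
    calc g * v = (g * v * g⁻¹ * v⁻¹) * (v * g) := by group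
      _ = v * g := by rw [h5, one_mul]

/-- **(A), core.** -/
theorem core (hF : IsFormation F) (hP : AllSubSnClosed F) :
    ∀ (n : ℕ) (G : Type) [Group G], F G → Nat.card G = n → ∀ V : Subgroup G, IsMinNormal V →
      (∀ a ∈ V, ∀ b ∈ V, a * b = b * a) → V ≤ center G := by
  intro n
  induction n using Nat.strong_induction_on with
  | _ n ih =>
  intro G _ hG hn V hV hab
  have hfin : Finite G := hF.finite G hG
  by_contra hcen
  have hVn : V.Normal := hV.1
  have hVm := hV.2.2
  set C : Subgroup G := centralizer (V : Set G) with hCdef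
  have hmemC : ∀ g, g ∈ C ↔ ∀ v ∈ V, v * g = g * v := fun g => mem_centralizer_iff
  have hVC : V ≤ C := fun a ha => (hmemC a).2 (fun b hb => hab b hb a ha)
  have hCV : C ≤ V := by
    by_contra hC
    obtain ⟨X, _, W, hX, hlt, hW, hWab, hWc⟩ := dstep hF hG V hV hab hcen hC
    exact hWc (ih _ (hn ▸ hlt) X hX rfl W hW hWab)
  have hVZ : V ⊓ center G = ⊥ := by
    rcases hVm (V ⊓ center G) inferInstance inf_le_left with h | h
    · exact h
    · exact absurd (h ▸ inf_le_right) hcen
  -- normal subgroups meeting `V` trivially are trivial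
  have hmeet : ∀ N : Subgroup G, N.Normal → V ⊓ N = ⊥ → N = ⊥ := by
    intro N hN hVN
    have hNC : N ≤ C := by
      intro x hx
      rw [hmemC]
      intro v hv
      have h1 : v * x * v⁻¹ * x⁻¹ ∈ V ⊓ N := by
        refine ⟨?_, N.mul_mem (hN.conj_mem x hx v) (N.inv_mem hx)⟩
        have : v * x * v⁻¹ * x⁻¹ = v * (x * v⁻¹ * x⁻¹) := by group
        rw [this]
        exact V.mul_mem hv (hVn.conj_mem _ (V.inv_mem hv) x)
      rw [hVN, Subgroup.mem_bot] at h1
      calc v * x = (v * x * v⁻¹ * x⁻¹) * (x * v) := by group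
        _ = x * v := by rw [h1, one_mul]
    rw [← hVN]
    exact (inf_eq_right.2 (hNC.trans hCV)).symm
  -- only normal subgroups above V
  have hsimple : ∀ E : Subgroup G, E.Normal → V ≤ E → E = V ∨ E = ⊤ := by
    intro E hE hVE
    by_contra hcon
    push Not at hcon
    obtain ⟨hEV, hEt⟩ := hcon
    have hFE : F E := hP F hF (fun _ _ h => h) G E hE hG
    have hcard : Nat.card E < n := by
      rw [← hn]
      refine lt_of_le_of_ne (Nat.card_le_card_of_injective _ E.subtype_injective) ?_
      intro h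
      exact hEt (Subgroup.eq_top_of_card_eq E h)
    have hVE' : V.subgroupOf E ≠ ⊥ := by
      intro h
      rw [Subgroup.subgroupOf_eq_bot] at h
      exact hV.2.1 (by rw [← disjoint_self]; exact h.mono_right hVE)
    obtain ⟨W, hWV, hW⟩ := exists_minNormal (V.subgroupOf E) (hVn.subgroupOf E) hVE'
    have hWc := ih _ hcard E hFE rfl W hW (by
      intro a ha b hb
      exact Subtype.ext (hab a (hWV ha) b (hWV hb)))
    -- the intersection of V with the centraliser of E
    have hU : V ⊓ centralizer (E : Set G) = V := by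
      rcases hVm (V ⊓ centralizer (E : Set G)) inferInstance inf_le_left with h | h
      · exfalso
        apply hW.2.1
        rw [eq_bot_iff]
        intro w hw
        have h1 : (w : G) ∈ V ⊓ centralizer (E : Set G) := by
          refine Subgroup.mem_inf.2 ⟨hWV hw, mem_centralizer_iff.2 ?_⟩
          intro e he
          have := (Subgroup.mem_center_iff.1 (hWc hw)) ⟨e, he⟩
          exact congrArg Subtype.val this
        rw [h, Subgroup.mem_bot] at h1
        exact Subgroup.mem_bot.2 (Subtype.ext h1)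
      · exact h
    apply hEV
    refine le_antisymm (le_trans ?_ hCV) hVE
    intro e he
    rw [hmemC]
    intro v hv
    rw [← hU] at hv
    exact ((mem_centralizer_iff.1 hv.2) e he).symm
  obtain ⟨p, hp, hpV⟩ := exists_prime_exp V hV hab
  have hNC : NoCentral F p G := by
    refine ⟨hG, fun N hN z hz hc => ?_⟩
    by_contra hzN
    rcases hVm (V ⊓ N) inferInstance inf_le_left with h | h
    · have hN0 := hmeet N hN h
      subst hN0
      have hzc : z ∈ center G := by
        rw [Subgroup.mem_center_iff]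
        intro g
        have := Subgroup.mem_bot.1 (hc g)
        calc g * z = (z * g * z⁻¹ * g⁻¹)⁻¹ * (z * g) := by group
          _ = z * g := by rw [this]; group
      have hzC : z ∈ C := by
        rw [hmemC]
        intro v _
        exact (Subgroup.mem_center_iff.1 hzc) v
      have : z ∈ V ⊓ center G := ⟨hCV hzC, hzc⟩
      rw [hVZ] at this
      exact hzN this
    · have hVN : V ≤ N := by rw [← h]; exact inf_le_right
      rcases hsimple N hN hVN with h1 | h1
      · subst h1
        -- E = comap of zpowers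
        set π := QuotientGroup.mk' N
        have hcz : ∀ g, π g * π z = π z * π g := by
          intro g
          have h2 := hc g
          rw [← QuotientGroup.eq_one_iff] at h2
          have h3 : π (z * g * z⁻¹ * g⁻¹) = 1 := h2
          have h4 : π (g * z) = π (z * g) := by
            have : g * z = (z * g * z⁻¹ * g⁻¹)⁻¹ * (z * g) := by group
            rw [this, map_mul, map_inv, h3, inv_one, one_mul]
          simpa only [map_mul] using h4
        have hEn : ((zpowers (π z)).comap π).Normal := by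
          apply Subgroup.Normal.comap
          constructor
          intro y hy x
          obtain ⟨g, rfl⟩ := QuotientGroup.mk'_surjective N x
          obtain ⟨k, rfl⟩ := Subgroup.mem_zpowers_iff.1 hy
          have hcomm : Commute (π g) (π z) := hcz g
          have : π g * π z ^ k * (π g)⁻¹ = π z ^ k := by
            rw [(hcomm.zpow_right k).eq]; group
          rw [this]
          exact hy
        have hVE : N ≤ (zpowers (π z)).comap π := by
          intro v hv
          show π v ∈ zpowers (π z)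
          have : π v = 1 := (QuotientGroup.eq_one_iff v).2 hv
          rw [this]; exact one_mem _
        rcases hsimple _ hEn hVE with h2 | h2
        · apply hzN
          rw [← h2]
          exact Subgroup.mem_zpowers (π z)
        · have hpz : π z ^ p = 1 := by
            rw [← map_pow]
            exact (QuotientGroup.eq_one_iff _).2 hz
          have hpg : IsPGroup p G := by
            intro g
            refine ⟨2, ?_⟩
            have hg : g ∈ (zpowers (π z)).comap π := by rw [h2]; exact Subgroup.mem_top g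
            obtain ⟨k, hk⟩ := Subgroup.mem_zpowers_iff.1 hg
            have h3 : g ^ p ∈ N := by
              rw [← QuotientGroup.eq_one_iff]
              show π (g ^ p) = 1
              rw [map_pow, ← hk, ← zpow_natCast, ← zpow_mul, mul_comm, zpow_mul, zpow_natCast, hpz,
                one_zpow]
            rw [pow_two, pow_mul]
            exact hpV _ h3
          haveI : Fact p.Prime := ⟨hp⟩
          haveI : Nontrivial G := by
            by_contra hnt
            rw [not_nontrivial_iff_subsingleton] at hnt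
            exact hzN (by rw [Subsingleton.elim z 1]; exact N.one_mem)
          have hz0 := hpg.bot_lt_center
          exact hz0.ne' (hmeet _ inferInstance hVZ)
      · exact hzN (by rw [h1]; exact Subgroup.mem_top z)
  have hVF := hP (NoCentral F p) (noCentral_isFormation hF p) (fun _ _ h => h.1) G V hVn hNC
  apply hV.2.1
  rw [eq_bot_iff]
  intro v hv
  have := hVF.2 ⊥ inferInstance ⟨v, hv⟩ (by
    rw [Subgroup.mem_bot]
    exact Subtype.ext (hpV v hv)) (by
    rintro ⟨h, hh⟩
    rw [Subgroup.mem_bot]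
    apply Subtype.ext
    show v * h * v⁻¹ * h⁻¹ = 1
    rw [hab v hv h hh]
    group)
  rw [Subgroup.mem_bot] at this ⊢
  exact congrArg Subtype.val this

end Pool.Agent.H198R3.Form
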