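import Pool.Agent.H198R3.Form5

set_option autoImplicit false

namespace Pool.Agent.H198R3.Form

open Subgroup

variable {F : GroupClass}

/-- `G` has no nontrivial abelian normal section `L / K` with `K, L` normal in `G`; for finite
groups: `G` has no abelian chief factor. -/
def NoAb (G : Type) [Group G] : Prop :=
  ∀ K L : Subgroup G, K.Normal → L.Normal → (∀ a ∈ L, ∀ b ∈ L, a * b * a⁻¹ * b⁻¹ ∈ K) → L ≤ K

theorem NoAb.of_surj {G H : Type} [Group G] [Group H] (f : G →* H)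
    (hf : Function.Surjective f) (h : NoAb G) : NoAb H := by
  intro K L hK hL hab x hx
  obtain ⟨g, rfl⟩ := hf x
  have := h (K.comap f) (L.comap f) (hK.comap f) (hL.comap f) (by
    intro a ha b hb
    show f (a * b * a⁻¹ * b⁻¹) ∈ K
    simp only [map_mul, map_inv]
    exact hab _ ha _ hb) hx
  exact this

/-- `NoAb` of a quotient in terms of the group -/
theorem NoAb.use {G : Type} [Group G] (N : Subgroup G) [N.Normal] (h : NoAb (G ⧸ N))
    (K L : Subgroup G) (hK : K.Normal) (hL : L.Normal)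
    (hab : ∀ a ∈ L, ∀ b ∈ L, a * b * a⁻¹ * b⁻¹ ∈ K ⊔ N) : L ≤ K ⊔ N := by
  have hcm : ∀ A : Subgroup G, (A.map (QuotientGroup.mk' N)).comap (QuotientGroup.mk' N) = A ⊔ N := by
    intro A; rw [Subgroup.comap_map_eq, QuotientGroup.ker_mk']
  have h1 := h (K.map (QuotientGroup.mk' N)) (L.map (QuotientGroup.mk' N))
    (hK.map _ (QuotientGroup.mk'_surjective N)) (hL.map _ (QuotientGroup.mk'_surjective N)) (by
    rintro _ ⟨a, ha, rfl⟩ _ ⟨b, hb, rfl⟩
    have h2 := hab a ha b hb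
    rw [← hcm] at h2
    have h3 : QuotientGroup.mk' N (a * b * a⁻¹ * b⁻¹) ∈ K.map (QuotientGroup.mk' N) := h2
    simpa only [map_mul, map_inv] using h3)
  intro x hx
  rw [← hcm]
  exact h1 (Subgroup.mem_map_of_mem _ hx)

theorem noAb_inf {G : Type} [Group G] (N₁ N₂ : Subgroup G) [N₁.Normal] [N₂.Normal]
    (h₁ : NoAb (G ⧸ N₁)) (h₂ : NoAb (G ⧸ N₂)) : NoAb (G ⧸ (N₁ ⊓ N₂)) := by
  intro K' L' hK' hL' hab
  set π := QuotientGroup.mk' (N₁ ⊓ N₂) with hπ
  set K : Subgroup G := K'.comap π with hK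
  set L : Subgroup G := L'.comap π with hL
  have hKn : K.Normal := hK'.comap _
  have hLn : L.Normal := hL'.comap _
  have hle : N₁ ⊓ N₂ ≤ K := by
    intro x hx
    show π x ∈ K'
    have h1 : π x = 1 := (QuotientGroup.eq_one_iff x).2 hx
    rw [h1]; exact K'.one_mem
  have hab' : ∀ a ∈ L, ∀ b ∈ L, a * b * a⁻¹ * b⁻¹ ∈ K := by
    intro a ha b hb
    show π (a * b * a⁻¹ * b⁻¹) ∈ K'
    simp only [map_mul, map_inv]
    exact hab _ ha _ hb
  suffices hs : L ≤ K by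
    intro x hx
    obtain ⟨x, rfl⟩ := QuotientGroup.mk'_surjective (N₁ ⊓ N₂) x
    exact hs hx
  have h3 := NoAb.use N₁ h₁ K L hKn hLn (fun a ha b hb => le_sup_left (a := K) (hab' a ha b hb))
  have h4 := NoAb.use N₂ h₂ (K ⊓ N₁) ((L ⊔ K) ⊓ N₁) inferInstance inferInstance (by
    intro a ha b hb
    refine le_sup_left (a := K ⊓ N₁) ⟨?_, ?_⟩
    · -- commutator of elements of L ⊔ K lies in K
      have hm : ∀ x ∈ L ⊔ K, ∃ l ∈ L, π x * (π l)⁻¹ ∈ K' := by
        intro x hx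
        obtain ⟨l, hl, k, hk, rfl⟩ := Subgroup.mem_sup_of_normal_right.1 hx
        refine ⟨l, hl, ?_⟩
        rw [← map_inv, ← map_mul]
        exact hKn.conj_mem k hk l
      obtain ⟨l, hl, hl'⟩ := hm a ha.1
      obtain ⟨l₂, hl₂, hl₂'⟩ := hm b hb.1
      have e1 : QuotientGroup.mk' K' (π a) = QuotientGroup.mk' K' (π l) := by
        rw [← mul_inv_eq_one, ← map_inv, ← map_mul]
        exact (QuotientGroup.eq_one_iff _).2 hl'
      have e2 : QuotientGroup.mk' K' (π b) = QuotientGroup.mk' K' (π l₂) := by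
        rw [← mul_inv_eq_one, ← map_inv, ← map_mul]
        exact (QuotientGroup.eq_one_iff _).2 hl₂'
      show π (a * b * a⁻¹ * b⁻¹) ∈ K'
      rw [← QuotientGroup.eq_one_iff]
      have h5 : QuotientGroup.mk' K' (π (l * l₂ * l⁻¹ * l₂⁻¹)) = 1 :=
        (QuotientGroup.eq_one_iff _).2 (hab' l hl l₂ hl₂)
      show QuotientGroup.mk' K' (π (a * b * a⁻¹ * b⁻¹)) = 1
      simp only [map_mul, map_inv] at h5 ⊢
      rw [e1, e2]
      exact h5
    · have : a * b * a⁻¹ * b⁻¹ = a * (b * a⁻¹ * b⁻¹) := by group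
      rw [this]
      exact N₁.mul_mem ha.2 ((inferInstance : N₁.Normal).conj_mem _ (N₁.inv_mem ha.2) b))
  intro x hx
  obtain ⟨k, hk, n, hn, rfl⟩ := Subgroup.mem_sup_of_normal_right.1 (h3 hx)
  have hnL : n ∈ (L ⊔ K) ⊓ N₁ := by
    refine ⟨?_, hn⟩
    have : n = k⁻¹ * (k * n) := by group
    rw [this]
    exact (L ⊔ K).mul_mem ((L ⊔ K).inv_mem (le_sup_right (a := L) hk)) (le_sup_left (a := L) hx)
  obtain ⟨a, ha, b, hb, hab2⟩ := Subgroup.mem_sup_of_normal_right.1 (h4 hnL)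
  have hb1 : b ∈ N₁ := by
    have : b = a⁻¹ * n := by rw [← hab2]; group
    rw [this]; exact N₁.mul_mem (N₁.inv_mem ha.2) hn
  have : n ∈ K := by rw [← hab2]; exact K.mul_mem ha.1 (hle ⟨hb1, hb⟩)
  exact K.mul_mem hk this

/-- groups of `F` without abelian chief factors -/
def NoAbF (F : GroupClass) : GroupClass := fun H _ => F H ∧ NoAb H

theorem noAbF_isFormation (hF : IsFormation F) : IsFormation (NoAbF F) := by
  refine ⟨fun G _ h => hF.finite G h.1, ?_, ?_, ?_⟩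
  · rintro G H _ _ e ⟨h1, h2⟩
    exact ⟨hF.iso G H e h1, NoAb.of_surj e.toMonoidHom e.surjective h2⟩
  · rintro G _ N hN ⟨h1, h2⟩
    exact ⟨hF.quot G N h1, NoAb.of_surj _ (QuotientGroup.mk'_surjective N) h2⟩
  · rintro G _ _ N₁ N₂ hN₁ hN₂ ⟨h1, h1'⟩ ⟨h2, h2'⟩
    exact ⟨hF.subdirect G N₁ N₂ h1 h2, noAb_inf N₁ N₂ h1' h2'⟩

/-- A nontrivial finite perfect group has a nonabelian simple quotient. -/
theorem exists_simple_quot (W : Type) [Group W] [Finite W] [Nontrivial W]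
    (hperf : commutator W = ⊤) : ∃ K : Subgroup W, ∃ _ : K.Normal, K ≠ ⊤ ∧
      ∀ U : Subgroup W, U.Normal → K ≤ U → U = K ∨ U = ⊤ := by
  obtain ⟨K, ⟨hKn, hKt⟩, hmax⟩ := WellFounded.has_min
    (wellFounded_gt : WellFounded (fun a b : Subgroup W => a > b))
    {K : Subgroup W | K.Normal ∧ K ≠ ⊤} ⟨⊥, inferInstance, bot_ne_top⟩
  refine ⟨K, hKn, hKt, fun U hU hKU => ?_⟩
  by_contra hcon
  push Not at hcon
  exact hmax U ⟨hU, hcon.2⟩ (lt_of_le_of_ne hKU hcon.1.symm)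

end Pool.Agent.H198R3.Form
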