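import Pool.Agent.H198R3.Form6

set_option autoImplicit false

namespace Pool.Agent.H198R3.Form

open Subgroup

variable {F : GroupClass}

/-- no nontrivial abelian normal subgroup -/
def NoAbNormal (G : Type) [Group G] : Prop :=
  ∀ A : Subgroup G, A.Normal → (∀ a ∈ A, ∀ b ∈ A, a * b = b * a) → A = ⊥

theorem noAb_of_mono {Y : Type} [Group Y] (W : Subgroup Y) (hWn : W.Normal)
    (hWab : ¬ ∀ a ∈ W, ∀ b ∈ W, a * b = b * a)
    (hWm : ∀ U : Subgroup Y, U.Normal → U ≠ ⊥ → W ≤ U) (h : NoAb (Y ⧸ W)) : NoAb Y := by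
  intro K L hK hL hab
  by_cases hKb : K = ⊥
  · by_cases hLb : L = ⊥
    · rw [hLb]; exact bot_le
    · exfalso
      apply hWab
      intro a ha b hb
      have h1 := hab a (hWm L hL hLb ha) b (hWm L hL hLb hb)
      rw [hKb, Subgroup.mem_bot] at h1
      calc a * b = (a * b * a⁻¹ * b⁻¹) * (b * a) := by group
        _ = b * a := by rw [h1, one_mul]
  · have hWK := hWm K hK hKb
    have := NoAb.use W h K L hK hL (fun a ha b hb => le_sup_left (a := K) (hab a ha b hb))
    rwa [sup_eq_left.2 hWK] at this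

/-- the case where `Y / W` is abelian -/
theorem not_abelian_top (hF : IsFormation F) (hP : AllSubSnClosed F) {Y : Type} [Group Y]
    [Finite Y] (hY : F Y) (W : Subgroup Y) (hWn : W.Normal)
    (hWab : ¬ ∀ a ∈ W, ∀ b ∈ W, a * b = b * a)
    (hWm : ∀ U : Subgroup Y, U.Normal → U ≠ ⊥ → W ≤ U) (hWt : W ≠ ⊤)
    (hab : ∀ a b : Y, a * b * a⁻¹ * b⁻¹ ∈ W) : False := by
  have hWb : W ≠ ⊥ := by
    rintro rfl
    apply hWab
    intro a ha b hb
    rw [Subgroup.mem_bot] at ha hb
    rw [ha, hb]
  have hnt : Nontrivial W := (Subgroup.nontrivial_iff_ne_bot W).2 hWb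
  have hperf : commutator W = ⊤ := by
    have h1 : W ≤ (commutator W).map W.subtype := by
      apply hWm _ inferInstance
      intro h
      have h2 := (Subgroup.map_eq_bot_iff_of_injective _ W.subtype_injective).1 h
      apply hWab
      intro a ha b hb
      have h3 : (⟨a, ha⟩ * ⟨b, hb⟩ * ⟨a, ha⟩⁻¹ * ⟨b, hb⟩⁻¹ : W) ∈ commutator W :=
        Subgroup.commutator_mem_commutator (Subgroup.mem_top (⟨a, ha⟩ : W))
          (Subgroup.mem_top (⟨b, hb⟩ : W))
      rw [h2, Subgroup.mem_bot] at h3
      have h4 : a * b * a⁻¹ * b⁻¹ = 1 := congrArg Subtype.val h3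
      calc a * b = (a * b * a⁻¹ * b⁻¹) * (b * a) := by group
        _ = b * a := by rw [h4, one_mul]
    rw [eq_top_iff]
    intro x _
    obtain ⟨y, hy, hxy⟩ := h1 x.2
    have : y = x := Subtype.ext hxy
    rw [← this]; exact hy
  obtain ⟨K, hKn, hKt, hKmax⟩ := exists_simple_quot W hperf
  have hRab : ¬ ∀ a b : W ⧸ K, a * b = b * a := by
    intro hc
    apply hKt
    rw [← top_le_iff, ← hperf, commutator_def, Subgroup.commutator_le]
    intro a _ b _
    have h1 := hc (QuotientGroup.mk' K a) (QuotientGroup.mk' K b)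
    have h2 : QuotientGroup.mk' K (a * b * a⁻¹ * b⁻¹) = 1 := by
      simp only [map_mul, map_inv]
      rw [h1]; group
    exact (QuotientGroup.eq_one_iff _).1 h2
  have hR : NonabelianMonolith (W ⧸ K) := by
    refine ⟨⊤, inferInstance, ?_, ?_⟩
    · intro hc
      exact hRab (fun a b => hc a (Subgroup.mem_top a) b (Subgroup.mem_top b))
    · intro U hU hUb
      have hle : K ≤ U.comap (QuotientGroup.mk' K) := by
        intro k hk
        show QuotientGroup.mk' K k ∈ U
        have : QuotientGroup.mk' K k = 1 := (QuotientGroup.eq_one_iff k).2 hk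
        rw [this]; exact U.one_mem
      rcases hKmax _ (hU.comap _) hle with h | h
      · exfalso
        apply hUb
        rw [eq_bot_iff]
        intro u hu
        obtain ⟨y, rfl⟩ := QuotientGroup.mk'_surjective K u
        have : y ∈ K := by rw [← h]; exact hu
        exact Subgroup.mem_bot.2 ((QuotientGroup.eq_one_iff y).2 this)
      · intro u _
        obtain ⟨y, rfl⟩ := QuotientGroup.mk'_surjective K u
        have : y ∈ U.comap (QuotientGroup.mk' K) := by rw [h]; exact Subgroup.mem_top y
        exact this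
  obtain ⟨g, hg⟩ := quotient_of_normal hF hP Y hY W hWn (W ⧸ K) hR (QuotientGroup.mk' K)
    (QuotientGroup.mk'_surjective K)
  by_cases hk : g.ker = ⊥
  · have hinj : Function.Injective g := (MonoidHom.ker_eq_bot_iff g).1 hk
    have h1 : Nat.card Y ≤ Nat.card (W ⧸ K) := Nat.card_le_card_of_injective g hinj
    have h2 : Nat.card (W ⧸ K) ≤ Nat.card W :=
      Nat.card_le_card_of_surjective _ (QuotientGroup.mk'_surjective K)
    exact hWt (Subgroup.eq_top_of_le_card W (h1.trans h2))
  · have hle := hWm _ inferInstance hk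
    apply hRab
    intro a b
    obtain ⟨x, rfl⟩ := hg a
    obtain ⟨y, rfl⟩ := hg b
    have h3 : g (x * y * x⁻¹ * y⁻¹) = 1 := hle (hab x y)
    simp only [map_mul, map_inv] at h3
    calc g x * g y = (g x * g y * (g x)⁻¹ * (g y)⁻¹) * (g y * g x) := by group
      _ = g y * g x := by rw [h3, one_mul]

theorem main_noAb (hF : IsFormation F) (hP : AllSubSnClosed F) :
    ∀ (n : ℕ) (H : Type) [Group H], F H → Nat.card H = n → NoAbNormal H → NoAb H := by
  intro n
  induction n using Nat.strong_induction_on with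
  | _ n ih =>
  intro H _ hH hn hno
  have hfin : Finite H := hF.finite H hH
  -- monolithic case
  have mono : ∀ (Y : Type) [Group Y] (W : Subgroup Y), F Y → Nat.card Y ≤ n → W.Normal →
      (¬ ∀ a ∈ W, ∀ b ∈ W, a * b = b * a) →
      (∀ U : Subgroup Y, U.Normal → U ≠ ⊥ → W ≤ U) → NoAb Y := by
    intro Y _ W hY hcard hWn hWab hWm
    have hfY : Finite Y := hF.finite Y hY
    have hWb : W ≠ ⊥ := by
      rintro rfl
      apply hWab
      intro a ha b hb
      rw [Subgroup.mem_bot] at ha hb
      rw [ha, hb]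
    apply noAb_of_mono W hWn hWab hWm
    have hlt : Nat.card (Y ⧸ W) < n := by
      refine lt_of_lt_of_le ?_ hcard
      rw [Subgroup.card_eq_card_quotient_mul_card_subgroup W]
      have h1 : 1 < Nat.card W := by
        rw [Subgroup.one_lt_card_iff_ne_bot]; exact hWb
      have h2 : 0 < Nat.card (Y ⧸ W) := Nat.card_pos
      nlinarith
    refine ih _ hlt (Y ⧸ W) (hF.quot Y W hY) rfl ?_
    intro A hA hAab
    by_contra hAb
    set K : Subgroup Y := A.comap (QuotientGroup.mk' W) with hKdef
    have hKn : K.Normal := hA.comap _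
    have hWK : W ≤ K := by
      intro w hw
      show QuotientGroup.mk' W w ∈ A
      have : QuotientGroup.mk' W w = 1 := (QuotientGroup.eq_one_iff w).2 hw
      rw [this]; exact A.one_mem
    have hKW : ¬ K ≤ W := by
      intro h
      apply hAb
      rw [eq_bot_iff]
      intro u hu
      obtain ⟨y, rfl⟩ := QuotientGroup.mk'_surjective W u
      exact Subgroup.mem_bot.2 ((QuotientGroup.eq_one_iff y).2 (h hu))
    have hKc : ∀ a ∈ K, ∀ b ∈ K, a * b * a⁻¹ * b⁻¹ ∈ W := by
      intro a ha b hb
      have h1 := hAab _ ha _ hb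
      have h2 : QuotientGroup.mk' W (a * b * a⁻¹ * b⁻¹) = 1 := by
        simp only [map_mul, map_inv]
        rw [h1]; group
      exact (QuotientGroup.eq_one_iff _).1 h2
    by_cases hKt : K = ⊤
    · refine not_abelian_top hF hP hY W hWn hWab hWm ?_ ?_
      · rintro rfl; exact hKW le_top
      · intro a b
        exact hKc a (by rw [hKt]; exact Subgroup.mem_top a) b (by rw [hKt]; exact Subgroup.mem_top b)
    · have hFK : F K := hP F hF (fun _ _ h => h) Y K hKn hY
      have hcK : Nat.card K < n := by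
        refine lt_of_lt_of_le (lt_of_le_of_ne
          (Nat.card_le_card_of_injective _ K.subtype_injective) ?_) hcard
        intro h
        exact hKt (Subgroup.eq_top_of_card_eq K h)
      have hnoK : NoAbNormal K := by
        intro B hB hBab
        by_contra hBb
        obtain ⟨B', hB', hB'm⟩ := exists_minNormal B hB hBb
        have hBc := core hF hP _ K hFK rfl B' hB'm (fun a ha b hb => hBab a (hB' ha) b (hB' hb))
        have hZ : (center K).map K.subtype ≠ ⊥ := by
          intro h
          have h2 := (Subgroup.map_eq_bot_iff_of_injective _ K.subtype_injective).1 h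
          exact hB'm.2.1 (le_bot_iff.1 (h2 ▸ hBc))
        have hW := hWm _ inferInstance hZ
        apply hWab
        intro a ha b hb
        obtain ⟨z, hz, rfl⟩ := hW ha
        have := (Subgroup.mem_center_iff.1 hz) ⟨b, hWK hb⟩
        exact (congrArg Subtype.val this).symm
      have hNK := ih _ hcK K hFK rfl hnoK
      have h1 := hNK (W.subgroupOf K) ⊤ (hWn.subgroupOf K) inferInstance
        (fun a _ b _ => hKc a a.2 b b.2)
      exact hKW (fun x hx => h1 (Subgroup.mem_top ⟨x, hx⟩))
  -- the general case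
  have h0 : NoAbF F (H ⧸ (⊤ : Subgroup H)) := by
    refine ⟨hF.quot H ⊤ hH, ?_⟩
    haveI : Subsingleton (H ⧸ (⊤ : Subgroup H)) := QuotientGroup.subsingleton_quotient_top
    intro K L _ _ _ x _
    rw [Subsingleton.elim x 1]; exact K.one_mem
  obtain ⟨K₀, hK₀n, hK₀, hleast⟩ := exists_least (noAbF_isFormation hF) H h0
  by_cases hne : K₀ = ⊥
  · exact (mem_of_bot (noAbF_isFormation hF) H K₀ hne hK₀).2
  exfalso
  obtain ⟨M, hMK, hM⟩ := exists_minNormal K₀ hK₀n hne
  have hMn := hM.1
  have hMab : ¬ ∀ a ∈ M, ∀ b ∈ M, a * b = b * a := fun h => hM.2.1 (hno M hMn h)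
  set C : Subgroup H := centralizer (M : Set H) with hC
  have hCn : C.Normal := inferInstance
  have hmemC : ∀ g, g ∈ C ↔ ∀ v ∈ M, v * g = g * v := fun g => mem_centralizer_iff
  have hCM : C ⊓ M = ⊥ := by
    apply hno _ inferInstance
    intro a ha b hb
    exact ((hmemC b).1 hb.1 a ha.2)
  have hYC : NoAb (H ⧸ C) := by
    refine mono (H ⧸ C) (M.map (QuotientGroup.mk' C)) (hF.quot H C hH) ?_
      (hMn.map _ (QuotientGroup.mk'_surjective C)) ?_ ?_
    · rw [← hn]
      exact Nat.card_le_card_of_surjective _ (QuotientGroup.mk'_surjective C)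
    · intro h
      apply hMab
      intro a ha b hb
      have h1 := h _ (Subgroup.mem_map_of_mem _ ha) _ (Subgroup.mem_map_of_mem _ hb)
      have h2 : QuotientGroup.mk' C (a * b * a⁻¹ * b⁻¹) = 1 := by
        simp only [map_mul, map_inv]
        rw [h1]; group
      have h3 : a * b * a⁻¹ * b⁻¹ ∈ C ⊓ M :=
        ⟨(QuotientGroup.eq_one_iff _).1 h2,
          M.mul_mem (M.mul_mem (M.mul_mem ha hb) (M.inv_mem ha)) (M.inv_mem hb)⟩
      rw [hCM, Subgroup.mem_bot] at h3
      calc a * b = (a * b * a⁻¹ * b⁻¹) * (b * a) := by group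
        _ = b * a := by rw [h3, one_mul]
    · intro U hU hUb
      have hUn : (U.comap (QuotientGroup.mk' C)).Normal := hU.comap _
      rcases hM.2.2 (U.comap (QuotientGroup.mk' C) ⊓ M) inferInstance inf_le_right with h | h
      · exfalso
        apply hUb
        rw [eq_bot_iff]
        intro u hu
        obtain ⟨y, rfl⟩ := QuotientGroup.mk'_surjective C u
        refine Subgroup.mem_bot.2 ((QuotientGroup.eq_one_iff y).2 ?_)
        rw [hmemC]
        intro v hv
        have h3 : v * y * v⁻¹ * y⁻¹ ∈ U.comap (QuotientGroup.mk' C) ⊓ M := by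
          refine ⟨?_, ?_⟩
          · exact (U.comap (QuotientGroup.mk' C)).mul_mem (hUn.conj_mem y hu v)
              ((U.comap (QuotientGroup.mk' C)).inv_mem hu)
          · have : v * y * v⁻¹ * y⁻¹ = v * (y * v⁻¹ * y⁻¹) := by group
            rw [this]
            exact M.mul_mem hv (hMn.conj_mem _ (M.inv_mem hv) y)
        rw [h, Subgroup.mem_bot] at h3
        calc v * y = (v * y * v⁻¹ * y⁻¹) * (y * v) := by group
          _ = y * v := by rw [h3, one_mul]
      · rw [Subgroup.map_le_iff_le_comap, ← h]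
        exact inf_le_left
  have hle := hleast C ⟨hF.quot H C hH, hYC⟩
  apply hMab
  intro a ha b hb
  exact ((hmemC b).1 (hle (hMK hb)) a ha)

/-- **(S)** For `G ∈ F`, some `G / Z_m(G)` has no abelian chief factors. -/
theorem structure_thm (hF : IsFormation F) (hP : AllSubSnClosed F) (G : Type) [Group G]
    (hG : F G) : ∃ m : ℕ, NoAb (G ⧸ Subgroup.upperCentralSeries G m) := by
  have hfin : Finite G := hF.finite G hG
  obtain ⟨m, hm⟩ := WellFoundedGT.monotone_chain_condition
    (⟨Subgroup.upperCentralSeries G, Subgroup.upperCentralSeries_mono G⟩ : ℕ →o Subgroup G)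
  have hstep : Subgroup.upperCentralSeries G (m + 1) = Subgroup.upperCentralSeries G m :=
    (hm (m + 1) (Nat.le_succ m)).symm
  refine ⟨m, main_noAb hF hP _ (G ⧸ Subgroup.upperCentralSeries G m) (hF.quot _ _ hG) rfl ?_⟩
  intro A hA hAab
  by_contra hAb
  obtain ⟨B, hBA, hB⟩ := exists_minNormal A hA hAb
  have hBc := core hF hP _ (G ⧸ Subgroup.upperCentralSeries G m) (hF.quot _ _ hG) rfl B hB
    (fun a ha b hb => hAab a (hBA ha) b (hBA hb))
  apply hB.2.1
  rw [eq_bot_iff]
  intro z hz
  have hz' := hBc hz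
  obtain ⟨g, rfl⟩ := QuotientGroup.mk'_surjective _ z
  have h1 : g ∈ Subgroup.upperCentralSeries G (m + 1) := by
    have h2 := Subgroup.upperCentralSeriesStep_eq_comap_center (Subgroup.upperCentralSeries G m)
    have h3 : Subgroup.upperCentralSeries G (m + 1) =
      Subgroup.upperCentralSeriesStep (Subgroup.upperCentralSeries G m) := rfl
    rw [h3, h2]
    exact hz'
  rw [hstep] at h1
  exact Subgroup.mem_bot.2 ((QuotientGroup.eq_one_iff g).2 h1)

end Pool.Agent.H198R3.Form
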