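import Pool.Agent.H198R3.Form7

set_option autoImplicit false

namespace Pool.Agent.H198R3.Form

open Subgroup

variable {F : GroupClass}

theorem comm_sup {X : Type} [Group X] (K L : Subgroup X) (hK : K.Normal)
    (hab : ∀ a ∈ L, ∀ b ∈ L, a * b * a⁻¹ * b⁻¹ ∈ K) :
    ∀ a ∈ L ⊔ K, ∀ b ∈ L ⊔ K, a * b * a⁻¹ * b⁻¹ ∈ K := by
  have hm : ∀ x ∈ L ⊔ K, ∃ l ∈ L, QuotientGroup.mk' K x = QuotientGroup.mk' K l := by
    intro x hx
    obtain ⟨l, hl, k, hk, rfl⟩ := Subgroup.mem_sup_of_normal_right.1 hx
    refine ⟨l, hl, ?_⟩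
    rw [map_mul, show QuotientGroup.mk' K k = 1 from (QuotientGroup.eq_one_iff k).2 hk, mul_one]
  intro a ha b hb
  obtain ⟨l, hl, e1⟩ := hm a ha
  obtain ⟨l₂, hl₂, e2⟩ := hm b hb
  have h5 : QuotientGroup.mk' K (l * l₂ * l⁻¹ * l₂⁻¹) = 1 :=
    (QuotientGroup.eq_one_iff _).2 (hab l hl l₂ hl₂)
  have h6 : QuotientGroup.mk' K (a * b * a⁻¹ * b⁻¹) = 1 := by
    simp only [map_mul, map_inv] at h5 ⊢
    rw [e1, e2]
    exact h5
  exact (QuotientGroup.eq_one_iff _).1 h6

/-- extensions -/
theorem noAb_ext {X : Type} [Group X] (Z : Subgroup X) [hZ : Z.Normal] (h1 : NoAb Z)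
    (h2 : NoAb (X ⧸ Z)) : NoAb X := by
  intro K L hK hL hab
  have h3 := NoAb.use Z h2 K L hK hL (fun a ha b hb => le_sup_left (a := K) (hab a ha b hb))
  have hc := comm_sup K L hK hab
  intro x hx
  obtain ⟨k, hk, z, hz, rfl⟩ := Subgroup.mem_sup_of_normal_right.1 (h3 hx)
  have hzL : z ∈ L ⊔ K := by
    have : z = k⁻¹ * (k * z) := by group
    rw [this]
    exact (L ⊔ K).mul_mem ((L ⊔ K).inv_mem (le_sup_right (a := L) hk)) (le_sup_left (a := L) hx)
  have h4 := h1 (K.subgroupOf Z) ((L ⊔ K).subgroupOf Z) (hK.subgroupOf Z)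
    ((inferInstance : (L ⊔ K).Normal).subgroupOf Z)
    (fun a ha b hb => hc a ha b hb)
  have h5 : z ∈ K := h4 (show (⟨z, hz⟩ : Z) ∈ (L ⊔ K).subgroupOf Z from hzL)
  exact K.mul_mem hk h5

/-- the class of all finite groups -/
def finF : GroupClass := fun H _ => Finite H

theorem finF_isFormation : IsFormation finF := by
  refine ⟨fun G _ h => h, ?_, ?_, ?_⟩
  · intro G H _ _ e h
    haveI : Finite G := h
    exact Finite.of_equiv G e.toEquiv
  · intro G _ N _ h
    haveI : Finite G := h
    exact (inferInstance : Finite (G ⧸ N))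
  · intro G _ _ N₁ N₂ _ _ _ _
    exact (inferInstance : Finite (G ⧸ (N₁ ⊓ N₂)))

/-- the `NoAb`-residual -/
theorem exists_residual (W : Type) [Group W] [Finite W] : ∃ K₀ : Subgroup W, ∃ _ : K₀.Normal,
    NoAb (W ⧸ K₀) ∧ K₀.Characteristic ∧ ∀ (K : Subgroup W) [K.Normal], NoAb (W ⧸ K) → K₀ ≤ K := by
  have hFF := noAbF_isFormation finF_isFormation
  have h0 : NoAbF finF (W ⧸ (⊤ : Subgroup W)) := by
    refine ⟨(inferInstance : Finite (W ⧸ (⊤ : Subgroup W))), ?_⟩
    haveI : Subsingleton (W ⧸ (⊤ : Subgroup W)) := QuotientGroup.subsingleton_quotient_top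
    intro K L _ _ _ x _
    rw [Subsingleton.elim x 1]; exact K.one_mem
  obtain ⟨K₀, hK₀n, hK₀, hleast⟩ := exists_least hFF W h0
  refine ⟨K₀, hK₀n, hK₀.2, ?_, ?_⟩
  · rw [Subgroup.characteristic_iff_le_comap]
    intro φ
    let f : W →* W ⧸ K₀ := (QuotientGroup.mk' K₀).comp φ.toMonoidHom
    have hf : Function.Surjective f := (QuotientGroup.mk'_surjective K₀).comp φ.surjective
    have h1 := hleast f.ker (hFF.to_quot f hf hK₀)
    intro x hx
    have h2 : QuotientGroup.mk' K₀ (φ x) = 1 := h1 hx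
    show φ x ∈ K₀
    exact (QuotientGroup.eq_one_iff (φ x)).1 h2
  · intro K _ hK
    exact hleast K ⟨(inferInstance : Finite (W ⧸ K)), hK⟩

/-- a nonabelian minimal normal subgroup has no abelian chief factors -/
theorem noAb_minNormal {X : Type} [Group X] [Finite X] (W : Subgroup X) (hW : IsMinNormal W)
    (hWab : ¬ ∀ a ∈ W, ∀ b ∈ W, a * b = b * a) : NoAb W := by
  have hWn := hW.1
  have hnt : Nontrivial W := (Subgroup.nontrivial_iff_ne_bot W).2 hW.2.1
  have hchar : ∀ U : Subgroup W, U.Characteristic → U = ⊥ ∨ U = ⊤ := by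
    intro U hU
    rcases hW.2.2 (U.map W.subtype) inferInstance (by rintro _ ⟨x, -, rfl⟩; exact x.2) with h | h
    · left; exact (Subgroup.map_eq_bot_iff_of_injective _ W.subtype_injective).1 h
    · right
      rw [eq_top_iff]
      intro x _
      have h2 : (x : X) ∈ U.map W.subtype := by rw [h]; exact x.2
      obtain ⟨y, hy, hxy⟩ := h2
      have : y = x := Subtype.ext hxy
      rw [← this]; exact hy
  have hperf : commutator W = ⊤ := by
    rcases hchar (commutator W) inferInstance with h | h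
    · exfalso
      apply hWab
      intro a ha b hb
      have h3 : (⟨a, ha⟩ * ⟨b, hb⟩ * ⟨a, ha⟩⁻¹ * ⟨b, hb⟩⁻¹ : W) ∈ commutator W :=
        Subgroup.commutator_mem_commutator (Subgroup.mem_top (⟨a, ha⟩ : W))
          (Subgroup.mem_top (⟨b, hb⟩ : W))
      rw [h, Subgroup.mem_bot] at h3
      have h4 : a * b * a⁻¹ * b⁻¹ = 1 := congrArg Subtype.val h3
      calc a * b = (a * b * a⁻¹ * b⁻¹) * (b * a) := by group
        _ = b * a := by rw [h4, one_mul]
    · exact h
  obtain ⟨K, hKn, hKt, hKmax⟩ := exists_simple_quot W hperf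
  have hno : NoAb (W ⧸ K) := by
    intro A B hA hB hab
    have hsim : ∀ U : Subgroup (W ⧸ K), U.Normal → U = ⊥ ∨ U = ⊤ := by
      intro U hU
      have hle : K ≤ U.comap (QuotientGroup.mk' K) := by
        intro k hk
        show QuotientGroup.mk' K k ∈ U
        have : QuotientGroup.mk' K k = 1 := (QuotientGroup.eq_one_iff k).2 hk
        rw [this]; exact U.one_mem
      rcases hKmax _ (hU.comap _) hle with h | h
      · left
        rw [eq_bot_iff]
        intro u hu
        obtain ⟨y, rfl⟩ := QuotientGroup.mk'_surjective K u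
        have : y ∈ K := by rw [← h]; exact hu
        exact Subgroup.mem_bot.2 ((QuotientGroup.eq_one_iff y).2 this)
      · right
        rw [eq_top_iff]
        intro u _
        obtain ⟨y, rfl⟩ := QuotientGroup.mk'_surjective K u
        have : y ∈ U.comap (QuotientGroup.mk' K) := by rw [h]; exact Subgroup.mem_top y
        exact this
    rcases hsim A hA with h | h
    · rcases hsim B hB with h' | h'
      · rw [h']; exact bot_le
      · exfalso
        apply hKt
        rw [← top_le_iff, ← hperf, commutator_def, Subgroup.commutator_le]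
        intro a _ b _
        have h1 := hab (QuotientGroup.mk' K a) (by rw [h']; exact Subgroup.mem_top _)
          (QuotientGroup.mk' K b) (by rw [h']; exact Subgroup.mem_top _)
        rw [h, Subgroup.mem_bot] at h1
        have h2 : QuotientGroup.mk' K (a * b * a⁻¹ * b⁻¹) = 1 := by
          simpa only [map_mul, map_inv] using h1
        exact (QuotientGroup.eq_one_iff _).1 h2
    · rw [h]; exact le_top
  obtain ⟨K₀, hK₀n, hK₀, hK₀c, hleast⟩ := exists_residual W
  rcases hchar K₀ hK₀c with h | h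
  · have e : W ⧸ K₀ ≃* W := (QuotientGroup.quotientMulEquivOfEq h).trans QuotientGroup.quotientBot
    exact NoAb.of_surj e.toMonoidHom e.surjective hK₀
  · exact absurd (top_le_iff.1 (h ▸ hleast K hno)) hKt

/-- `NoAb` passes to normal subgroups of finite groups. -/
theorem noAb_normal {X : Type} [Group X] [Finite X] (hX : NoAb X) (M : Subgroup X)
    (hM : M.Normal) : NoAb M := by
  obtain ⟨K₀, hK₀n, hK₀, hK₀c, hleast⟩ := exists_residual M
  by_cases hb : K₀ = ⊥
  · have e : M ⧸ K₀ ≃* M := (QuotientGroup.quotientMulEquivOfEq hb).trans QuotientGroup.quotientBot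
    exact NoAb.of_surj e.toMonoidHom e.surjective hK₀
  exfalso
  set Q : Subgroup X := K₀.map M.subtype with hQ
  have hQn : Q.Normal := inferInstance
  have hQM : Q ≤ M := by rintro _ ⟨x, -, rfl⟩; exact x.2
  have hQb : Q ≠ ⊥ := fun h => hb ((Subgroup.map_eq_bot_iff_of_injective _ M.subtype_injective).1 h)
  -- maximal normal subgroup of X strictly below Q
  obtain ⟨L, ⟨hLn, hLQ⟩, hmax⟩ := WellFounded.has_min
    (wellFounded_gt : WellFounded (fun a b : Subgroup X => a > b))
    {L : Subgroup X | L.Normal ∧ L < Q} ⟨⊥, inferInstance, bot_lt_iff_ne_bot.2 hQb⟩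
  set π := QuotientGroup.mk' L with hπ
  have hπs : Function.Surjective π := QuotientGroup.mk'_surjective L
  have hπ1 : ∀ x, π x = 1 ↔ x ∈ L := fun x => QuotientGroup.eq_one_iff x
  have hQ'min : IsMinNormal (Q.map π) := by
    refine ⟨hQn.map _ hπs, ?_, ?_⟩
    · intro h
      have := (Subgroup.map_eq_bot_iff Q).1 h
      rw [QuotientGroup.ker_mk'] at this
      exact absurd hLQ (not_lt_of_ge this)
    · intro U hU hUQ
      have hle : L ≤ U.comap π := by
        intro k hk
        show π k ∈ U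
        rw [(hπ1 k).2 hk]; exact U.one_mem
      have hUQ' : U.comap π ≤ Q := by
        intro x hx
        obtain ⟨q, hq, hqx⟩ := hUQ (show π x ∈ U from hx)
        have h1 : π (q⁻¹ * x) = 1 := by rw [map_mul, map_inv, hqx]; group
        have h2 := hLQ.le ((hπ1 _).1 h1)
        have : x = q * (q⁻¹ * x) := by group
        rw [this]; exact Q.mul_mem hq h2
      by_cases hUL : U.comap π = Q
      · right
        rw [← hUL, Subgroup.map_comap_eq_self_of_surjective hπs]
      · left
        by_contra hUb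
        refine hmax (U.comap π) ⟨hU.comap _, lt_of_le_of_ne hUQ' hUL⟩ (lt_of_le_of_ne hle ?_)
        intro h
        apply hUb
        rw [eq_bot_iff]
        intro u hu
        obtain ⟨y, rfl⟩ := hπs u
        have : y ∈ L := by rw [h]; exact hu
        exact Subgroup.mem_bot.2 ((hπ1 y).2 this)
  have hQ'ab : ¬ ∀ a ∈ Q.map π, ∀ b ∈ Q.map π, a * b = b * a := by
    intro h
    have h1 := hX L Q hLn hQn (by
      intro a ha b hb
      rw [← hπ1]
      have := h _ (Subgroup.mem_map_of_mem _ ha) _ (Subgroup.mem_map_of_mem _ hb)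
      simp only [map_mul, map_inv]
      rw [this]; group)
    exact absurd hLQ (not_lt_of_ge h1)
  have hQ'no := noAb_minNormal (Q.map π) hQ'min hQ'ab
  -- the group M̄
  have hQM' : Q.map π ≤ M.map π := Subgroup.map_mono hQM
  set M' : Subgroup (X ⧸ L) := M.map π with hM'
  have hZn : ((Q.map π).subgroupOf M').Normal := hQ'min.1.subgroupOf M'
  let f : M →* M' := π.subgroupMap M
  have hf : Function.Surjective f := π.subgroupMap_surjective M
  have hM'no : NoAb M' := by
    refine noAb_ext ((Q.map π).subgroupOf M') ?_ ?_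
    · exact NoAb.of_surj (Subgroup.subgroupOfEquivOfLe hQM').symm.toMonoidHom
        (Subgroup.subgroupOfEquivOfLe hQM').symm.surjective hQ'no
    · have hker : K₀ ≤ ((QuotientGroup.mk' ((Q.map π).subgroupOf M')).comp f).ker := by
        intro x hx
        rw [MonoidHom.mem_ker]
        refine (QuotientGroup.eq_one_iff _).2 ?_
        show π x ∈ Q.map π
        exact Subgroup.mem_map_of_mem _ (Subgroup.mem_map_of_mem _ hx)
      refine NoAb.of_surj (QuotientGroup.lift K₀ _ hker) ?_ hK₀
      intro y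
      obtain ⟨y, rfl⟩ := QuotientGroup.mk'_surjective _ y
      obtain ⟨x, rfl⟩ := hf y
      exact ⟨QuotientGroup.mk' K₀ x, rfl⟩
  have hMk : NoAb (M ⧸ f.ker) :=
    NoAb.of_surj (QuotientGroup.quotientKerEquivOfSurjective f hf).symm.toMonoidHom
      (QuotientGroup.quotientKerEquivOfSurjective f hf).symm.surjective hM'no
  have hle := hleast f.ker hMk
  have : Q ≤ L := by
    rintro _ ⟨x, hx, rfl⟩
    have h1 : f x = 1 := hle hx
    have h2 : π (x : X) = 1 := congrArg Subtype.val h1
    exact (hπ1 _).1 h2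
  exact absurd hLQ (not_lt_of_ge this)

end Pool.Agent.H198R3.Form
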