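import Mathlib

/-!
# Words in the letters `0, …, n`

A weight realising the degree-lexicographic order, strictly decreasing words, and the overlaps of
the words `n … ĵ … 0` (one letter missing) and `n 0`.
-/

namespace Pool.Agent.H198R3.Words

variable {n : ℕ}

/-- The weight of a word: a number in base `n + 2` with digits `x + 1`. -/
def enc : List (Fin (n + 1)) → ℕ
  | [] => 0
  | x :: l => (x.val + 1) * (n + 2) ^ l.length + enc l

theorem enc_lt (l : List (Fin (n + 1))) : enc l < (n + 2) ^ l.length := by
  induction l with
  | nil => simp [enc]
  | cons x l ih =>
    have hx := x.isLt
    simp only [enc, List.length_cons, pow_succ]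
    have : (x.val + 1) * (n + 2) ^ l.length ≤ (n + 1) * (n + 2) ^ l.length :=
      Nat.mul_le_mul_right _ (by omega)
    nlinarith

theorem enc_append (a b : List (Fin (n + 1))) :
    enc (a ++ b) = enc a * (n + 2) ^ b.length + enc b := by
  induction a with
  | nil => simp [enc]
  | cons x l ih =>
    simp only [List.cons_append, enc, ih, List.length_append, pow_add]
    ring

theorem pow_le_enc (l : List (Fin (n + 1))) (h : l ≠ []) :
    (n + 2) ^ (l.length - 1) ≤ enc l := by
  cases l with
  | nil => exact absurd rfl h
  | cons x l =>
    simp only [enc, List.length_cons, Nat.add_sub_cancel]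
    nlinarith [Nat.zero_le (x.val * (n + 2) ^ l.length), Nat.zero_le (enc l)]

theorem length_le_of_enc_le {u v : List (Fin (n + 1))} (h : enc u ≤ enc v) :
    u.length ≤ v.length := by
  by_contra hlt
  push Not at hlt
  have hu : u ≠ [] := by
    rintro rfl
    simp at hlt
  have h1 := pow_le_enc u hu
  have h2 := enc_lt v
  have h3 : (n + 2) ^ v.length ≤ (n + 2) ^ (u.length - 1) :=
    Nat.pow_le_pow_right (by omega) (by omega)
  omega

theorem enc_mul (a b u v : List (Fin (n + 1))) (h : enc u < enc v) :
    enc (a ++ u ++ b) < enc (a ++ v ++ b) := by
  have hl := length_le_of_enc_le h.le
  simp only [enc_append]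
  have h1 : enc a * (n + 2) ^ u.length ≤ enc a * (n + 2) ^ v.length :=
    Nat.mul_le_mul_left _ (Nat.pow_le_pow_right (by omega) hl)
  have h2 : (enc a * (n + 2) ^ u.length + enc u) * (n + 2) ^ b.length <
      (enc a * (n + 2) ^ v.length + enc v) * (n + 2) ^ b.length :=
    Nat.mul_lt_mul_of_pos_right (by omega) (by positivity)
  omega

theorem enc_inj : ∀ u v : List (Fin (n + 1)), enc u = enc v → u = v := by
  intro u
  induction u with
  | nil =>
    intro v h
    have h1 := length_le_of_enc_le h.ge
    have h2 : v.length = 0 := by simpa using h1
    exact (List.length_eq_zero_iff.mp h2).symm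
  | cons x u ih =>
    intro v h
    have h1 := length_le_of_enc_le h.ge
    have h2 := length_le_of_enc_le h.le
    cases v with
    | nil => simp at h2
    | cons y v =>
      simp only [List.length_cons, Nat.add_le_add_iff_right] at h1 h2
      have hl : u.length = v.length := by omega
      simp only [enc] at h
      have hu := enc_lt u
      have hv := enc_lt v
      rw [hl] at h hu
      have hP : 0 < (n + 2) ^ v.length := by positivity
      have hxy : x.val = y.val := by
        rcases Nat.lt_trichotomy x.val y.val with hlt | heq | hlt
        · exfalso
          have : (x.val + 1 + 1) * (n + 2) ^ v.length ≤ (y.val + 1) * (n + 2) ^ v.length :=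
            Nat.mul_le_mul_right _ (by omega)
          have h3 : (x.val + 1 + 1) * (n + 2) ^ v.length =
            (x.val + 1) * (n + 2) ^ v.length + (n + 2) ^ v.length := by ring
          omega
        · exact heq
        · exfalso
          have : (y.val + 1 + 1) * (n + 2) ^ v.length ≤ (x.val + 1) * (n + 2) ^ v.length :=
            Nat.mul_le_mul_right _ (by omega)
          have h3 : (y.val + 1 + 1) * (n + 2) ^ v.length =
            (y.val + 1) * (n + 2) ^ v.length + (n + 2) ^ v.length := by ring
          omega
      have hxy' : x = y := Fin.ext hxy
      subst hxy'
      rw [ih v (by omega)]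

/-- Among the rearrangements of a strictly decreasing word it has the largest weight. -/
theorem enc_perm_lt : ∀ (l l' : List (Fin (n + 1))), l.Pairwise (· > ·) → l'.Perm l → l' ≠ l →
    enc l' < enc l := by
  intro l
  induction l with
  | nil =>
    intro l' _ hp hne
    exact absurd (List.perm_nil.mp hp) hne
  | cons x t ih =>
    intro l' hl hp hne
    cases l' with
    | nil => simp at hp
    | cons y t' =>
      rw [List.pairwise_cons] at hl
      have hlen : t'.length = t.length := by simpa using hp.length_eq
      by_cases hxy : y = x
      · subst hxy
        have := ih t' hl.2 ((List.perm_cons y).mp hp) (by simpa using hne)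
        simp only [enc, hlen]
        omega
      · have hy : y ∈ x :: t := hp.mem_iff.mp (List.mem_cons_self)
        have hy' : y ∈ t := by
          rcases List.mem_cons.mp hy with h | h
          · exact absurd h hxy
          · exact h
        have hlt : y < x := hl.1 y hy'
        have h1 := enc_lt t'
        simp only [enc, hlen]
        rw [hlen] at h1
        have : (y.val + 1 + 1) * (n + 2) ^ t.length ≤ (x.val + 1) * (n + 2) ^ t.length :=
          Nat.mul_le_mul_right _ (by have : y.val < x.val := hlt; omega)
        have h3 : (y.val + 1 + 1) * (n + 2) ^ t.length =
          (y.val + 1) * (n + 2) ^ t.length + (n + 2) ^ t.length := by ring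
        omega

/-- The decreasing word of all letters. -/
def full (n : ℕ) : List (Fin (n + 1)) := List.ofFn (fun k : Fin (n + 1) => k.rev)

/-- The decreasing word with the letter `j` missing. -/
def miss (j : Fin (n + 1)) : List (Fin (n + 1)) := List.ofFn (fun k : Fin n => j.succAbove k.rev)

/-- The leading words: `miss j`, and `n 0`. -/
def lwl : Option (Fin (n + 1)) → List (Fin (n + 1))
  | some j => miss j
  | none => [Fin.last n, 0]

theorem full_pairwise : (full n).Pairwise (· > ·) := by
  rw [full, List.pairwise_ofFn]
  intro i j h
  exact Fin.rev_lt_rev.mpr h

theorem miss_pairwise (j : Fin (n + 1)) : (miss j).Pairwise (· > ·) := by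
  rw [miss, List.pairwise_ofFn]
  intro a b h
  exact (Fin.succAbove_lt_succAbove_iff).mpr (Fin.rev_lt_rev.mpr h)

theorem full_length : (full n).length = n + 1 := by simp [full]

theorem miss_length (j : Fin (n + 1)) : (miss j).length = n := by simp [miss]

theorem mem_full (x : Fin (n + 1)) : x ∈ full n := by
  rw [full, List.mem_ofFn]
  exact ⟨x.rev, Fin.rev_rev x⟩

theorem mem_miss (j x : Fin (n + 1)) : x ∈ miss j ↔ x ≠ j := by
  rw [miss, List.mem_ofFn]
  constructor
  · rintro ⟨k, rfl⟩
    exact Fin.succAbove_ne _ _
  · intro h
    obtain ⟨k, hk⟩ := Fin.exists_succAbove_eq h
    exact ⟨k.rev, by simpa using hk⟩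

theorem cons_miss_perm (j : Fin (n + 1)) : (j :: miss j).Perm (full n) := by
  apply (List.perm_ext_iff_of_nodup ?_ ?_).mpr
  · intro x
    simp only [List.mem_cons, mem_miss, mem_full, iff_true]
    exact em _
  · rw [List.nodup_cons]
    exact ⟨by simp [mem_miss], (miss_pairwise j).nodup⟩
  · exact full_pairwise.nodup

theorem miss_append_perm (j : Fin (n + 1)) : (miss j ++ [j]).Perm (full n) :=
  (List.perm_append_singleton j (miss j)).trans (cons_miss_perm j)

/-- A strictly decreasing word of length at least `n + 1` is the full word. -/
theorem eq_full (l : List (Fin (n + 1))) (h : l.Pairwise (· > ·)) (hl : n + 1 ≤ l.length) :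
    l = full n := by
  have hn : l.Nodup := h.nodup
  have hcard : l.toFinset = Finset.univ := by
    apply Finset.eq_univ_of_card
    rw [List.toFinset_card_of_nodup hn]
    have := hn.length_le_card
    simp only [Fintype.card_fin] at this ⊢
    omega
  have hmem : ∀ x, x ∈ l := by
    intro x
    have : x ∈ l.toFinset := by rw [hcard]; exact Finset.mem_univ x
    simpa using this
  exact List.Pairwise.eq_of_mem_iff h full_pairwise (fun a => by simp [hmem, mem_full])

theorem full_eq_cons : full n = Fin.last n :: miss (Fin.last n) := by
  symm
  apply eq_full
  · rw [List.pairwise_cons]
    refine ⟨fun a ha => ?_, miss_pairwise _⟩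
    rw [mem_miss] at ha
    exact Fin.lt_last_iff_ne_last.mpr ha
  · simp [miss_length]

theorem full_eq_append : full n = miss 0 ++ [0] := by
  symm
  apply eq_full
  · rw [List.pairwise_append]
    refine ⟨miss_pairwise _, by simp, fun a ha b hb => ?_⟩
    rw [mem_miss] at ha
    rw [List.mem_singleton] at hb
    subst hb
    exact Fin.pos_iff_ne_zero.mpr ha
  · simp [miss_length]

theorem lwl_pairwise (hn : 0 < n) (i : Option (Fin (n + 1))) : (lwl i).Pairwise (· > ·) := by
  cases i with
  | some j => exact miss_pairwise j
  | none =>
    have : (0 : Fin (n + 1)) < Fin.last n := by
      rw [Fin.lt_def]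
      simpa using hn
    simp [lwl, this]

theorem glue (c d e : List (Fin (n + 1))) (hd : d ≠ []) (h1 : (c ++ d).Pairwise (· > ·))
    (h2 : (d ++ e).Pairwise (· > ·)) : (c ++ d ++ e).Pairwise (· > ·) := by
  rw [List.append_assoc, List.pairwise_append]
  rw [List.pairwise_append] at h1
  refine ⟨h1.1, h2, fun a ha b hb => ?_⟩
  rw [List.mem_append] at hb
  rcases hb with hb | hb
  · exact h1.2.2 a ha b hb
  · obtain ⟨x, hx⟩ := List.exists_mem_of_ne_nil d hd
    rw [List.pairwise_append] at h2
    exact gt_trans (h1.2.2 a ha x hx) (h2.2.2 x hx b hb)

/-- The overlaps of the leading words. -/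
theorem overlap (hn : 3 ≤ n) (i j : Option (Fin (n + 1))) (c b b' : List (Fin (n + 1)))
    (h : lwl i ++ b = c ++ lwl j ++ b') :
    (c = [] ∧ i = j ∧ b = b') ∨ (∃ d, c = lwl i ++ d ∧ b = d ++ lwl j ++ b') ∨
      (i = some 0 ∧ j = some (Fin.last n) ∧ c = [Fin.last n] ∧ b = 0 :: b') := by
  have hne0 : (0 : Fin (n + 1)) ≠ Fin.last n := by
    intro h0
    have := congrArg Fin.val h0
    simp at this
    omega
  rw [List.append_assoc] at h
  rcases List.append_eq_append_iff.mp h with ⟨d, hd1, hd2⟩ | ⟨d, hd1, hd2⟩
  · exact Or.inr (Or.inl ⟨d, hd1, by rw [hd2, List.append_assoc]⟩)
  · -- lwl i = c ++ d, lwl j ++ b' = d ++ b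
    by_cases hd0 : d = []
    · subst hd0
      refine Or.inr (Or.inl ⟨[], by simpa using hd1.symm, by simpa using hd2.symm⟩)
    have hpi := lwl_pairwise (by omega : 0 < n) i
    have hpj := lwl_pairwise (by omega : 0 < n) j
    cases i with
    | none =>
      cases j with
      | none =>
        left
        cases c with
        | nil =>
          simp only [List.nil_append] at hd1
          subst hd1
          exact ⟨rfl, rfl, (List.append_cancel_left hd2).symm⟩
        | cons x c =>
          exfalso
          simp only [lwl, List.cons_append, List.cons.injEq] at hd1
          obtain ⟨rfl, hd1⟩ := hd1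
          cases c with
          | nil =>
            simp only [List.nil_append] at hd1
            subst hd1
            simp only [lwl, List.cons_append, List.cons.injEq] at hd2
            exact hne0 hd2.1.symm
          | cons y c =>
            simp only [List.cons_append, List.cons.injEq] at hd1
            have := hd1.2
            simp at this
            exact hd0 this.2
      | some j =>
        exfalso
        cases c with
        | nil =>
          simp only [List.nil_append] at hd1
          subst hd1
          -- miss j starts with last, 0
          simp only [lwl] at hd2 hpj
          have hlen := miss_length j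
          obtain ⟨x, y, z, t, ht⟩ : ∃ x y z t, miss j = x :: y :: z :: t := by
            match hm : miss j with
            | [] => rw [hm] at hlen; simp at hlen; omega
            | [x] => rw [hm] at hlen; simp at hlen; omega
            | [x, y] => rw [hm] at hlen; simp at hlen; omega
            | x :: y :: z :: t => exact ⟨x, y, z, t, rfl⟩
          rw [ht] at hd2 hpj
          simp only [List.cons_append, List.cons.injEq] at hd2
          obtain ⟨rfl, rfl, -⟩ := hd2
          simp only [List.pairwise_cons] at hpj
          have := hpj.2.1 z (by simp)
          exact absurd this (Fin.not_lt_zero z)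
        | cons x c =>
          simp only [lwl, List.cons_append, List.cons.injEq] at hd1
          obtain ⟨rfl, hd1⟩ := hd1
          cases c with
          | nil =>
            simp only [List.nil_append] at hd1
            subst hd1
            simp only [lwl] at hd2 hpj
            have hlen := miss_length j
            obtain ⟨x, y, t, ht⟩ : ∃ x y t, miss j = x :: y :: t := by
              match hm : miss j with
              | [] => rw [hm] at hlen; simp at hlen; omega
              | [x] => rw [hm] at hlen; simp at hlen; omega
              | x :: y :: t => exact ⟨x, y, t, rfl⟩
            rw [ht] at hd2 hpj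
            simp only [List.cons_append, List.cons.injEq] at hd2
            obtain ⟨rfl, -⟩ := hd2
            simp only [List.pairwise_cons] at hpj
            have := hpj.1 y (by simp)
            exact absurd this (Fin.not_lt_zero y)
          | cons y c =>
            simp only [List.cons_append, List.cons.injEq] at hd1
            have := hd1.2
            simp at this
            exact hd0 this.2
    | some i =>
      cases j with
      | none =>
        exfalso
        simp only [lwl] at hd1 hd2 hpi
        obtain ⟨x, d, rfl⟩ := List.exists_cons_of_ne_nil hd0
        simp only [List.cons_append, List.cons.injEq] at hd2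
        obtain ⟨rfl, hd2⟩ := hd2
        cases c with
        | cons y c =>
          rw [hd1] at hpi
          simp only [List.cons_append, List.pairwise_cons] at hpi
          have := hpi.1 (Fin.last n) (by simp)
          exact absurd this (not_lt.mpr (Fin.le_last y))
        | nil =>
          simp only [List.nil_append] at hd1
          have hlen := miss_length i
          rw [hd1] at hlen hpi
          cases d with
          | nil => simp at hlen; omega
          | cons z d =>
            simp only [List.nil_append, List.cons_append, List.cons.injEq] at hd2
            obtain ⟨rfl, hd2⟩ := hd2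
            cases d with
            | nil => simp at hlen; omega
            | cons w d =>
              simp only [List.pairwise_cons] at hpi
              have := hpi.2.1 w (by simp)
              exact absurd this (Fin.not_lt_zero w)
      | some j =>
        simp only [lwl] at hd1 hd2 hpi hpj
        cases c with
        | nil =>
          left
          simp only [List.nil_append] at hd1
          subst hd1
          have hl : (miss j).length = (miss i).length := by rw [miss_length, miss_length]
          obtain ⟨h1, h2⟩ := List.append_inj hd2 hl
          refine ⟨rfl, ?_, h2.symm⟩
          congr 1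
          by_contra hij
          have : i ∈ miss j := (mem_miss j i).mpr hij
          rw [h1, mem_miss] at this
          exact this rfl
        | cons x c =>
          right; right
          have hli := miss_length i
          have hlj := miss_length j
          have hdl : d.length < n := by
            rw [hd1] at hli
            simp at hli
            omega
          -- miss j = d ++ e
          rcases List.append_eq_append_iff.mp hd2 with ⟨e, he1, he2⟩ | ⟨e, he1, he2⟩
          · exfalso
            have := congrArg List.length he1
            rw [List.length_append, hlj] at this
            omega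
          · have hgl := glue (x :: c) d e hd0 (by rw [← hd1]; exact hpi)
              (by rw [← he1]; exact hpj)
            have hlen1 : (x :: c ++ d).length = n := by rw [← hd1]; exact hli
            have hlen2 : (d ++ e).length = n := by rw [← he1]; exact hlj
            have hcard := hgl.nodup.length_le_card
            simp only [Fintype.card_fin] at hcard
            simp only [List.length_append, List.length_cons] at hlen1 hlen2 hcard
            have hc : c = [] := by
              rw [← List.length_eq_zero_iff]
              omega
            have he : e.length = 1 := by omega
            obtain ⟨y, rfl⟩ := List.length_eq_one_iff.mp he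
            subst hc
            have hfull := eq_full _ hgl (by simp; simp at hlen1; omega)
            have hx : x = Fin.last n ∧ d ++ [y] = miss (Fin.last n) := by
              rw [full_eq_cons] at hfull
              simpa using hfull
            have hy : [x] ++ d = miss 0 ∧ y = 0 := by
              rw [full_eq_append] at hfull
              have := List.append_inj' hfull (by simp)
              simpa using this
            obtain ⟨rfl, hx2⟩ := hx
            obtain ⟨hy1, rfl⟩ := hy
            have hi : i = 0 := by
              by_contra hi
              have : (0 : Fin (n + 1)) ∈ miss i := (mem_miss i 0).mpr (Ne.symm hi)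
              rw [hd1, hy1, mem_miss] at this
              exact this rfl
            have hj : j = Fin.last n := by
              by_contra hj
              have : (Fin.last n) ∈ miss j := (mem_miss j _).mpr (Ne.symm hj)
              rw [he1, hx2, mem_miss] at this
              exact this rfl
            subst hi hj
            exact ⟨rfl, rfl, rfl, he2⟩

end Pool.Agent.H198R3.Words
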