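import Pool.Agent.H198R3.Diamond
import Pool.Agent.H198R3.Words
import Pool.Agent.H198R3.AltProd

/-!
# The algebra with relations `alt(y_0, …, ŷ_j, …, y_n) = r_j` for odd `n`
-/

namespace Pool.Agent.H198R3.PozAlg

open Diamond Words AltProd

variable (F : Type*) [Field F] (n : ℕ)

/-- The free associative algebra on the letters `0, …, n`. -/
abbrev R := MonoidAlgebra F (FreeMonoid (Fin (n + 1)))

/-- The words as elements of the free associative algebra. -/
noncomputable def W : FreeMonoid (Fin (n + 1)) →* R F n := MonoidAlgebra.of F _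

/-- The coefficient of a word. -/
def cf (w : FreeMonoid (Fin (n + 1))) : R F n →ₗ[F] F where
  toFun x := x.coeff w
  map_add' _ _ := rfl
  map_smul' _ _ := rfl

/-- The weight of a word. -/
def en (w : FreeMonoid (Fin (n + 1))) : ℕ := enc w.toList

/-- The leading words. -/
def lw (i : Option (Fin (n + 1))) : FreeMonoid (Fin (n + 1)) := FreeMonoid.ofList (lwl i)

/-- The letters. -/
noncomputable def y (j : Fin (n + 1)) : R F n := W F n (FreeMonoid.of j)

variable {F n}

/-- The linear right hand sides. -/
noncomputable def r (t : F) (j : Fin (n + 1)) : R F n :=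
  if j = 0 then t • y F n (Fin.last n) else
    if j = Fin.last n then (-t) • y F n 0 else (2 * t * (-1) ^ (j : ℕ)) • y F n j

/-- The quadratic relation. -/
noncomputable def q (F : Type*) [Field F] (n : ℕ) : R F n :=
  y F n (Fin.last n) * y F n 0 + (y F n 0 * y F n (Fin.last n) +
    ∑ k : Fin (n + 1), if k = 0 ∨ k = Fin.last n then 0 else (2 : F) • (y F n k * y F n k))

/-- The relations. -/
noncomputable def g (t : F) : Option (Fin (n + 1)) → R F n
  | some j => ((Equiv.Perm.sign (Fin.revPerm (n := n)) : ℤˣ) : ℤ) •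
      (altProd (fun k => y F n (j.succAbove k)) - r t j)
  | none => q F n

instance instDecFM : DecidableEq (FreeMonoid (Fin (n + 1))) :=
  inferInstanceAs (DecidableEq (List (Fin (n + 1))))

theorem cf_W (u v : FreeMonoid (Fin (n + 1))) :
    cf F n u (W F n v) = if u = v then 1 else 0 := by
  change (MonoidAlgebra.single v (1 : F)).coeff u = _
  rw [MonoidAlgebra.coeff_single, Finsupp.single_apply]
  simp only [eq_comm]

theorem en_inj : Function.Injective (en n) := fun u v h => enc_inj _ _ h

theorem en_mul (a b u v : FreeMonoid (Fin (n + 1))) (h : en n u < en n v) :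
    en n (a * u * b) < en n (a * v * b) := enc_mul _ _ _ _ h

theorem W_list (l : List (Fin (n + 1))) : (l.map (y F n)).prod = W F n (FreeMonoid.ofList l) := by
  induction l with
  | nil => simp
  | cons x l ih => rw [List.map_cons, List.prod_cons, ih, y, ← map_mul]; rfl

theorem W_ofFn {m : ℕ} (f : Fin m → Fin (n + 1)) :
    (List.ofFn fun k => y F n (f k)).prod = W F n (FreeMonoid.ofList (List.ofFn f)) := by
  rw [← W_list, List.map_ofFn]
  rfl

theorem W_mem {u v : List (Fin (n + 1))} (h : enc u < enc v) :
    W F n (FreeMonoid.ofList u) ∈ wlt F (W F n) (en n) (en n (FreeMonoid.ofList v)) :=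
  Submodule.subset_span ⟨_, h, rfl⟩

theorem enc_lt_of_length {u v : List (Fin (n + 1))} (h : u.length < v.length) : enc u < enc v := by
  by_contra h'
  have := length_le_of_enc_le (not_lt.mp h')
  omega

theorem y_mem (hn : 3 ≤ n) (i j : Fin (n + 1)) :
    y F n j ∈ wlt F (W F n) (en n) (en n (lw n (some i))) := by
  have : enc [j] < enc (lwl (some i)) := enc_lt_of_length (by simp [lwl, miss_length]; omega)
  exact W_mem this

theorem r_mem (hn : 3 ≤ n) (t : F) (i j : Fin (n + 1)) :
    r t j ∈ wlt F (W F n) (en n) (en n (lw n (some i))) := by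
  rw [r]
  split_ifs
  · exact Submodule.smul_mem _ _ (y_mem hn _ _)
  · exact Submodule.smul_mem _ _ (y_mem hn _ _)
  · exact Submodule.smul_mem _ _ (y_mem hn _ _)

theorem units_sq (s : ℤˣ) : (s : ℤ) * (s : ℤ) = 1 := by
  rcases Int.units_eq_one_or s with h | h <;> simp [h]

theorem g_lead (hn : 3 ≤ n) (t : F) (i : Option (Fin (n + 1))) :
    g t i - W F n (lw n i) ∈ wlt F (W F n) (en n) (en n (lw n i)) := by
  cases i with
  | some j =>
    have h1 : altProd (fun k => y F n (j.succAbove k)) =
        ((Equiv.Perm.sign (Fin.revPerm (n := n)) : ℤˣ) : ℤ) • W F n (lw n (some j)) +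
        ∑ σ ∈ Finset.univ.erase (Fin.revPerm (n := n)), ((Equiv.Perm.sign σ : ℤˣ) : ℤ) •
          W F n (FreeMonoid.ofList (List.ofFn fun k => j.succAbove (σ k))) := by
      rw [altProd, ← Finset.add_sum_erase _ _ (Finset.mem_univ (Fin.revPerm (n := n)))]
      congr 1
      · rw [W_ofFn (fun k => j.succAbove (Fin.revPerm k))]
        rfl
      · refine Finset.sum_congr rfl fun σ _ => ?_
        rw [W_ofFn (fun k => j.succAbove (σ k))]
    have h2 : g t (some j) - W F n (lw n (some j)) =
        ((Equiv.Perm.sign (Fin.revPerm (n := n)) : ℤˣ) : ℤ) •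
        (∑ σ ∈ Finset.univ.erase (Fin.revPerm (n := n)), ((Equiv.Perm.sign σ : ℤˣ) : ℤ) •
          W F n (FreeMonoid.ofList (List.ofFn fun k => j.succAbove (σ k))) - r t j) := by
      rw [g, h1, smul_sub, smul_add, smul_smul, units_sq, one_smul, smul_sub]
      abel
    rw [h2]
    refine zsmul_mem (sub_mem (Submodule.sum_mem _ fun σ hσ => zsmul_mem ?_ _) (r_mem hn t j j)) _
    refine W_mem (u := List.ofFn fun k => j.succAbove (σ k)) (v := miss j) ?_
    refine enc_perm_lt _ _ (miss_pairwise j) ?_ ?_
    · apply (List.perm_ext_iff_of_nodup ?_ ?_).mpr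
      · intro x
        rw [mem_miss, List.mem_ofFn]
        constructor
        · rintro ⟨k, rfl⟩
          exact Fin.succAbove_ne _ _
        · intro h
          obtain ⟨k, hk⟩ := Fin.exists_succAbove_eq h
          exact ⟨σ.symm k, by simpa using hk⟩
      · rw [List.nodup_ofFn]
        exact Fin.succAbove_right_injective.comp σ.injective
      · exact (miss_pairwise j).nodup
    · intro h
      rw [miss, List.ofFn_injective.eq_iff] at h
      apply (Finset.mem_erase.mp hσ).1
      ext k
      have := congrFun h k
      rw [Fin.succAbove_right_injective this]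
      rfl
  | none =>
    have h1 : W F n (lw n none) = y F n (Fin.last n) * y F n 0 := by
      rw [y, y, ← map_mul]
      rfl
    have h2 : g t none - W F n (lw n none) = y F n 0 * y F n (Fin.last n) +
        ∑ k : Fin (n + 1), if k = 0 ∨ k = Fin.last n then 0 else (2 : F) • (y F n k * y F n k) := by
      rw [g, q, h1]
      abel
    rw [h2]
    refine add_mem ?_ (Submodule.sum_mem _ fun k _ => ?_)
    · have h3 : y F n 0 * y F n (Fin.last n) =
          W F n (FreeMonoid.ofList [0, Fin.last n]) := by
        rw [y, y, ← map_mul]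
        rfl
      rw [h3]
      refine W_mem (u := [0, Fin.last n]) (v := [Fin.last n, 0]) ?_
      simp only [enc, List.length_cons, List.length_nil, Fin.val_last]
      simp
      nlinarith
    · split_ifs with hk
      · exact zero_mem _
      · have h3 : y F n k * y F n k = W F n (FreeMonoid.ofList [k, k]) := by
          rw [y, ← map_mul]
          rfl
        rw [h3]
        refine Submodule.smul_mem _ _ (W_mem (u := [k, k]) (v := [Fin.last n, 0]) ?_)
        push Not at hk
        have : k.val < n := by
          have := Fin.lt_last_iff_ne_last.mpr hk.2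
          exact this
        simp only [enc, List.length_cons, List.length_nil, Fin.val_last]
        simp
        nlinarith

theorem y_mul_g_mem (t : F) (j : Fin (n + 1)) (hj : j ≠ Fin.last n) :
    y F n j * g t (some j) ∈ elt F (W F n) (en n) (lw n) (g t) (en n (FreeMonoid.ofList (full n))) := by
  refine Submodule.subset_span ⟨FreeMonoid.of j, some j, 1, ?_, by simp [E, y]⟩
  change enc ([j] ++ miss j ++ []) < enc (full n)
  rw [List.append_nil]
  refine enc_perm_lt _ _ full_pairwise (cons_miss_perm j) ?_
  intro h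
  rw [full_eq_cons] at h
  simp only [List.cons_append, List.nil_append, List.cons.injEq] at h
  exact hj h.1

theorem g_mul_y_mem (t : F) (j : Fin (n + 1)) (hj : j ≠ 0) :
    g t (some j) * y F n j ∈ elt F (W F n) (en n) (lw n) (g t) (en n (FreeMonoid.ofList (full n))) := by
  refine Submodule.subset_span ⟨1, some j, FreeMonoid.of j, ?_, by simp [E, y]⟩
  change enc ([] ++ miss j ++ [j]) < enc (full n)
  rw [List.nil_append]
  refine enc_perm_lt _ _ full_pairwise (miss_append_perm j) ?_
  intro h
  rw [full_eq_append] at h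
  have := List.append_inj_right' h rfl
  simp only [List.cons.injEq, and_true] at this
  exact hj this

theorem q_mem (hn : 3 ≤ n) (t : F) :
    q F n ∈ elt F (W F n) (en n) (lw n) (g t) (en n (FreeMonoid.ofList (full n))) := by
  refine Submodule.subset_span ⟨1, none, 1, ?_, by simp [E, g]⟩
  change enc ([] ++ [Fin.last n, 0] ++ []) < enc (full n)
  exact enc_lt_of_length (by simp [full_length]; omega)

/-- The contribution of the linear terms. -/
theorem r_sum (hn : Odd n) (t : F) :
    ∑ j : Fin (n + 1), ((-1) ^ (j : ℕ) : ℤ) • (y F n j * r t j + r t j * y F n j) =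
      (2 * t) • q F n := by
  have h0 : (0 : Fin (n + 1)) ≠ Fin.last n := by
    intro h
    have := congrArg Fin.val h
    simp at this
    subst this
    exact absurd hn (by decide)
  have hterm : ∀ j : Fin (n + 1), ((-1) ^ (j : ℕ) : ℤ) • (y F n j * r t j + r t j * y F n j) =
      (if j = 0 then t • (y F n 0 * y F n (Fin.last n) + y F n (Fin.last n) * y F n 0) else 0) +
      (if j = Fin.last n then t • (y F n (Fin.last n) * y F n 0 + y F n 0 * y F n (Fin.last n))
        else 0) + (2 * t) • (if j = 0 ∨ j = Fin.last n then 0 else (2 : F) • (y F n j * y F n j)) := by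
    intro j
    by_cases hj0 : j = 0
    · subst hj0
      rw [if_pos rfl, if_neg h0, if_pos (Or.inl rfl), r, if_pos rfl]
      simp [smul_add]
    · by_cases hjl : j = Fin.last n
      · subst hjl
        rw [if_neg hj0, if_pos rfl, if_pos (Or.inr rfl), r, if_neg hj0, if_pos rfl]
        simp only [Fin.val_last, hn.neg_one_pow]
        simp only [neg_smul, mul_neg, neg_mul, mul_smul_comm, smul_mul_assoc, smul_add, smul_zero,
          add_zero, zero_add, one_smul, neg_neg, smul_neg]
      · rw [if_neg hj0, if_neg hjl, if_neg (by tauto), r, if_neg hj0, if_neg hjl]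
        rw [mul_smul_comm, smul_mul_assoc, ← add_smul, smul_smul, zero_add, zero_add,
          ← Int.cast_smul_eq_zsmul F, smul_smul]
        congr 1
        push_cast
        have : ((-1 : F) ^ (j : ℕ)) * (-1) ^ (j : ℕ) = 1 := by
          rw [← mul_pow]
          simp
        linear_combination (4 * t) * this
  rw [Finset.sum_congr rfl fun j _ => hterm j, Finset.sum_add_distrib, Finset.sum_add_distrib,
    Finset.sum_ite_eq' Finset.univ, Finset.sum_ite_eq' Finset.univ, if_pos (Finset.mem_univ _),
    if_pos (Finset.mem_univ _), ← Finset.smul_sum, q]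
  simp only [smul_add, mul_smul, two_smul]
  abel

/-- The unique ambiguity is resolvable. -/
theorem base (hn3 : 3 ≤ n) (hn : Odd n) (t : F) :
    g t (some 0) * y F n 0 - y F n (Fin.last n) * g t (some (Fin.last n)) ∈
      elt F (W F n) (en n) (lw n) (g t) (en n (FreeMonoid.ofList (full n))) := by
  set s : ℤ := ((Equiv.Perm.sign (Fin.revPerm (n := n)) : ℤˣ) : ℤ) with hs
  have hss : s * s = 1 := units_sq _
  have halt : ∀ j : Fin (n + 1), altProd (fun k => y F n (j.succAbove k)) =
      s • g t (some j) + r t j := by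
    intro j
    rw [g, smul_smul, ← hs, hss, one_smul]
    abel
  have hid := altProd_identity hn (y F n)
  have h1 : s • ∑ j : Fin (n + 1), ((-1) ^ (j : ℕ) : ℤ) •
      (y F n j * g t (some j) + g t (some j) * y F n j) + (2 * t) • q F n = 0 := by
    rw [← r_sum hn t, ← hid, Finset.smul_sum, ← Finset.sum_add_distrib]
    refine Finset.sum_congr rfl fun j _ => ?_
    rw [halt j]
    simp only [mul_add, add_mul, smul_add, mul_smul_comm, smul_mul_assoc]
    rw [smul_comm s, smul_comm s]
    abel
  have h2 : ∑ j : Fin (n + 1), ((-1) ^ (j : ℕ) : ℤ) •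
      (y F n j * g t (some j) + g t (some j) * y F n j) = - (s • ((2 * t) • q F n)) := by
    have := congrArg (fun x => s • x) h1
    simp only [smul_add, smul_smul s s, hss, one_smul, smul_zero] at this
    rw [eq_neg_iff_add_eq_zero]
    simpa using this
  have h3 : ∑ j : Fin (n + 1), ((-1) ^ (j : ℕ) : ℤ) • (y F n j * g t (some j)) =
      - (y F n (Fin.last n) * g t (some (Fin.last n))) +
      ∑ j ∈ Finset.univ.erase (Fin.last n), ((-1) ^ (j : ℕ) : ℤ) • (y F n j * g t (some j)) := by
    rw [← Finset.add_sum_erase _ _ (Finset.mem_univ (Fin.last n))]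
    simp only [Fin.val_last, hn.neg_one_pow]
    simp
  have h4 : ∑ j : Fin (n + 1), ((-1) ^ (j : ℕ) : ℤ) • (g t (some j) * y F n j) =
      g t (some 0) * y F n 0 +
      ∑ j ∈ (Finset.univ : Finset (Fin (n + 1))).erase 0, ((-1) ^ (j : ℕ) : ℤ) • (g t (some j) * y F n j) := by
    rw [← Finset.add_sum_erase _ _ (Finset.mem_univ (0 : Fin (n + 1)))]
    simp
  simp only [smul_add, Finset.sum_add_distrib] at h2
  rw [h3, h4] at h2
  have h5 : g t (some 0) * y F n 0 - y F n (Fin.last n) * g t (some (Fin.last n)) =
      - (s • ((2 * t) • q F n)) -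
      ∑ j ∈ Finset.univ.erase (Fin.last n), ((-1) ^ (j : ℕ) : ℤ) • (y F n j * g t (some j)) -
      ∑ j ∈ (Finset.univ : Finset (Fin (n + 1))).erase 0, ((-1) ^ (j : ℕ) : ℤ) • (g t (some j) * y F n j) := by
    rw [← h2]
    abel
  rw [h5]
  refine sub_mem (sub_mem (neg_mem (zsmul_mem (Submodule.smul_mem _ _ (q_mem hn3 t)) _))
    (Submodule.sum_mem _ fun j hj => zsmul_mem ?_ _)) (Submodule.sum_mem _ fun j hj => zsmul_mem ?_ _)
  · exact y_mul_g_mem t j (Finset.mem_erase.mp hj).1
  · exact g_mul_y_mem t j (Finset.mem_erase.mp hj).1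

theorem P_aux (hn3 : 3 ≤ n) (hn : Odd n) (t : F) (a c b b' : FreeMonoid (Fin (n + 1)))
    (i j : Option (Fin (n + 1))) (h : lw n i * b = c * lw n j * b') :
    E (W F n) (g t) a i b - E (W F n) (g t) (a * c) j b' ∈
      elt F (W F n) (en n) (lw n) (g t) (en n (a * lw n i * b)) := by
  rcases overlap hn3 i j c.toList b.toList b'.toList h with ⟨h1, h2, h3⟩ | ⟨d, h1, h2⟩ |
    ⟨h1, h2, h3, h4⟩
  · have h1' : c = 1 := h1
    have h3' : b = b' := h3
    subst h1' h2 h3'
    simp
  · have h1' : c = lw n i * FreeMonoid.ofList d := h1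
    have h2' : b = FreeMonoid.ofList d * lw n j * b' := h2
    subst h1' h2'
    have := disjoint_case (F := F) (W F n) (en n) (lw n) (g t) en_mul (g_lead hn3 t) a
      (FreeMonoid.ofList d) b' i j
    simpa [mul_assoc] using this
  · have h3' : c = FreeMonoid.of (Fin.last n) := h3
    have h4' : b = FreeMonoid.of 0 * b' := h4
    subst h1 h2 h3' h4'
    have := mul_elt (F := F) (W F n) (en n) (lw n) (g t) en_mul a b' _ (base hn3 hn t)
    have e1 : E (W F n) (g t) a (some 0) (FreeMonoid.of 0 * b') -
        E (W F n) (g t) (a * FreeMonoid.of (Fin.last n)) (some (Fin.last n)) b' =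
        W F n a * (g t (some 0) * y F n 0 -
          y F n (Fin.last n) * g t (some (Fin.last n))) * W F n b' := by
      simp only [E, y, map_mul]
      noncomm_ring
    have e2 : a * lw n (some 0) * (FreeMonoid.of 0 * b') =
        a * FreeMonoid.ofList (full n) * b' := by
      have e3 : FreeMonoid.ofList (full n) = lw n (some 0) * FreeMonoid.of 0 := by
        rw [full_eq_append]
        rfl
      rw [e3]
      simp only [mul_assoc]
    rw [e1, e2]
    exact this

theorem P_all (hn3 : 3 ≤ n) (hn : Odd n) (t : F) (a : FreeMonoid (Fin (n + 1)))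
    (i : Option (Fin (n + 1))) (b a' : FreeMonoid (Fin (n + 1))) (j : Option (Fin (n + 1)))
    (b' : FreeMonoid (Fin (n + 1))) (h : a * lw n i * b = a' * lw n j * b') :
    E (W F n) (g t) a i b - E (W F n) (g t) a' j b' ∈
      elt F (W F n) (en n) (lw n) (g t) (en n (a * lw n i * b)) := by
  have h' : a.toList ++ (lwl i ++ b.toList) = a'.toList ++ (lwl j ++ b'.toList) := by
    have := h
    rw [mul_assoc, mul_assoc] at this
    exact this
  rcases List.append_eq_append_iff.mp h' with ⟨c, h1, h2⟩ | ⟨c, h1, h2⟩
  · have h1' : a' = a * FreeMonoid.ofList c := h1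
    subst h1'
    exact P_aux hn3 hn t a _ b b' i j (by rw [mul_assoc]; exact h2)
  · have h1' : a = a' * FreeMonoid.ofList c := h1
    rw [h]
    subst h1'
    have := P_aux hn3 hn t a' (FreeMonoid.ofList c) b' b j i (by rw [mul_assoc]; exact h2)
    rw [← neg_mem_iff, neg_sub]
    exact this

end Pool.Agent.H198R3.PozAlg
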