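import Pool.Agent.H198R3.AltProd

/-!
# Change of basis: from a hyperbolic pair to an orthonormal basis
-/

namespace Pool.Agent.H198R3.PozChange

open AltProd

variable {F A : Type*} [Field F] [AddCommGroup A] [Module F A] {m : ℕ}

/-- The new elements. -/
noncomputable def E (t : F) (y : Fin (m + 2) → A) (i : Fin (m + 2)) : A :=
  if i = 0 then (2 * t)⁻¹ • (y (Fin.last _) - y 0) else
    if i = Fin.last _ then (2 : F)⁻¹ • (y (Fin.last _) + y 0) else y i

theorem last_ne : (0 : Fin (m + 2)) ≠ Fin.last (m + 1) := by
  intro h
  have := congrArg Fin.val h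
  simp at this

variable (al : A [⋀^Fin (m + 1)]→ₗ[F] A) (t : F) (y : Fin (m + 2) → A)

theorem E_zero : E t y 0 = (2 * t)⁻¹ • (y (Fin.last _) - y 0) := by simp [E]

theorem E_last : E t y (Fin.last _) = (2 : F)⁻¹ • (y (Fin.last _) + y 0) := by
  rw [E, if_neg last_ne.symm, if_pos rfl]

theorem E_mid (i : Fin (m + 2)) (h0 : i ≠ 0) (hl : i ≠ Fin.last _) : E t y i = y i := by
  rw [E, if_neg h0, if_neg hl]

theorem al_rot1 (hm : Even m) :
    al (Function.update (fun k : Fin (m + 1) => y k.succ) (Fin.last m) (y 0)) =
      al (fun k => y k.castSucc) := by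
  have h : Function.update (fun k : Fin (m + 1) => y k.succ) (Fin.last m) (y 0) =
      (fun k => y k.castSucc) ∘ (finRotate (m + 1)) := by
    ext k
    simp only [Function.comp]
    refine Fin.lastCases ?_ (fun i => ?_) k
    · rw [Function.update_self, finRotate_last]
      rfl
    · rw [Function.update_of_ne (Fin.castSucc_lt_last i).ne, finRotate_apply,
        Fin.coeSucc_eq_succ]
      rfl
  rw [h, AlternatingMap.map_perm, sign_finRotate]
  simp [hm.neg_one_pow]

theorem al_rot2 (hm : Even m) :
    al (Function.update (fun k : Fin (m + 1) => y k.castSucc) 0 (y (Fin.last _))) =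
      al (fun k => y k.succ) := by
  have h : (fun k : Fin (m + 1) => y k.succ) =
      (Function.update (fun k : Fin (m + 1) => y k.castSucc) 0 (y (Fin.last _))) ∘
        (finRotate (m + 1)) := by
    ext k
    simp only [Function.comp]
    refine Fin.lastCases ?_ (fun i => ?_) k
    · rw [finRotate_last, Function.update_self]
      rfl
    · rw [finRotate_apply, Fin.coeSucc_eq_succ, Function.update_of_ne (Fin.succ_ne_zero i)]
      rfl
  rw [h, AlternatingMap.map_perm, sign_finRotate]
  simp [hm.neg_one_pow]

theorem alt_E_zero (hm : Even m) (ht : t * t = -1) (h2 : (2 : F) ≠ 0)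
    (h0 : al (fun k => y k.succ) = t • y (Fin.last _))
    (hl : al (fun k => y k.castSucc) = (-t) • y 0) :
    al (fun k => E t y ((0 : Fin (m + 2)).succAbove k)) = - E t y 0 := by
  have ht0 : t ≠ 0 := by
    rintro rfl
    rw [zero_mul] at ht
    exact one_ne_zero (neg_eq_zero.mp ht.symm)
  have h : (fun k => E t y ((0 : Fin (m + 2)).succAbove k)) =
      Function.update (fun k : Fin (m + 1) => y k.succ) (Fin.last m)
        ((2 : F)⁻¹ • (y (Fin.last _) + y 0)) := by
    ext k
    refine Fin.lastCases ?_ (fun i => ?_) k
    · rw [Function.update_self, Fin.succAbove_zero, Fin.succ_last, E_last]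
    · rw [Function.update_of_ne (Fin.castSucc_lt_last i).ne, Fin.succAbove_zero, E_mid]
      · exact Fin.succ_ne_zero _
      · intro h
        rw [← Fin.succ_last, Fin.succ_inj] at h
        exact (Fin.castSucc_lt_last i).ne h
  rw [h, AlternatingMap.map_update_smul, AlternatingMap.map_update_add, al_rot1 al y hm, hl, E_zero]
  have h3 : Function.update (fun k : Fin (m + 1) => y k.succ) (Fin.last m) (y (Fin.last _)) =
      (fun k => y k.succ) := by
    rw [Function.update_eq_self_iff, Fin.succ_last]
  rw [h3, h0, ← smul_neg, neg_sub]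
  have h4 : (2 * t)⁻¹ = (2 : F)⁻¹ * (-t) := by
    rw [mul_inv]
    congr 1
    exact inv_eq_of_mul_eq_one_right (by linear_combination -ht)
  rw [h4, mul_smul]
  congr 1
  rw [smul_sub, neg_smul, neg_smul]
  abel

theorem alt_E_last (hm : Even m) (ht : t * t = -1) (h2 : (2 : F) ≠ 0)
    (h0 : al (fun k => y k.succ) = t • y (Fin.last _))
    (hl : al (fun k => y k.castSucc) = (-t) • y 0) :
    al (fun k => E t y ((Fin.last (m + 1)).succAbove k)) = E t y (Fin.last _) := by
  have ht0 : t ≠ 0 := by
    rintro rfl
    rw [zero_mul] at ht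
    exact one_ne_zero (neg_eq_zero.mp ht.symm)
  have h : (fun k => E t y ((Fin.last (m + 1)).succAbove k)) =
      Function.update (fun k : Fin (m + 1) => y k.castSucc) 0
        ((2 * t)⁻¹ • (y (Fin.last _) - y 0)) := by
    ext k
    refine Fin.cases ?_ (fun i => ?_) k
    · rw [Function.update_self, Fin.succAbove_last, Fin.castSucc_zero, E_zero]
    · rw [Function.update_of_ne (Fin.succ_ne_zero i), Fin.succAbove_last, E_mid]
      · rw [Ne, Fin.castSucc_eq_zero_iff]
        exact Fin.succ_ne_zero _
      · exact (Fin.castSucc_lt_last _).ne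
  rw [h, AlternatingMap.map_update_smul, AlternatingMap.map_update_sub, al_rot2 al y hm, h0, E_last]
  have h3 : Function.update (fun k : Fin (m + 1) => y k.castSucc) 0 (y 0) =
      (fun k => y k.castSucc) := by
    rw [Function.update_eq_self_iff, Fin.castSucc_zero]
  rw [h3, hl, neg_smul, sub_neg_eq_add, ← smul_add, smul_smul]
  congr 1
  field_simp

theorem alt_E_mid (ht : t * t = -1) (h2 : (2 : F) ≠ 0) (j : Fin (m + 2)) (hj0 : j ≠ 0)
    (hjl : j ≠ Fin.last _)
    (hj : al (fun k => y (j.succAbove k)) = (2 * t * (-1) ^ (j : ℕ)) • y j) :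
    al (fun k => E t y (j.succAbove k)) = - ((-1 : F) ^ (j : ℕ) • E t y j) := by
  have ht0 : t ≠ 0 := by
    rintro rfl
    rw [zero_mul] at ht
    exact one_ne_zero (neg_eq_zero.mp ht.symm)
  have hm0 : (0 : Fin (m + 1)) ≠ Fin.last m := by
    intro h
    have h1 := congrArg Fin.val h
    simp only [Fin.val_zero, Fin.val_last] at h1
    subst h1
    have := j.isLt
    have h3 : j.val ≠ 0 := fun h => hj0 (Fin.ext h)
    have h4 : j.val ≠ 1 := fun h => hjl (Fin.ext h)
    omega
  set w : Fin (m + 1) → A := fun k => y (j.succAbove k) with hw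
  have hs0 : j.succAbove 0 = 0 := Fin.succAbove_ne_zero_zero hj0
  have hsl : j.succAbove (Fin.last m) = Fin.last (m + 1) := Fin.succAbove_ne_last_last hjl
  have hw0 : w 0 = y 0 := by simp only [hw, hs0]
  have hwl : w (Fin.last m) = y (Fin.last _) := by simp only [hw, hsl]
  have h : (fun k => E t y (j.succAbove k)) =
      Function.update (Function.update w 0 ((2 * t)⁻¹ • (y (Fin.last _) - y 0))) (Fin.last m)
        ((2 : F)⁻¹ • (y (Fin.last _) + y 0)) := by
    ext k
    by_cases hk1 : k = Fin.last m
    · subst hk1
      rw [Function.update_self, hsl, E_last]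
    · rw [Function.update_of_ne hk1]
      by_cases hk0 : k = 0
      · subst hk0
        rw [Function.update_self, hs0, E_zero]
      · rw [Function.update_of_ne hk0, E_mid]
        · intro h
          apply hk0
          rw [← hs0] at h
          exact Fin.succAbove_right_injective h
        · intro h
          apply hk1
          rw [← hsl] at h
          exact Fin.succAbove_right_injective h
  have e1 : al (Function.update (Function.update w 0 (y (Fin.last _))) (Fin.last m)
      (y (Fin.last _))) = 0 := by
    apply al.map_eq_zero_of_eq _ _ hm0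
    rw [Function.update_self, Function.update_of_ne hm0, Function.update_self]
  have e2 : al (Function.update (Function.update w 0 (y 0)) (Fin.last m) (y 0)) = 0 := by
    apply al.map_eq_zero_of_eq _ _ hm0
    rw [Function.update_self, Function.update_of_ne hm0, Function.update_self]
  have e3 : al (Function.update (Function.update w 0 (y 0)) (Fin.last m) (y (Fin.last _))) =
      al w := by
    congr 1
    rw [← hw0, Function.update_eq_self, ← hwl, Function.update_eq_self]
  have e4 : al (Function.update (Function.update w 0 (y (Fin.last _))) (Fin.last m) (y 0)) =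
      - al w := by
    rw [← al.map_swap w hm0]
    congr 1
    ext k
    simp only [Function.comp]
    by_cases hk1 : k = Fin.last m
    · subst hk1
      rw [Function.update_self, Equiv.swap_apply_right, hw0]
    · rw [Function.update_of_ne hk1]
      by_cases hk0 : k = 0
      · subst hk0
        rw [Function.update_self, Equiv.swap_apply_left, hwl]
      · rw [Function.update_of_ne hk0, Equiv.swap_apply_of_ne_of_ne hk0 hk1]
  rw [h, AlternatingMap.map_update_smul, AlternatingMap.map_update_add]
  have e5 : ∀ z, al (Function.update (Function.update w 0 ((2 * t)⁻¹ • (y (Fin.last _) - y 0)))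
      (Fin.last m) z) = (2 * t)⁻¹ • (al (Function.update (Function.update w 0 (y (Fin.last _)))
      (Fin.last m) z) - al (Function.update (Function.update w 0 (y 0)) (Fin.last m) z)) := by
    intro z
    rw [Function.update_comm hm0, AlternatingMap.map_update_smul, AlternatingMap.map_update_sub,
      Function.update_comm hm0.symm, Function.update_comm hm0.symm]
  rw [e5, e5, e1, e2, e3, e4, E_mid t y j hj0 hjl]
  rw [hj]
  simp only [smul_smul, zero_sub, sub_zero, ← add_smul, ← neg_smul]
  congr 1
  field_simp
  ring

end Pool.Agent.H198R3.PozChange
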