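import Pool.Agent.H198R3.PozAlg
import Pool.Agent.H198R3.PozChange

/-!
# The embedding of `L_{n+1}` for odd `n`
-/

namespace Pool.Agent.H198R3.PozFinal

open Diamond Words AltProd PozAlg

section quotient

variable (F : Type*) [Field F] (n : ℕ)

theorem span_W : Submodule.span F (Set.range (W F n)) = ⊤ := by
  rw [eq_top_iff]
  intro x _
  induction x using MonoidAlgebra.induction_linear with
  | zero => exact zero_mem _
  | add x y hx hy => exact add_mem (hx trivial) (hy trivial)
  | single a b =>
    have : MonoidAlgebra.single a b = b • W F n a := by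
      change _ = b • MonoidAlgebra.single a (1 : F)
      rw [MonoidAlgebra.smul_single, smul_eq_mul, mul_one]
    rw [this]
    exact Submodule.smul_mem _ _ (Submodule.subset_span ⟨a, rfl⟩)

/-- The span of the elements `a g_i b`. -/
noncomputable def sp (t : F) : Submodule F (R F n) :=
  Submodule.span F {x | ∃ a i b, x = E (W F n) (g t) a i b}

variable {F n}

theorem mul_sp_left (t : F) (r x : R F n) (hx : x ∈ sp F n t) : r * x ∈ sp F n t := by
  have hr : r ∈ Submodule.span F (Set.range (W F n)) := by rw [span_W]; trivial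
  induction hr using Submodule.span_induction with
  | mem r hr =>
    obtain ⟨u, rfl⟩ := hr
    unfold sp at hx
    induction hx using Submodule.span_induction with
    | mem x hx =>
      obtain ⟨a, i, b, rfl⟩ := hx
      exact Submodule.subset_span ⟨u * a, i, b, by simp [E, mul_assoc]⟩
    | zero => rw [mul_zero]; exact zero_mem _
    | add x y _ _ hx hy => rw [mul_add]; exact add_mem hx hy
    | smul c x _ hx => rw [mul_smul_comm]; exact Submodule.smul_mem _ _ hx
  | zero => rw [zero_mul]; exact zero_mem _
  | add x y _ _ hx hy => rw [add_mul]; exact add_mem hx hy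
  | smul c x _ hx => rw [smul_mul_assoc]; exact Submodule.smul_mem _ _ hx

theorem mul_sp_right (t : F) (r x : R F n) (hx : x ∈ sp F n t) : x * r ∈ sp F n t := by
  have hr : r ∈ Submodule.span F (Set.range (W F n)) := by rw [span_W]; trivial
  induction hr using Submodule.span_induction with
  | mem r hr =>
    obtain ⟨u, rfl⟩ := hr
    unfold sp at hx
    induction hx using Submodule.span_induction with
    | mem x hx =>
      obtain ⟨a, i, b, rfl⟩ := hx
      exact Submodule.subset_span ⟨a, i, b * u, by simp [E, mul_assoc]⟩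
    | zero => rw [zero_mul]; exact zero_mem _
    | add x y _ _ hx hy => rw [add_mul]; exact add_mem hx hy
    | smul c x _ hx => rw [smul_mul_assoc]; exact Submodule.smul_mem _ _ hx
  | zero => rw [mul_zero]; exact zero_mem _
  | add x y _ _ hx hy => rw [mul_add]; exact add_mem hx hy
  | smul c x _ hx => rw [mul_smul_comm]; exact Submodule.smul_mem _ _ hx

/-- The ideal of relations. -/
noncomputable def idl (t : F) : Ideal (R F n) where
  carrier := sp F n t
  add_mem' := fun ha hb => add_mem ha hb
  zero_mem' := zero_mem _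
  smul_mem' := fun c x hx => mul_sp_left t c x hx

instance (t : F) : (idl (n := n) t).IsTwoSided := ⟨fun {x} r hx => mul_sp_right t r x hx⟩

theorem mem_idl (t : F) (x : R F n) : x ∈ idl t ↔ x ∈ sp F n t := Iff.rfl

theorem sp_elt (t : F) (x : R F n) (hx : x ∈ sp F n t) :
    ∃ N, x ∈ elt F (W F n) (en n) (lw n) (g t) N := by
  unfold sp at hx
  induction hx using Submodule.span_induction with
  | mem x hx =>
    obtain ⟨a, i, b, rfl⟩ := hx
    exact ⟨en n (a * lw n i * b) + 1, Submodule.subset_span ⟨a, i, b, by omega, rfl⟩⟩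
  | zero => exact ⟨0, zero_mem _⟩
  | add x y _ _ hx hy =>
    obtain ⟨N, hN⟩ := hx
    obtain ⟨N', hN'⟩ := hy
    exact ⟨max N N', add_mem (elt_mono _ _ _ _ (le_max_left _ _) hN)
      (elt_mono _ _ _ _ (le_max_right _ _) hN')⟩
  | smul c x _ hx =>
    obtain ⟨N, hN⟩ := hx
    exact ⟨N, Submodule.smul_mem _ _ hN⟩

theorem lw_length (hn : 3 ≤ n) (i : Option (Fin (n + 1))) : 2 ≤ (lw n i).toList.length := by
  cases i with
  | some j =>
    change 2 ≤ (miss j).length
    rw [miss_length]
    omega
  | none => change 2 ≤ [Fin.last n, 0].length; simp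

theorem cf_word (hn : 3 ≤ n) (a : FreeMonoid (Fin (n + 1))) (i : Option (Fin (n + 1)))
    (b : FreeMonoid (Fin (n + 1))) (c : Fin (n + 1) → F) :
    cf F n (a * lw n i * b) (∑ j, c j • y F n j) = 0 := by
  rw [map_sum]
  apply Finset.sum_eq_zero
  intro j _
  rw [map_smul, y, cf_W, if_neg, smul_zero]
  intro h
  have h1 := congrArg (fun w : FreeMonoid (Fin (n + 1)) => w.toList.length) h
  have h2 := lw_length hn i
  simp only [FreeMonoid.toList_mul, List.length_append, FreeMonoid.toList_of,
    List.length_singleton] at h1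
  omega

/-- The letters are linearly independent modulo the relations. -/
theorem y_indep (hn3 : 3 ≤ n) (hn : Odd n) (t : F) :
    LinearIndependent F (fun j => Ideal.Quotient.mk (idl t) (y F n j)) := by
  rw [Fintype.linearIndependent_iff]
  intro c hc
  have h1 : (∑ j, c j • y F n j) ∈ idl t := by
    rw [← Ideal.Quotient.eq_zero_iff_mem, ← hc, map_sum]
    rfl
  rw [mem_idl] at h1
  obtain ⟨N, hN⟩ := sp_elt t _ h1
  have h2 : (∑ j, c j • y F n j) = 0 := by
    by_contra h0
    obtain ⟨a, i, b, h3⟩ := Diamond.main (F := F) (W F n) (cf F n) (en n) (lw n) (g t) cf_W en_inj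
      en_mul (g_lead hn3 t) (P_all hn3 hn t) N _ hN h0
    exact h3 (cf_word hn3 a i b c)
  intro j
  have h3 := congrArg (cf F n (FreeMonoid.of j)) h2
  rw [map_sum, map_zero] at h3
  rw [Finset.sum_eq_single j] at h3
  · rw [map_smul, y, cf_W, if_pos rfl] at h3
    simpa using h3
  · intro k _ hk
    rw [map_smul, y, cf_W, if_neg, smul_zero]
    intro h
    exact hk (FreeMonoid.of_injective h).symm
  · intro h
    exact absurd (Finset.mem_univ j) h

theorem mk_altProd (t : F) {m : ℕ} (a : Fin m → R F n) :
    Ideal.Quotient.mk (idl t) (altProd a) = altProd (fun k => Ideal.Quotient.mk (idl t) (a k)) := by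
  simp only [altProd, map_sum, map_zsmul, map_list_prod, List.map_ofFn]
  rfl

theorem alt_rel (t : F) (j : Fin (n + 1)) :
    altProd (fun k => Ideal.Quotient.mk (idl t) (y F n (j.succAbove k))) =
      Ideal.Quotient.mk (idl t) (r t j) := by
  have h1 : g t (some j) ∈ idl t :=
    Submodule.subset_span ⟨1, some j, 1, by simp [E]⟩
  have h2 : altProd (fun k => y F n (j.succAbove k)) - r t j ∈ idl t := by
    have : altProd (fun k => y F n (j.succAbove k)) - r t j =
        ((Equiv.Perm.sign (Fin.revPerm (n := n)) : ℤˣ) : ℤ) • g t (some j) := by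
      rw [g, smul_smul, units_sq, one_smul]
    rw [this]
    exact zsmul_mem h1 _
  rw [← mk_altProd, ← sub_eq_zero, ← map_sub]
  exact Ideal.Quotient.eq_zero_iff_mem.mpr h2

end quotient

/-- Over a field `F` of characteristic not two containing a square root of `-1` there is an
associative algebra with linearly independent elements `E_0, …, E_n` (with `n` odd) such that
`alt(E_0, …, Ê_j, …, E_n) = (-1)^(n + j) E_j`. -/
theorem exists_alg (F : Type*) [Field F] (h2 : (2 : F) ≠ 0) (t : F) (ht : t * t = -1) (n : ℕ)
    (hn3 : 3 ≤ n) (hn : Odd n) :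
    ∃ x : Fin (n + 1) → R F n ⧸ idl (n := n) t, LinearIndependent F x ∧
      ∀ j : Fin (n + 1), altProd (fun k => x (j.succAbove k)) = (-1 : F) ^ (n + (j : ℕ)) • x j := by
  obtain ⟨m, rfl⟩ : ∃ m, n = m + 1 := ⟨n - 1, by omega⟩
  have hm : Even m := by
    rw [Nat.odd_add_one, Nat.not_odd_iff_even] at hn
    exact hn
  have ht0 : t ≠ 0 := by
    rintro rfl
    rw [zero_mul] at ht
    exact one_ne_zero (neg_eq_zero.mp ht.symm)
  let A := R F (m + 1) ⧸ idl (n := m + 1) t
  let yy : Fin (m + 2) → A := fun j => Ideal.Quotient.mk (idl t) (y F (m + 1) j)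
  let al := MultilinearMap.alternatization (MultilinearMap.mkPiAlgebraFin F (m + 1) A)
  have hal : ∀ a : Fin (m + 1) → A, altProd a = al a := altProd_eq_alternatization
  have hr : ∀ j, al (fun k => yy (j.succAbove k)) = Ideal.Quotient.mk (idl t) (r t j) := by
    intro j
    rw [← hal]
    exact alt_rel t j
  have h0 : al (fun k => yy k.succ) = t • yy (Fin.last _) := by
    have := hr 0
    rw [r, if_pos rfl] at this
    simp only [Fin.succAbove_zero] at this
    exact this
  have hl : al (fun k => yy k.castSucc) = (-t) • yy 0 := by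
    have := hr (Fin.last _)
    rw [r, if_neg (PozChange.last_ne).symm, if_pos rfl] at this
    simp only [Fin.succAbove_last] at this
    exact this
  have hmid : ∀ j : Fin (m + 2), j ≠ 0 → j ≠ Fin.last _ →
      al (fun k => yy (j.succAbove k)) = (2 * t * (-1) ^ (j : ℕ)) • yy j := by
    intro j hj0 hjl
    have := hr j
    rw [r, if_neg hj0, if_neg hjl] at this
    exact this
  have hodd : ∀ j : ℕ, (-1 : F) ^ (m + 1 + j) = - (-1) ^ j := by
    intro j
    rw [pow_add, hn.neg_one_pow]
    ring
  refine ⟨PozChange.E t yy, ?_, ?_⟩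
  · have hy : LinearIndependent F yy := y_indep hn3 hn t
    rw [Fintype.linearIndependent_iff] at hy ⊢
    intro c hc
    have hne := PozChange.last_ne (m := m)
    have key := hy (fun j => if j = 0 then - (2 * t)⁻¹ * c 0 + 2⁻¹ * c (Fin.last _) else
      if j = Fin.last _ then (2 * t)⁻¹ * c 0 + 2⁻¹ * c (Fin.last _) else c j) (by
      rw [← hc]
      have e1 : ∀ f : Fin (m + 2) → A, ∑ j, f j = f 0 + (f (Fin.last _) +
          ∑ j ∈ (Finset.univ.erase 0).erase (Fin.last _), f j) := by
        intro f
        rw [← Finset.add_sum_erase _ _ (Finset.mem_univ (0 : Fin (m + 2))),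
          ← Finset.add_sum_erase _ _ (Finset.mem_erase.mpr ⟨hne.symm, Finset.mem_univ _⟩)]
      rw [e1, e1]
      have e2 : ∑ j ∈ (Finset.univ.erase 0).erase (Fin.last _),
          (if j = 0 then - (2 * t)⁻¹ * c 0 + 2⁻¹ * c (Fin.last _) else
            if j = Fin.last _ then (2 * t)⁻¹ * c 0 + 2⁻¹ * c (Fin.last _) else c j) • yy j =
          ∑ j ∈ (Finset.univ.erase 0).erase (Fin.last _), c j • PozChange.E t yy j := by
        refine Finset.sum_congr rfl fun j hj => ?_
        have hj1 := (Finset.mem_erase.mp hj).1
        have hj0 := (Finset.mem_erase.mp (Finset.mem_erase.mp hj).2).1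
        rw [if_neg hj0, if_neg hj1, PozChange.E_mid t yy j hj0 hj1]
      rw [e2, if_pos rfl, if_neg hne.symm, if_pos rfl, PozChange.E_zero, PozChange.E_last,
        ← add_assoc, ← add_assoc]
      congr 1
      simp only [smul_add, smul_sub, add_smul, mul_smul, neg_smul, neg_mul]
      rw [smul_comm (c 0), smul_comm (c 0), smul_comm (c (Fin.last _)), smul_comm (c (Fin.last _))]
      abel)
    have k0 := key 0
    have kl := key (Fin.last _)
    rw [if_pos rfl] at k0
    rw [if_neg hne.symm, if_pos rfl] at kl
    have hc0 : c 0 = 0 := by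
      have : (2 * t)⁻¹ * c 0 * 2 = 0 := by linear_combination kl - k0
      have h3 : (2 * t)⁻¹ ≠ 0 := inv_ne_zero (mul_ne_zero h2 ht0)
      rcases mul_eq_zero.mp this with h | h
      · rcases mul_eq_zero.mp h with h | h
        · exact absurd h h3
        · exact h
      · exact absurd h h2
    have hcl : c (Fin.last _) = 0 := by
      have h3 : (2 : F)⁻¹ ≠ 0 := inv_ne_zero h2
      rw [hc0, mul_zero, zero_add] at kl
      rcases mul_eq_zero.mp kl with h | h
      · exact absurd h h3
      · exact h
    intro j
    by_cases hj0 : j = 0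
    · rw [hj0, hc0]
    · by_cases hjl : j = Fin.last _
      · rw [hjl, hcl]
      · have := key j
        rwa [if_neg hj0, if_neg hjl] at this
  · intro j
    rw [hal, hodd]
    by_cases hj0 : j = 0
    · subst hj0
      rw [PozChange.alt_E_zero al t yy hm ht h2 h0 hl]
      simp
    · by_cases hjl : j = Fin.last _
      · subst hjl
        rw [PozChange.alt_E_last al t yy hm ht h2 h0 hl]
        rw [Fin.val_last, hn.neg_one_pow, neg_neg, one_smul]
      · rw [PozChange.alt_E_mid al t yy ht h2 j hj0 hjl (hmid j hj0 hjl), neg_smul]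

/-- An injective choice of `n` of the `n + 1` indices. -/
theorem injective_factor {n : ℕ} (v : Fin n → Fin (n + 1)) (hv : Function.Injective v) :
    ∃ (i : Fin (n + 1)) (σ : Equiv.Perm (Fin n)), v = fun k => i.succAbove (σ k) := by
  have h1 : ¬ Function.Surjective v := by
    intro h
    have := Fintype.card_le_of_surjective v h
    simp at this
  rw [Function.Surjective] at h1
  push Not at h1
  obtain ⟨i, hi⟩ := h1
  have h2 : ∀ k, ∃ l, i.succAbove l = v k := fun k => Fin.exists_succAbove_eq (hi k)
  choose s hs using h2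
  have hinj : Function.Injective s := by
    intro a b hab
    apply hv
    rw [← hs a, ← hs b, hab]
  refine ⟨i, Equiv.ofBijective s (Finite.injective_iff_bijective.mp hinj), ?_⟩
  ext k
  rw [← hs k]
  rfl

/-- The embedding. -/
theorem embed {K : Type*} [Field K] (h2 : (2 : K) ≠ 0) {n : ℕ} (hn3 : 3 ≤ n) (hn : Odd n)
    {L : Type*} [AddCommGroup L] [Module K L] (e : Module.Basis (Fin (n + 1)) K L)
    (B : L [⋀^Fin n]→ₗ[K] L)
    (hB : ∀ i : Fin (n + 1), B (fun k => e (i.succAbove k)) =
      (-1 : K) ^ (n + (i : ℕ)) • e i) :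
    ∃ t : AlgebraicClosure K, ∃ j : L →ₗ[K] (R (AlgebraicClosure K) n ⧸ idl (n := n) t),
      Function.Injective j ∧ ∀ v : Fin n → L, j (B v) = altProd (fun k => j (v k)) := by
  have h2' : (2 : AlgebraicClosure K) ≠ 0 := by
    have h := (map_ne_zero (algebraMap K (AlgebraicClosure K))).mpr h2
    rwa [map_ofNat] at h
  obtain ⟨t, ht⟩ := IsAlgClosed.exists_eq_mul_self (-1 : AlgebraicClosure K)
  obtain ⟨x, hx, hxa⟩ := exists_alg (AlgebraicClosure K) h2' t ht.symm n hn3 hn
  refine ⟨t, e.constr K x, ?_, ?_⟩
  · have hxK : LinearIndependent K x := hx.restrict_scalars' K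
    rw [← LinearMap.ker_eq_bot]
    have := hxK
    rw [LinearMap.ker_eq_bot']
    intro v hv
    have h1 : e.constr K x v = ∑ i, e.repr v i • x i := by
      rw [Module.Basis.constr_apply_fintype]
      rfl
    rw [h1] at hv
    have h3 := Fintype.linearIndependent_iff.mp hxK _ hv
    apply e.repr.injective
    ext i
    rw [h3 i, map_zero]
    rfl
  · intro v
    set j := e.constr K x with hj
    let A := R (AlgebraicClosure K) n ⧸ idl (n := n) t
    have halt : ∀ a : Fin n → A, altProd a =
        MultilinearMap.alternatization (MultilinearMap.mkPiAlgebraFin K n A) a :=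
      altProd_eq_alternatization
    have key : j.compAlternatingMap B =
        (MultilinearMap.alternatization (MultilinearMap.mkPiAlgebraFin K n A)).compLinearMap j := by
      apply Module.Basis.ext_alternating e
      intro w hw
      obtain ⟨i, σ, rfl⟩ := injective_factor w hw
      rw [LinearMap.compAlternatingMap_apply, AlternatingMap.compLinearMap_apply]
      have e1 : (fun k => e (i.succAbove (σ k))) = (fun k => e (i.succAbove k)) ∘ σ := rfl
      have e2 : (fun k => j (e (i.succAbove (σ k)))) = (fun k => j (e (i.succAbove k))) ∘ σ := rfl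
      have e3 : ∀ k, j (e k) = x k := fun k => by rw [hj, Module.Basis.constr_basis]
      rw [e1, AlternatingMap.map_perm, hB]
      change _ = MultilinearMap.alternatization (MultilinearMap.mkPiAlgebraFin K n A)
        (fun k => j (e (i.succAbove (σ k))))
      rw [e2, AlternatingMap.map_perm, ← halt]
      simp only [e3]
      rw [hxa, Units.smul_def, Units.smul_def, map_zsmul, map_smul, e3]
      congr 1
      rw [← algebraMap_smul (AlgebraicClosure K) ((-1 : K) ^ (n + (i : ℕ)))]
      simp
    have h := congrArg (fun f => f v) key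
    simp only [LinearMap.compAlternatingMap_apply, AlternatingMap.compLinearMap_apply] at h
    rw [h, halt]

end Pool.Agent.H198R3.PozFinal
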