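import Mathlib

/-!
# Transposed Poisson algebras and free transposed Poisson algebras
-/

namespace Pool.Agent.H198R3.TP

universe u v w

/-- A transposed Poisson algebra structure on the `F`-vector space `L`: a commutative associative
bilinear product `mul` (no unit assumed) and a Lie bracket `br` with
`2 z · [x, y] = [z · x, y] + [x, z · y]`. -/
class TPAlg (F : Type u) (L : Type v) [Field F] [AddCommGroup L] [Module F L] where
  /-- the commutative associative product -/
  mul : L → L → L
  /-- the Lie bracket -/
  br : L → L → L
  mul_comm : ∀ x y, mul x y = mul y x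
  mul_assoc : ∀ x y z, mul (mul x y) z = mul x (mul y z)
  add_mul : ∀ x y z, mul (x + y) z = mul x z + mul y z
  smul_mul : ∀ (c : F) x y, mul (c • x) y = c • mul x y
  add_br : ∀ x y z, br (x + y) z = br x z + br y z
  smul_br : ∀ (c : F) x y, br (c • x) y = c • br x y
  br_add : ∀ x y z, br x (y + z) = br x y + br x z
  br_smul : ∀ (c : F) x y, br x (c • y) = c • br x y
  br_self : ∀ x, br x x = 0
  jacobi : ∀ x y z, br x (br y z) + br y (br z x) + br z (br x y) = 0
  tp : ∀ x y z, (2 : F) • mul z (br x y) = br (mul z x) y + br x (mul z y)

/-- The terms in the variables `X` built with the operations of an `F`-vector space with two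
products. -/
inductive Term (F : Type u) (X : Type v) : Type (max u v)
  | var : X → Term F X
  | zero : Term F X
  | add : Term F X → Term F X → Term F X
  | smul : F → Term F X → Term F X
  | mul : Term F X → Term F X → Term F X
  | br : Term F X → Term F X → Term F X

open Term in
/-- The smallest congruence on the terms containing the vector space axioms, bilinearity of both
products and the defining identities of transposed Poisson algebras. -/
inductive Rel (F : Type u) (X : Type v) [Field F] : Term F X → Term F X → Prop
  | refl (a) : Rel F X a a
  | symm {a b} : Rel F X a b → Rel F X b a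
  | trans {a b c} : Rel F X a b → Rel F X b c → Rel F X a c
  | add_congr {a a' b b'} : Rel F X a a' → Rel F X b b' → Rel F X (add a b) (add a' b')
  | smul_congr (c : F) {a a'} : Rel F X a a' → Rel F X (smul c a) (smul c a')
  | mul_congr {a a' b b'} : Rel F X a a' → Rel F X b b' → Rel F X (mul a b) (mul a' b')
  | br_congr {a a' b b'} : Rel F X a a' → Rel F X b b' → Rel F X (br a b) (br a' b')
  | add_assoc (a b c) : Rel F X (add (add a b) c) (add a (add b c))
  | add_comm (a b) : Rel F X (add a b) (add b a)
  | zero_add (a) : Rel F X (add zero a) a
  | zero_smul (a) : Rel F X (smul 0 a) zero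
  | one_smul (a) : Rel F X (smul 1 a) a
  | mul_smul (c d : F) (a) : Rel F X (smul (c * d) a) (smul c (smul d a))
  | smul_add (c : F) (a b) : Rel F X (smul c (add a b)) (add (smul c a) (smul c b))
  | add_smul (c d : F) (a) : Rel F X (smul (c + d) a) (add (smul c a) (smul d a))
  | mul_comm (a b) : Rel F X (mul a b) (mul b a)
  | mul_assoc (a b c) : Rel F X (mul (mul a b) c) (mul a (mul b c))
  | add_mul (a b c) : Rel F X (mul (add a b) c) (add (mul a c) (mul b c))
  | smul_mul (c : F) (a b) : Rel F X (mul (smul c a) b) (smul c (mul a b))
  | add_br (a b c) : Rel F X (br (add a b) c) (add (br a c) (br b c))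
  | smul_br (c : F) (a b) : Rel F X (br (smul c a) b) (smul c (br a b))
  | br_add (a b c) : Rel F X (br a (add b c)) (add (br a b) (br a c))
  | br_smul (c : F) (a b) : Rel F X (br a (smul c b)) (smul c (br a b))
  | br_self (a) : Rel F X (br a a) zero
  | jacobi (a b c) :
      Rel F X (add (add (br a (br b c)) (br b (br c a))) (br c (br a b))) zero
  | tp (a b c) :
      Rel F X (smul 2 (mul c (br a b))) (add (br (mul c a) b) (br a (mul c b)))

/-- The free transposed Poisson algebra over `F` on the set `X`. -/
def FreeTP (F : Type u) (X : Type v) [Field F] : Type (max u v) := Quot (Rel F X)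

namespace FreeTP

variable {F : Type u} {X : Type v} [Field F]

/-- The class of a term. -/
def mk (t : Term F X) : FreeTP F X := Quot.mk _ t

theorem mk_eq {a b : Term F X} (h : Rel F X a b) : mk a = mk b := Quot.sound h

/-- The free generators. -/
def gen (F : Type u) {X : Type v} [Field F] (x : X) : FreeTP F X := mk (Term.var x)

instance : Zero (FreeTP F X) := ⟨mk Term.zero⟩

instance : Add (FreeTP F X) :=
  ⟨Quot.map₂ Term.add (fun a _ _ h => Rel.add_congr (Rel.refl a) h)
    (fun _ _ b h => Rel.add_congr h (Rel.refl b))⟩

instance : SMul F (FreeTP F X) := ⟨fun c => Quot.map (Term.smul c) (fun _ _ h => Rel.smul_congr c h)⟩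

instance : Neg (FreeTP F X) := ⟨fun a => (-1 : F) • a⟩

/-- The commutative product. -/
def mul : FreeTP F X → FreeTP F X → FreeTP F X :=
  Quot.map₂ Term.mul (fun a _ _ h => Rel.mul_congr (Rel.refl a) h)
    (fun _ _ b h => Rel.mul_congr h (Rel.refl b))

/-- The bracket. -/
def br : FreeTP F X → FreeTP F X → FreeTP F X :=
  Quot.map₂ Term.br (fun a _ _ h => Rel.br_congr (Rel.refl a) h)
    (fun _ _ b h => Rel.br_congr h (Rel.refl b))

theorem zero_smul' (a : FreeTP F X) : (0 : F) • a = 0 := by
  induction a using Quot.ind with | _ a => exact mk_eq (Rel.zero_smul a)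

theorem zero_add' (a : FreeTP F X) : 0 + a = a := by
  induction a using Quot.ind with | _ a => exact mk_eq (Rel.zero_add a)

theorem add_comm' (a b : FreeTP F X) : a + b = b + a := by
  induction a using Quot.ind with | _ a =>
  induction b using Quot.ind with | _ b => exact mk_eq (Rel.add_comm a b)

theorem add_assoc' (a b c : FreeTP F X) : a + b + c = a + (b + c) := by
  induction a using Quot.ind with | _ a =>
  induction b using Quot.ind with | _ b =>
  induction c using Quot.ind with | _ c => exact mk_eq (Rel.add_assoc a b c)

theorem one_smul' (a : FreeTP F X) : (1 : F) • a = a := by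
  induction a using Quot.ind with | _ a => exact mk_eq (Rel.one_smul a)

theorem mul_smul' (c d : F) (a : FreeTP F X) : (c * d) • a = c • (d • a) := by
  induction a using Quot.ind with | _ a => exact mk_eq (Rel.mul_smul c d a)

theorem smul_add' (c : F) (a b : FreeTP F X) : c • (a + b) = c • a + c • b := by
  induction a using Quot.ind with | _ a =>
  induction b using Quot.ind with | _ b => exact mk_eq (Rel.smul_add c a b)

theorem add_smul' (c d : F) (a : FreeTP F X) : (c + d) • a = c • a + d • a := by
  induction a using Quot.ind with | _ a => exact mk_eq (Rel.add_smul c d a)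

theorem neg_add' (a : FreeTP F X) : -a + a = 0 := by
  have h : -a + a = ((-1 : F) + 1) • a := by
    rw [add_smul', one_smul']
    rfl
  rw [h, neg_add_cancel, zero_smul']

instance : AddCommGroup (FreeTP F X) where
  add_assoc := add_assoc'
  zero_add := zero_add'
  add_zero a := by rw [add_comm', zero_add']
  nsmul := nsmulRec
  zsmul := zsmulRec
  neg_add_cancel := neg_add'
  add_comm := add_comm'

instance : Module F (FreeTP F X) where
  one_smul := one_smul'
  mul_smul := mul_smul'
  smul_zero c := by
    have h : (0 : FreeTP F X) = (0 : F) • 0 := (zero_smul' 0).symm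
    rw [h, ← mul_smul', mul_zero]
  smul_add := smul_add'
  add_smul := add_smul'
  zero_smul := zero_smul'

instance : TPAlg F (FreeTP F X) where
  mul := mul
  br := br
  mul_comm a b := by
    induction a using Quot.ind with | _ a =>
    induction b using Quot.ind with | _ b => exact mk_eq (Rel.mul_comm a b)
  mul_assoc a b c := by
    induction a using Quot.ind with | _ a =>
    induction b using Quot.ind with | _ b =>
    induction c using Quot.ind with | _ c => exact mk_eq (Rel.mul_assoc a b c)
  add_mul a b c := by
    induction a using Quot.ind with | _ a =>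
    induction b using Quot.ind with | _ b =>
    induction c using Quot.ind with | _ c => exact mk_eq (Rel.add_mul a b c)
  smul_mul c a b := by
    induction a using Quot.ind with | _ a =>
    induction b using Quot.ind with | _ b => exact mk_eq (Rel.smul_mul c a b)
  add_br a b c := by
    induction a using Quot.ind with | _ a =>
    induction b using Quot.ind with | _ b =>
    induction c using Quot.ind with | _ c => exact mk_eq (Rel.add_br a b c)
  smul_br c a b := by
    induction a using Quot.ind with | _ a =>
    induction b using Quot.ind with | _ b => exact mk_eq (Rel.smul_br c a b)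
  br_add a b c := by
    induction a using Quot.ind with | _ a =>
    induction b using Quot.ind with | _ b =>
    induction c using Quot.ind with | _ c => exact mk_eq (Rel.br_add a b c)
  br_smul c a b := by
    induction a using Quot.ind with | _ a =>
    induction b using Quot.ind with | _ b => exact mk_eq (Rel.br_smul c a b)
  br_self a := by
    induction a using Quot.ind with | _ a => exact mk_eq (Rel.br_self a)
  jacobi a b c := by
    induction a using Quot.ind with | _ a =>
    induction b using Quot.ind with | _ b =>
    induction c using Quot.ind with | _ c => exact mk_eq (Rel.jacobi a b c)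
  tp a b c := by
    induction a using Quot.ind with | _ a =>
    induction b using Quot.ind with | _ b =>
    induction c using Quot.ind with | _ c => exact mk_eq (Rel.tp a b c)

section lift

variable {L : Type w} [AddCommGroup L] [Module F L] [TPAlg F L] (φ : X → L)

/-- Evaluation of terms. -/
def eval : Term F X → L
  | .var x => φ x
  | .zero => 0
  | .add a b => eval a + eval b
  | .smul c a => c • eval a
  | .mul a b => TPAlg.mul F (eval a) (eval b)
  | .br a b => TPAlg.br F (eval a) (eval b)

theorem eval_rel {a b : Term F X} (h : Rel F X a b) : eval φ a = eval φ b := by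
  induction h with
  | refl a => rfl
  | symm _ ih => exact ih.symm
  | trans _ _ ih1 ih2 => exact ih1.trans ih2
  | add_congr _ _ ih1 ih2 => simp only [eval, ih1, ih2]
  | smul_congr c _ ih => simp only [eval, ih]
  | mul_congr _ _ ih1 ih2 => simp only [eval, ih1, ih2]
  | br_congr _ _ ih1 ih2 => simp only [eval, ih1, ih2]
  | add_assoc a b c => simp only [eval]; abel
  | add_comm a b => simp only [eval]; abel
  | zero_add a => simp only [eval]; abel
  | zero_smul a => simp only [eval, zero_smul]
  | one_smul a => simp only [eval, one_smul]
  | mul_smul c d a => simp only [eval, mul_smul]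
  | smul_add c a b => simp only [eval, smul_add]
  | add_smul c d a => simp only [eval, add_smul]
  | mul_comm a b => exact TPAlg.mul_comm _ _
  | mul_assoc a b c => exact TPAlg.mul_assoc _ _ _
  | add_mul a b c => exact TPAlg.add_mul _ _ _
  | smul_mul c a b => exact TPAlg.smul_mul _ _ _
  | add_br a b c => exact TPAlg.add_br _ _ _
  | smul_br c a b => exact TPAlg.smul_br _ _ _
  | br_add a b c => exact TPAlg.br_add _ _ _
  | br_smul c a b => exact TPAlg.br_smul _ _ _
  | br_self a => exact TPAlg.br_self _
  | jacobi a b c => exact TPAlg.jacobi _ _ _
  | tp a b c => exact TPAlg.tp _ _ _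

/-- The homomorphism extending `φ`. -/
def lift : FreeTP F X →ₗ[F] L where
  toFun := Quot.lift (eval φ) (fun _ _ h => eval_rel φ h)
  map_add' a b := by
    induction a using Quot.ind with | _ a =>
    induction b using Quot.ind with | _ b => rfl
  map_smul' c a := by
    induction a using Quot.ind with | _ a => rfl

theorem lift_gen (x : X) : lift φ (gen F x) = φ x := rfl

theorem lift_mul (a b : FreeTP F X) :
    lift φ (TPAlg.mul F a b) = TPAlg.mul F (lift φ a) (lift φ b) := by
  induction a using Quot.ind with | _ a =>
  induction b using Quot.ind with | _ b => rfl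

theorem lift_br (a b : FreeTP F X) :
    lift φ (TPAlg.br F a b) = TPAlg.br F (lift φ a) (lift φ b) := by
  induction a using Quot.ind with | _ a =>
  induction b using Quot.ind with | _ b => rfl

/-- The universal property: `lift φ` is the only homomorphism extending `φ`. -/
theorem lift_unique (ψ : FreeTP F X →ₗ[F] L) (h : ∀ x, ψ (gen F x) = φ x)
    (hm : ∀ a b, ψ (TPAlg.mul F a b) = TPAlg.mul F (ψ a) (ψ b))
    (hb : ∀ a b, ψ (TPAlg.br F a b) = TPAlg.br F (ψ a) (ψ b)) : ψ = lift φ := by
  have key : ∀ t : Term F X, ψ (mk t) = lift φ (mk t) := by
    intro t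
    induction t with
    | var x => exact h x
    | zero => exact (map_zero ψ).trans (map_zero (lift φ)).symm
    | add a b iha ihb =>
      have e : mk (Term.add a b) = mk a + mk b := rfl
      rw [e, map_add, map_add, iha, ihb]
    | smul c a ih =>
      have e : mk (Term.smul c a) = c • mk a := rfl
      rw [e, map_smul, map_smul, ih]
    | mul a b iha ihb =>
      have e : mk (Term.mul a b) = TPAlg.mul F (mk a) (mk b) := rfl
      rw [e, hm, lift_mul, iha, ihb]
    | br a b iha ihb =>
      have e : mk (Term.br a b) = TPAlg.br F (mk a) (mk b) := rfl
      rw [e, hb, lift_br, iha, ihb]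
  ext a
  induction a using Quot.ind with | _ a => exact key a

end lift

end FreeTP

/-- The subalgebra (closed under both products) generated by a set. -/
def subalg (F : Type u) {L : Type v} [Field F] [AddCommGroup L] [Module F L] [TPAlg F L]
    (S : Set L) : Submodule F L :=
  sInf {N | S ⊆ N ∧ ∀ a ∈ N, ∀ b ∈ N, TPAlg.mul F a b ∈ N ∧ TPAlg.br F a b ∈ N}

/-- The ideal generated by `f`: the smallest subspace containing `f` and closed under
`u ↦ a · u` and `u ↦ [a, u]`. -/
def ideal (F : Type u) {L : Type v} [Field F] [AddCommGroup L] [Module F L] [TPAlg F L]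
    (f : L) : Submodule F L :=
  sInf {N | f ∈ N ∧ ∀ u ∈ N, ∀ a, TPAlg.mul F a u ∈ N ∧ TPAlg.br F a u ∈ N}

end Pool.Agent.H198R3.TP
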