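import Pool.Agent.H198R3.TPDefs

/-!
# An annihilated Lie polynomial in transposed Poisson algebras

For every element `w` of a transposed Poisson algebra, `w⁴ · s(a; b₀, b₁, b₂, b₃) = 0` where
`s` is the standard Lie polynomial of degree five (an identity of the Witt algebra).
-/

namespace Pool.Agent.H198R3.TP

universe u v

section basic

variable (F : Type u) {L : Type v} [Field F] [AddCommGroup L] [Module F L] [TPAlg F L]

open TPAlg

theorem br_anti (x y : L) : br F x y = - br F y x := by
  have h := br_self (F := F) (x + y)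
  rw [add_br, br_add, br_add, br_self, br_self, zero_add, add_zero] at h
  exact eq_neg_of_add_eq_zero_left h

theorem zero_br (x : L) : br F 0 x = 0 := by
  have h := smul_br (F := F) 0 (0 : L) x
  rwa [zero_smul, zero_smul] at h

theorem br_zero (x : L) : br F x 0 = 0 := by
  have h := br_smul (F := F) 0 x (0 : L)
  rwa [zero_smul, zero_smul] at h

theorem neg_br (x y : L) : br F (-x) y = - br F x y := by
  have h := smul_br (F := F) (-1) x y
  rwa [neg_one_smul, neg_one_smul] at h

theorem br_neg (x y : L) : br F x (-y) = - br F x y := by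
  have h := br_smul (F := F) (-1) x y
  rwa [neg_one_smul, neg_one_smul] at h

theorem zero_mul' (x : L) : mul F 0 x = 0 := by
  have h := smul_mul (F := F) 0 (0 : L) x
  rwa [zero_smul, zero_smul] at h

theorem mul_zero' (x : L) : mul F x 0 = 0 := by
  rw [TPAlg.mul_comm, zero_mul']

theorem mul_add' (x y z : L) : mul F x (y + z) = mul F x y + mul F x z := by
  rw [TPAlg.mul_comm, TPAlg.add_mul, TPAlg.mul_comm (F := F) y, TPAlg.mul_comm (F := F) z]

theorem mul_smul' (c : F) (x y : L) : mul F x (c • y) = c • mul F x y := by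
  rw [TPAlg.mul_comm, TPAlg.smul_mul, TPAlg.mul_comm (F := F) y]

/-- The commutative product embeds in a commutative ring. -/
theorem exists_ring : ∃ (R : Type (max u v)) (_ : CommRing R) (i : L →+ R),
    Function.Injective i ∧ ∀ x y, i (mul F x y) = i x * i y := by
  letI : NonUnitalCommRing L :=
    { (inferInstance : AddCommGroup L) with
      mul := fun x y => mul F x y
      left_distrib := fun x y z => mul_add' F x y z
      right_distrib := fun x y z => TPAlg.add_mul x y z
      zero_mul := fun x => zero_mul' F x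
      mul_zero := fun x => mul_zero' F x
      mul_assoc := fun x y z => TPAlg.mul_assoc x y z
      mul_comm := fun x y => TPAlg.mul_comm x y }
  haveI : IsScalarTower F L L := ⟨fun c x y => TPAlg.smul_mul c x y⟩
  haveI : SMulCommClass F L L := ⟨fun c x y => (mul_smul' F c x y).symm⟩
  refine ⟨Unitization F L, inferInstance,
    { toFun := fun x => Unitization.inr x, map_zero' := Unitization.inr_zero F,
      map_add' := fun x y => Unitization.inr_add F x y }, Unitization.inr_injective, ?_⟩
  intro x y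
  exact Unitization.inr_mul F x y

/-- `w · [x, y] = x · [w, y] - y · [w, x]`. -/
theorem mul_br (h2 : (2 : F) ≠ 0) (w x y : L) :
    mul F w (br F x y) = mul F x (br F w y) - mul F y (br F w x) := by
  have h1 := tp (F := F) x y w
  have h3 := tp (F := F) w y x
  have h4 := tp (F := F) w x y
  apply smul_right_injective L h2
  simp only [smul_sub]
  rw [h1, h3, h4, TPAlg.mul_comm (F := F) x w, TPAlg.mul_comm (F := F) y w,
    TPAlg.mul_comm (F := F) y x, br_anti F (mul F w y) x, br_anti F w (mul F x y)]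
  abel

/-- `[w, [x, y]] = [[w, x], y] + [x, [w, y]]`. -/
theorem br_br (w x y : L) :
    br F w (br F x y) = br F (br F w x) y + br F x (br F w y) := by
  have h := jacobi (F := F) w x y
  rw [br_anti F y (br F w x), br_anti F y w, br_neg] at h
  rw [← sub_eq_zero, ← h]
  abel

end basic

/-- The left normed product `[[[[a, p], q], r], s]`. -/
def lie4 (F : Type u) {L : Type v} [Field F] [AddCommGroup L] [Module F L] [TPAlg F L]
    (a p q r s : L) : L :=
  TPAlg.br F (TPAlg.br F (TPAlg.br F (TPAlg.br F a p) q) r) s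

/-- The standard Lie polynomial of degree five. -/
def std (F : Type u) {L : Type v} [Field F] [AddCommGroup L] [Module F L] [TPAlg F L]
    (a : L) (b : Fin 4 → L) : L :=
    lie4 F a (b 0) (b 1) (b 2) (b 3) - lie4 F a (b 0) (b 1) (b 3) (b 2) - lie4 F a (b 0) (b 2) (b
    1) (b 3) + lie4 F a (b 0) (b 2) (b 3) (b 1) + lie4 F a (b 0) (b 3) (b 1) (b 2) - lie4 F a (b
    0) (b 3) (b 2) (b 1) - lie4 F a (b 1) (b 0) (b 2) (b 3) + lie4 F a (b 1) (b 0) (b 3) (b 2) +
    lie4 F a (b 1) (b 2) (b 0) (b 3) - lie4 F a (b 1) (b 2) (b 3) (b 0) - lie4 F a (b 1) (b 3) (b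
    0) (b 2) + lie4 F a (b 1) (b 3) (b 2) (b 0) + lie4 F a (b 2) (b 0) (b 1) (b 3) - lie4 F a (b
    2) (b 0) (b 3) (b 1) - lie4 F a (b 2) (b 1) (b 0) (b 3) + lie4 F a (b 2) (b 1) (b 3) (b 0) +
    lie4 F a (b 2) (b 3) (b 0) (b 1) - lie4 F a (b 2) (b 3) (b 1) (b 0) - lie4 F a (b 3) (b 0) (b
    1) (b 2) + lie4 F a (b 3) (b 0) (b 2) (b 1) + lie4 F a (b 3) (b 1) (b 0) (b 2) - lie4 F a (b
    3) (b 1) (b 2) (b 0) - lie4 F a (b 3) (b 2) (b 0) (b 1) + lie4 F a (b 3) (b 2) (b 1) (b 0)

section ring

variable {R : Type u} [CommRing R]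

/-- The value of `w⁴ [[[[a, p], q], r], s]` as a differential polynomial. -/
def S (a p q r s : ℕ → R) : R :=
  let U0 := a 0 * p 1 - p 0 * a 1
  let U1 := a 0 * p 2 - p 0 * a 2
  let U2 := a 0 * p 3 + a 1 * p 2 - a 2 * p 1 - p 0 * a 3
  let U3 := a 0 * p 4 + 2 * a 1 * p 3 - 2 * a 3 * p 1 - p 0 * a 4
  let V0 := U0 * q 1 - q 0 * U1
  let V1 := U0 * q 2 - q 0 * U2
  let V2 := U0 * q 3 + U1 * q 2 - U2 * q 1 - q 0 * U3
  let T0 := V0 * r 1 - r 0 * V1
  let T1 := V0 * r 2 - r 0 * V2
  T0 * s 1 - s 0 * T1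

theorem S_alt (a : ℕ → R) (b : Fin 4 → ℕ → R) :
    S a (b 0) (b 1) (b 2) (b 3) - S a (b 0) (b 1) (b 3) (b 2) - S a (b 0) (b 2) (b 1) (b 3) + S a
    (b 0) (b 2) (b 3) (b 1) + S a (b 0) (b 3) (b 1) (b 2) - S a (b 0) (b 3) (b 2) (b 1) - S a (b
    1) (b 0) (b 2) (b 3) + S a (b 1) (b 0) (b 3) (b 2) + S a (b 1) (b 2) (b 0) (b 3) - S a (b 1)
    (b 2) (b 3) (b 0) - S a (b 1) (b 3) (b 0) (b 2) + S a (b 1) (b 3) (b 2) (b 0) + S a (b 2) (b
    0) (b 1) (b 3) - S a (b 2) (b 0) (b 3) (b 1) - S a (b 2) (b 1) (b 0) (b 3) + S a (b 2) (b 1)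
    (b 3) (b 0) + S a (b 2) (b 3) (b 0) (b 1) - S a (b 2) (b 3) (b 1) (b 0) - S a (b 3) (b 0) (b
    1) (b 2) + S a (b 3) (b 0) (b 2) (b 1) + S a (b 3) (b 1) (b 0) (b 2) - S a (b 3) (b 1) (b 2)
    (b 0) - S a (b 3) (b 2) (b 0) (b 1) + S a (b 3) (b 2) (b 1) (b 0) = 0 := by
  simp only [S]
  generalize a 0 = a0
  generalize a 1 = a1
  generalize a 2 = a2
  generalize a 3 = a3
  generalize a 4 = a4
  ring

end ring

section main

variable (F : Type u) {L : Type v} [Field F] [AddCommGroup L] [Module F L] [TPAlg F L]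

open TPAlg

theorem lie4_eq (h2 : (2 : F) ≠ 0) {R : Type (max u v)} [CommRing R] (i : L →+ R)
    (hi : ∀ x y, i (mul F x y) = i x * i y) (w a p q r s : L) :
    i w ^ 4 * i (lie4 F a p q r s) =
      S (fun j => i ((fun x => br F w x)^[j] a)) (fun j => i ((fun x => br F w x)^[j] p))
        (fun j => i ((fun x => br F w x)^[j] q)) (fun j => i ((fun x => br F w x)^[j] r))
        (fun j => i ((fun x => br F w x)^[j] s)) := by
  have A : ∀ x y : L, i w * i (br F x y) = i x * i (br F w y) - i y * i (br F w x) := by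
    intro x y
    rw [← hi, mul_br F h2, map_sub, hi, hi]
  have A1 : ∀ x y : L, i w * i (br F w (br F x y)) =
      i x * i (br F w (br F w y)) - i y * i (br F w (br F w x)) := by
    intro x y
    rw [br_br F w x y, map_add, mul_add, A, A]
    ring
  have A2 : ∀ x y : L, i w * i (br F w (br F w (br F x y))) =
      i x * i (br F w (br F w (br F w y))) + i (br F w x) * i (br F w (br F w y)) -
        i (br F w (br F w x)) * i (br F w y) - i y * i (br F w (br F w (br F w x))) := by
    intro x y
    rw [br_br F w x y, br_add, map_add, mul_add, A1, A1]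
    ring
  have A3 : ∀ x y : L, i w * i (br F w (br F w (br F w (br F x y)))) =
      i x * i (br F w (br F w (br F w (br F w y)))) +
        2 * i (br F w x) * i (br F w (br F w (br F w y))) -
        2 * i (br F w (br F w (br F w x))) * i (br F w y) -
        i y * i (br F w (br F w (br F w (br F w x)))) := by
    intro x y
    rw [br_br F w x y, br_add, br_add, map_add, mul_add, A2, A2]
    ring
  simp only [S, Function.iterate_succ, Function.iterate_zero, id, Function.comp, lie4]
  set u := br F a p with hu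
  set v := br F u q with hv
  set t := br F v r with ht
  have u0 := A a p
  have u1 := A1 a p
  have u2 := A2 a p
  have u3 := A3 a p
  rw [← hu] at u0 u1 u2 u3
  rw [← u0, ← u1, ← u2, ← u3]
  have v0 := A u q
  have v1 := A1 u q
  have v2 := A2 u q
  rw [← hv] at v0 v1 v2
  have t0 := A v r
  have t1 := A1 v r
  rw [← ht] at t0 t1
  have s0 := A t s
  linear_combination (i w ^ 3) * s0 + (i w ^ 2 * i (br F w s)) * t0 - (i w ^ 2 * i s) * t1 +
    (i w * (i (br F w r)) * i (br F w s)) * v0 -
    (i w * (i r) * i (br F w s)) * v1 - (i w * i s * i (br F w (br F w r))) * v0 +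
    (i w * i s * i r) * v2

/-- The standard Lie polynomial is annihilated by fourth powers. -/
theorem main_identity (h2 : (2 : F) ≠ 0) (w a : L) (b : Fin 4 → L) :
    mul F w (mul F w (mul F w (mul F w (std F a b)))) = 0 := by
  obtain ⟨R, _, i, hinj, hi⟩ := exists_ring F (L := L)
  apply hinj
  rw [map_zero, hi, hi, hi, hi]
  have h := S_alt (fun j => i ((fun x => br F w x)^[j] a))
    (fun k j => i ((fun x => br F w x)^[j] (b k)))
  simp only [← lie4_eq F h2 i hi] at h
  rw [← h, std]
  simp only [map_add, map_sub]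
  ring

end main

end Pool.Agent.H198R3.TP
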