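import Pool.Agent.H198R3.TPMain

/-!
# Models of transposed Poisson algebras used for the Freiheitssatz
-/

namespace Pool.Agent.H198R3.TP

universe u v

/-! ### Commutators in rings -/

/-- The commutator. -/
def cm {A : Type v} [Ring A] (x y : A) : A := x * y - y * x

/-- Left normed commutators of length five. -/
def l4 {A : Type v} [Ring A] (a p q r s : A) : A := cm (cm (cm (cm a p) q) r) s

/-- The standard Lie polynomial of degree five in a ring. -/
def st {A : Type v} [Ring A] (a : A) (b : Fin 4 → A) : A :=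
    l4 a (b 0) (b 1) (b 2) (b 3) - l4 a (b 0) (b 1) (b 3) (b 2) - l4 a (b 0) (b 2) (b 1) (b 3) +
    l4 a (b 0) (b 2) (b 3) (b 1) + l4 a (b 0) (b 3) (b 1) (b 2) - l4 a (b 0) (b 3) (b 2) (b 1) -
    l4 a (b 1) (b 0) (b 2) (b 3) + l4 a (b 1) (b 0) (b 3) (b 2) + l4 a (b 1) (b 2) (b 0) (b 3) -
    l4 a (b 1) (b 2) (b 3) (b 0) - l4 a (b 1) (b 3) (b 0) (b 2) + l4 a (b 1) (b 3) (b 2) (b 0) +
    l4 a (b 2) (b 0) (b 1) (b 3) - l4 a (b 2) (b 0) (b 3) (b 1) - l4 a (b 2) (b 1) (b 0) (b 3) +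
    l4 a (b 2) (b 1) (b 3) (b 0) + l4 a (b 2) (b 3) (b 0) (b 1) - l4 a (b 2) (b 3) (b 1) (b 0) -
    l4 a (b 3) (b 0) (b 1) (b 2) + l4 a (b 3) (b 0) (b 2) (b 1) + l4 a (b 3) (b 1) (b 0) (b 2) -
    l4 a (b 3) (b 1) (b 2) (b 0) - l4 a (b 3) (b 2) (b 0) (b 1) + l4 a (b 3) (b 2) (b 1) (b 0)

/-- A `3 × 3` matrix. -/
def X (R : Type v) [Ring R] : Matrix (Fin 3) (Fin 3) R := !![0, 1, 0; 0, 0, 0; 1, 0, 0]

/-- A `3 × 3` matrix. -/
def Y (R : Type v) [Ring R] : Matrix (Fin 3) (Fin 3) R := !![0, 0, 0; 0, 0, 1; 0, 0, 0]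

theorem st_int : st (X ℤ) ![X ℤ, Y ℤ, cm (X ℤ) (Y ℤ), cm (X ℤ) (cm (X ℤ) (Y ℤ))] 0 2 = -12 := by
  decide +kernel

theorem map_cm {A : Type u} {B : Type v} [Ring A] [Ring B] (f : A →+* B) (x y : A) :
    f (cm x y) = cm (f x) (f y) := by
  simp [cm]

theorem map_st {A : Type u} {B : Type v} [Ring A] [Ring B] (f : A →+* B) (a : A)
    (b : Fin 4 → A) : f (st a b) = st (f a) (fun k => f (b k)) := by
  simp only [st, l4, map_add, map_sub, map_cm]

theorem st_ne (F : Type u) [Field F] [CharZero F] :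
    st (X F) ![X F, Y F, cm (X F) (Y F), cm (X F) (cm (X F) (Y F))] ≠ 0 := by
  let f : Matrix (Fin 3) (Fin 3) ℤ →+* Matrix (Fin 3) (Fin 3) F := (Int.castRingHom F).mapMatrix
  have hX : f (X ℤ) = X F := by
    ext i j
    fin_cases i <;> fin_cases j <;> simp [f, X]
  have hY : f (Y ℤ) = Y F := by
    ext i j
    fin_cases i <;> fin_cases j <;> simp [f, Y]
  have h1 : st (X F) ![X F, Y F, cm (X F) (Y F), cm (X F) (cm (X F) (Y F))] =
      f (st (X ℤ) ![X ℤ, Y ℤ, cm (X ℤ) (Y ℤ), cm (X ℤ) (cm (X ℤ) (Y ℤ))]) := by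
    rw [map_st, hX]
    congr 1
    funext k
    fin_cases k
    · exact hX.symm
    · exact hY.symm
    · change cm (X F) (Y F) = f (cm (X ℤ) (Y ℤ))
      rw [map_cm, hX, hY]
    · change cm (X F) (cm (X F) (Y F)) = f (cm (X ℤ) (cm (X ℤ) (Y ℤ)))
      rw [map_cm, map_cm, hX, hY]
  intro h0
  rw [h1] at h0
  have h2 := congrArg (fun M => M 0 2) h0
  have h3 : f (st (X ℤ) ![X ℤ, Y ℤ, cm (X ℤ) (Y ℤ), cm (X ℤ) (cm (X ℤ) (Y ℤ))]) 0 2 =
      ((st (X ℤ) ![X ℤ, Y ℤ, cm (X ℤ) (Y ℤ), cm (X ℤ) (cm (X ℤ) (Y ℤ))] 0 2 : ℤ) : F) := rfl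
  simp only [h3, st_int] at h2
  norm_num at h2

/-! ### Two kinds of transposed Poisson algebras -/

/-- An associative algebra with zero product and the commutator as bracket. -/
@[reducible] def lieModel (F : Type u) (A : Type v) [Field F] [Ring A] [Algebra F A] : TPAlg F A where
  mul _ _ := 0
  br := cm
  mul_comm _ _ := rfl
  mul_assoc _ _ _ := rfl
  add_mul _ _ _ := (add_zero 0).symm
  smul_mul _ _ _ := (smul_zero _).symm
  add_br x y z := by simp only [cm]; noncomm_ring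
  smul_br c x y := by simp only [cm, smul_sub, smul_mul_assoc, mul_smul_comm]
  br_add x y z := by simp only [cm]; noncomm_ring
  br_smul c x y := by simp only [cm, smul_sub, smul_mul_assoc, mul_smul_comm]
  br_self x := by simp [cm]
  jacobi x y z := by simp only [cm]; noncomm_ring
  tp x y z := by simp [cm]

/-- A commutative algebra with zero bracket. -/
@[reducible] def commModel (F : Type u) (A : Type v) [Field F] [CommRing A] [Algebra F A] : TPAlg F A where
  mul x y := x * y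
  br _ _ := 0
  mul_comm := mul_comm
  mul_assoc := mul_assoc
  add_mul := add_mul
  smul_mul c x y := smul_mul_assoc c x y
  add_br _ _ _ := (add_zero 0).symm
  smul_br _ _ _ := (smul_zero _).symm
  br_add _ _ _ := (add_zero 0).symm
  br_smul _ _ _ := (smul_zero _).symm
  br_self _ := rfl
  jacobi _ _ _ := by simp
  tp _ _ _ := by simp

theorem mem_subalg_of_mem {F : Type u} {L : Type v} [Field F] [AddCommGroup L] [Module F L]
    [TPAlg F L] {S : Set L} {a : L} (h : a ∈ S) : a ∈ subalg F S := by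
  rw [subalg, Submodule.mem_sInf]
  intro N hN
  exact hN.1 h

theorem mul_mem_subalg {F : Type u} {L : Type v} [Field F] [AddCommGroup L] [Module F L]
    [TPAlg F L] {S : Set L} {a b : L} (ha : a ∈ subalg F S) (hb : b ∈ subalg F S) :
    TPAlg.mul F a b ∈ subalg F S := by
  rw [subalg, Submodule.mem_sInf] at *
  intro N hN
  exact (hN.2 a (ha N hN) b (hb N hN)).1

theorem mem_ideal_self {F : Type u} {L : Type v} [Field F] [AddCommGroup L] [Module F L]
    [TPAlg F L] (f : L) : f ∈ ideal F f := by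
  rw [ideal, Submodule.mem_sInf]
  intro N hN
  exact hN.1

theorem mul_mem_ideal {F : Type u} {L : Type v} [Field F] [AddCommGroup L] [Module F L]
    [TPAlg F L] {f u : L} (hu : u ∈ ideal F f) (a : L) : TPAlg.mul F a u ∈ ideal F f := by
  rw [ideal, Submodule.mem_sInf] at *
  intro N hN
  exact (hN.2 u (hu N hN) a).1

/-- Two homomorphisms agreeing on `S` agree on the subalgebra generated by `S`. -/
theorem eq_on_subalg {F : Type u} {L : Type v} [Field F] [AddCommGroup L] [Module F L]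
    [TPAlg F L] {M : Type*} [AddCommGroup M] [Module F M] [TPAlg F M] {S : Set L}
    (φ ψ : L →ₗ[F] M)
    (hφm : ∀ a b, φ (TPAlg.mul F a b) = TPAlg.mul F (φ a) (φ b))
    (hφb : ∀ a b, φ (TPAlg.br F a b) = TPAlg.br F (φ a) (φ b))
    (hψm : ∀ a b, ψ (TPAlg.mul F a b) = TPAlg.mul F (ψ a) (ψ b))
    (hψb : ∀ a b, ψ (TPAlg.br F a b) = TPAlg.br F (ψ a) (ψ b))
    (h : ∀ s ∈ S, φ s = ψ s) {a : L} (ha : a ∈ subalg F S) : φ a = ψ a := by
  have : subalg F S ≤ LinearMap.eqLocus φ ψ := by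
    apply sInf_le
    refine ⟨fun s hs => h s hs, fun a ha b hb => ?_⟩
    have ha' : φ a = ψ a := ha
    have hb' : φ b = ψ b := hb
    constructor
    · change φ (TPAlg.mul F a b) = ψ (TPAlg.mul F a b)
      rw [hφm, hψm, ha', hb']
    · change φ (TPAlg.br F a b) = ψ (TPAlg.br F a b)
      rw [hφb, hψb, ha', hb']
  exact this ha

theorem lift_std {F : Type u} {T : Type v} [Field F] {L : Type*} [AddCommGroup L] [Module F L]
    [TPAlg F L] (φ : T → L) (a : FreeTP F T) (b : Fin 4 → FreeTP F T) :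
    FreeTP.lift φ (std F a b) = std F (FreeTP.lift φ a) (fun k => FreeTP.lift φ (b k)) := by
  simp only [std, lie4, map_add, map_sub, FreeTP.lift_br]

end Pool.Agent.H198R3.TP
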